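import Pool.Agent.Helper59.RealDataField

open Topology ComplexConjugate

namespace Pool.Agent.Helper59

section theta

variable {K Ω : Type*} [Field K] [Field Ω] [Algebra K Ω] [IsGalois K Ω]

lemma isOpen_ker_of_isLocallyConstant {G H : Type*} [Group G] [TopologicalSpace G] [Group H]
    (ρ : G →* H) (hρ : IsLocallyConstant ρ) : IsOpen (ρ.ker : Set G) := by
  have : (ρ.ker : Set G) = ρ ⁻¹' {1} := by
    ext; simp [MonoidHom.mem_ker]
  rw [this]
  exact hρ.isOpen_fiber 1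

lemma exists_theta {H : Type*} [Group H] (ρ : Gal(Ω/K) →* H) (hρ : IsLocallyConstant ρ) :
    ∃ θ : Ω, ∀ σ : Gal(Ω/K), σ θ = θ ↔ ρ σ = 1 := by
  have hopen := isOpen_ker_of_isLocallyConstant ρ hρ
  let N : ClosedSubgroup Gal(Ω/K) :=
    { ρ.ker with isClosed' := Subgroup.isClosed_of_isOpen _ hopen }
  let L : IntermediateField K Ω := IntermediateField.fixedField N.toSubgroup
  have hfix : L.fixingSubgroup = ρ.ker := InfiniteGalois.fixingSubgroup_fixedField N
  have hfd : FiniteDimensional K L := by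
    rw [← InfiniteGalois.isOpen_iff_finite]
    change IsOpen (L.fixingSubgroup : Set Gal(Ω/K))
    rw [hfix]
    exact hopen
  obtain ⟨θ, hθ⟩ := Field.exists_primitive_element K L
  refine ⟨θ, fun σ => ?_⟩
  rw [← MonoidHom.mem_ker, ← hfix]
  constructor
  · intro h
    rw [IntermediateField.mem_fixingSubgroup_iff]
    intro x hx
    have h1 : IntermediateField.adjoin K {(θ : Ω)} ≤
        IntermediateField.fixedField (Subgroup.zpowers σ) := by
      rw [IntermediateField.adjoin_simple_le_iff, IntermediateField.mem_fixedField_iff]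
      intro τ hτ
      obtain ⟨m, rfl⟩ := Subgroup.mem_zpowers_iff.1 hτ
      have h2 : σ ∈ MulAction.stabilizer Gal(Ω/K) (θ : Ω) := h
      exact (MulAction.stabilizer Gal(Ω/K) (θ : Ω)).zpow_mem h2 m
    have h3 : x ∈ IntermediateField.adjoin K {(θ : Ω)} := by
      have : IntermediateField.adjoin K {(θ : Ω)} =
          (IntermediateField.adjoin K {θ}).map L.val := by
        rw [IntermediateField.adjoin_map]; simp
      rw [this, hθ]
      exact ⟨⟨x, hx⟩, trivial, rfl⟩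
    exact (IntermediateField.mem_fixedField_iff _ _).1 (h1 h3) σ (Subgroup.mem_zpowers σ)
  · intro h
    exact (IntermediateField.mem_fixingSubgroup_iff _ _).1 h θ θ.2

end theta

/-- a finite set of reals and a point outside it can be separated by a rational interval -/
lemma exists_rat_isolating (X : Set ℝ) (hX : X.Finite) (x₀ : ℝ) (h : x₀ ∉ X) :
    ∃ r₁ r₂ : ℚ, (r₁ : ℝ) < x₀ ∧ x₀ < r₂ ∧ ∀ x ∈ X, x < r₁ ∨ (r₂ : ℝ) < x := by
  obtain ⟨ε, hε, hball⟩ := Metric.isOpen_iff.1 hX.isClosed.isOpen_compl x₀ h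
  obtain ⟨r₁, h1, h2⟩ := exists_rat_btwn (show x₀ - ε < x₀ by linarith)
  obtain ⟨r₂, h3, h4⟩ := exists_rat_btwn (show x₀ < x₀ + ε by linarith)
  refine ⟨r₁, r₂, h2, h3, fun x hx => ?_⟩
  by_contra hcon
  push Not at hcon
  have : x ∈ Metric.ball x₀ ε := by
    rw [Metric.mem_ball, Real.dist_eq, abs_lt]
    constructor <;> linarith [hcon.1, hcon.2]
  exact hball this hx

section sqrt

lemma conj_eq_of_sq_pos (z : ℂ) (w : ℂ) (hw : z ^ 2 = w) (him : w.im = 0) (hre : 0 < w.re) :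
    conj z = z := by
  have h1 : z.re * z.re - z.im * z.im = w.re := by rw [← hw]; simp [sq]
  have h2 : z.re * z.im + z.im * z.re = 0 := by rw [← him, ← hw]; simp [sq]
  have h3 : z.re * z.im = 0 := by linarith
  rw [Complex.conj_eq_iff_im]
  rcases mul_eq_zero.1 h3 with h | h
  · rw [h] at h1
    nlinarith [mul_self_nonneg z.im]
  · exact h

lemma conj_eq_neg_of_sq_neg (z : ℂ) (w : ℂ) (hw : z ^ 2 = w) (him : w.im = 0) (hre : w.re < 0) :
    conj z = -z := by
  have h1 : z.re * z.re - z.im * z.im = w.re := by rw [← hw]; simp [sq]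
  have h2 : z.re * z.im + z.im * z.re = 0 := by rw [← him, ← hw]; simp [sq]
  have h3 : z.re * z.im = 0 := by linarith
  rcases mul_eq_zero.1 h3 with h | h
  · apply Complex.ext <;> simp [h]
  · rw [h] at h1
    nlinarith [mul_self_nonneg z.re]

variable {K Ω : Type*} [Field K] [Field Ω] [CharZero Ω] [Algebra K Ω] [IsGalois K Ω]
  [IsAlgClosed Ω]

open Classical in
/-- The square roots used in the construction of the real data. -/
lemma exists_squareRoots {H : Type*} [Group H] [Finite H] (ρ : Gal(Ω/K) →* H)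
    (hρ : IsLocallyConstant ρ) (ι : Ω →+* ℂ) (c : Gal(Ω/K)) (hc : ∀ x, ι (c x) = conj (ι x))
    (hρc : ρ c = 1) :
    ∃ s : H → Ω, (∀ δ, s δ ≠ 0) ∧ (∀ (g : Gal(Ω/K)) δ, (g (s δ)) ^ 2 = (s (ρ g * δ)) ^ 2) ∧
      c (s 1) = - s 1 ∧ ∀ δ, δ ≠ 1 → c (s δ) = s δ := by
  obtain ⟨θ, hθ⟩ := exists_theta ρ hρ
  have hinj : ∀ σ τ : Gal(Ω/K), σ θ = τ θ ↔ ρ σ = ρ τ := by
    intro σ τ
    have h1 := hθ (τ⁻¹ * σ)
    rw [map_mul, map_inv, inv_mul_eq_one, eq_comm (a := ρ τ)] at h1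
    rw [← h1]
    constructor
    · intro h
      change τ⁻¹ (σ θ) = θ
      rw [h, ← AlgEquiv.mul_apply, inv_mul_cancel]
      rfl
    · intro h
      have h2 : τ ((τ⁻¹ * σ) θ) = τ θ := by rw [h]
      rw [← h2, ← AlgEquiv.mul_apply, mul_inv_cancel_left]
  have hreal : ∀ σ : Gal(Ω/K), (ι (σ θ)).im = 0 := by
    intro σ
    have h1 : (c * σ) θ = σ θ := (hinj (c * σ) σ).2 (by rw [map_mul, hρc, one_mul])
    rw [← Complex.conj_eq_iff_im, ← hc]
    change ι ((c * σ) θ) = _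
    rw [h1]
  let X : Set ℝ := {x | ∃ σ : Gal(Ω/K), ρ σ ≠ 1 ∧ x = (ι (σ θ)).re}
  have hX : X.Finite := by
    have : X ⊆ Set.range (fun δ : H => if h : ∃ σ, ρ σ = δ then (ι (h.choose θ)).re else 0) := by
      rintro x ⟨σ, -, rfl⟩
      refine ⟨ρ σ, ?_⟩
      have h : ∃ τ, ρ τ = ρ σ := ⟨σ, rfl⟩
      simp only [dif_pos h]
      rw [(hinj h.choose σ).2 h.choose_spec]
    exact (Set.finite_range _).subset this
  have hx0 : (ι θ).re ∉ X := by
    rintro ⟨σ, hσ, h⟩
    apply hσ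
    rw [← hθ]
    apply ι.injective
    apply Complex.ext
    · exact h.symm
    · rw [hreal σ]
      have := hreal 1
      exact this.symm
  obtain ⟨r₁, r₂, h1, h2, h3⟩ := exists_rat_isolating X hX _ hx0
  let a : H → Ω := fun δ => if h : ∃ σ, ρ σ = δ then (h.choose θ - (r₁ : Ω)) *
    (h.choose θ - (r₂ : Ω)) else 1
  have ha : ∀ σ, a (ρ σ) = (σ θ - (r₁ : Ω)) * (σ θ - (r₂ : Ω)) := by
    intro σ
    have h : ∃ τ, ρ τ = ρ σ := ⟨σ, rfl⟩
    simp only [a, dif_pos h]
    rw [(hinj h.choose σ).2 h.choose_spec]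
  have ha' : ∀ δ, (¬ ∃ σ, ρ σ = δ) → a δ = 1 := by
    intro δ h
    simp only [a, dif_neg h]
  have hga : ∀ (g : Gal(Ω/K)) δ, g (a δ) = a (ρ g * δ) := by
    intro g δ
    by_cases h : ∃ σ, ρ σ = δ
    · obtain ⟨σ, rfl⟩ := h
      rw [← map_mul, ha, ha]
      simp
    · rw [ha' δ h, ha', map_one]
      rintro ⟨σ, hσ⟩
      exact h ⟨g⁻¹ * σ, by rw [map_mul, hσ, map_inv, inv_mul_cancel_left]⟩
  have hιa : ∀ σ, (ι (a (ρ σ))).re = ((ι (σ θ)).re - r₁) * ((ι (σ θ)).re - r₂) ∧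
      (ι (a (ρ σ))).im = 0 := by
    intro σ
    rw [ha, map_mul, map_sub, map_sub, map_ratCast, map_ratCast]
    simp [hreal σ]
  have hneg : (ι (a 1)).re < 0 ∧ (ι (a 1)).im = 0 := by
    have h := hιa 1
    rw [map_one] at h
    refine ⟨?_, h.2⟩
    rw [h.1]
    change ((ι θ).re - r₁) * ((ι θ).re - r₂) < 0
    apply mul_neg_of_pos_of_neg <;> linarith
  have hpos : ∀ δ, δ ≠ 1 → 0 < (ι (a δ)).re ∧ (ι (a δ)).im = 0 := by
    intro δ hδ
    by_cases h : ∃ σ, ρ σ = δ
    · obtain ⟨σ, rfl⟩ := h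
      have h' := hιa σ
      refine ⟨?_, h'.2⟩
      rw [h'.1]
      rcases h3 (ι (σ θ)).re ⟨σ, hδ, rfl⟩ with h4 | h4
      · apply mul_pos_of_neg_of_neg <;> linarith
      · apply mul_pos <;> linarith
    · rw [ha' δ h]
      simp
  choose s hs using fun δ : H => IsAlgClosed.exists_pow_nat_eq (a δ) (n := 2) (by norm_num)
  refine ⟨s, ?_, ?_, ?_, ?_⟩
  · intro δ h0
    have h4 := hs δ
    rw [h0] at h4
    have h5 : a δ = 0 := by rw [← h4]; simp
    by_cases hδ : δ = 1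
    · subst hδ
      rw [h5] at hneg
      simp at hneg
    · have := (hpos δ hδ).1
      rw [h5] at this
      simp at this
  · intro g δ
    rw [← map_pow, hs, hs, hga]
  · apply ι.injective
    rw [hc, map_neg]
    exact conj_eq_neg_of_sq_neg _ (ι (a 1)) (by rw [← map_pow, hs]) hneg.2 hneg.1
  · intro δ hδ
    apply ι.injective
    rw [hc]
    exact conj_eq_of_sq_pos _ (ι (a δ)) (by rw [← map_pow, hs]) (hpos δ hδ).2 (hpos δ hδ).1

end sqrt

end Pool.Agent.Helper59
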