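import Pool.Agent.Helper59.Kummer
import Pool.Agent.Helper59.SquareRoots

open Topology NumberField IsDedekindDomain

namespace Pool.Agent.Helper59

section alpha

variable {K Ω : Type*} [Field K] [Field Ω] [Algebra K Ω] [IsGalois K Ω]

/-- Kummer theory for a quadratic character of an open subgroup -/
lemma exists_alpha (N : Subgroup Gal(Ω/K)) (hN : IsOpen (N : Set Gal(Ω/K)))
    (χ : Gal(Ω/K) → ZMod 2) (hχ : IsLocallyConstant χ)
    (hadd : ∀ g ∈ N, ∀ h ∈ N, χ (g * h) = χ g + χ h) :
    ∃ α : Ω, α ≠ 0 ∧ (∀ g ∈ N, χ g = 0 → g α = α) ∧ ∀ g ∈ N, χ g ≠ 0 → g α = - α := by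
  by_cases h0 : ∀ g ∈ N, χ g = 0
  · exact ⟨1, one_ne_zero, fun g _ _ => map_one g, fun g hg h => absurd (h0 g hg) h⟩
  push Not at h0
  obtain ⟨g₀, hg₀, hχg₀⟩ := h0
  have hχ1 : χ 1 = 0 := by
    have := hadd 1 N.one_mem 1 N.one_mem
    rw [mul_one] at this
    simpa using this
  have hinv : ∀ g ∈ N, χ g⁻¹ = χ g := by
    intro g hg
    have h1 := hadd g hg g⁻¹ (N.inv_mem hg)
    rw [mul_inv_cancel, hχ1] at h1
    have h2 : ∀ a b : ZMod 2, 0 = a + b → b = a := by decide
    exact h2 _ _ h1
  have hone : ∀ a : ZMod 2, a ≠ 0 → a = 1 := by decide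
  let H : Subgroup Gal(Ω/K) :=
    { carrier := {g | g ∈ N ∧ χ g = 0}
      mul_mem' := fun {a b} ha hb => ⟨N.mul_mem ha.1 hb.1, by
        rw [hadd a ha.1 b hb.1, ha.2, hb.2, add_zero]⟩
      one_mem' := ⟨N.one_mem, hχ1⟩
      inv_mem' := fun {a} ha => ⟨N.inv_mem ha.1, by rw [hinv a ha.1, ha.2]⟩ }
  have hHopen : IsOpen (H : Set Gal(Ω/K)) := by
    have : (H : Set Gal(Ω/K)) = (N : Set Gal(Ω/K)) ∩ χ ⁻¹' {0} := rfl
    rw [this]
    exact hN.inter (hχ.isOpen_fiber 0)
  let Hc : ClosedSubgroup Gal(Ω/K) :=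
    { H with isClosed' := Subgroup.isClosed_of_isOpen _ hHopen }
  let L : IntermediateField K Ω := IntermediateField.fixedField Hc.toSubgroup
  have hfix : L.fixingSubgroup = H := InfiniteGalois.fixingSubgroup_fixedField Hc
  have hex : ∃ β ∈ L, g₀ β ≠ β := by
    by_contra hcon
    push Not at hcon
    have : g₀ ∈ L.fixingSubgroup := (IntermediateField.mem_fixingSubgroup_iff _ _).2 hcon
    rw [hfix] at this
    exact hχg₀ this.2
  obtain ⟨β, hβ, hβ0⟩ := hex
  have hH : ∀ g ∈ H, g β = β := by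
    intro g hg
    exact (IntermediateField.mem_fixedField_iff _ _).1 hβ g hg
  have key1 : ∀ g ∈ N, χ g ≠ 0 → g β = g₀ β ∧ g (g₀ β) = β := by
    intro g hg h
    constructor
    · have h1 : g₀⁻¹ * g ∈ H := by
        refine ⟨N.mul_mem (N.inv_mem hg₀) hg, ?_⟩
        rw [hadd _ (N.inv_mem hg₀) _ hg, hinv _ hg₀, hone _ h, hone _ hχg₀]
        rfl
      have h2 := hH _ h1
      have h3 : g₀ ((g₀⁻¹ * g) β) = g₀ β := by rw [h2]
      rw [← h3, ← AlgEquiv.mul_apply, mul_inv_cancel_left]
    · have h1 : g * g₀ ∈ H := by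
        refine ⟨N.mul_mem hg hg₀, ?_⟩
        rw [hadd _ hg _ hg₀, hone _ h, hone _ hχg₀]
        rfl
      exact hH _ h1
  refine ⟨β - g₀ β, sub_ne_zero.2 (Ne.symm hβ0), ?_, ?_⟩
  · intro g hg h
    have h1 : g ∈ H := ⟨hg, h⟩
    have h2 : χ (g * g₀) ≠ 0 := by
      rw [hadd _ hg _ hg₀, h, zero_add]
      exact hχg₀
    rw [map_sub, hH g h1]
    have h3 := (key1 (g * g₀) (N.mul_mem hg hg₀) h2).1
    rw [AlgEquiv.mul_apply] at h3
    rw [h3]
  · intro g hg h
    rw [map_sub, (key1 g hg h).1, (key1 g hg h).2]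
    ring

end alpha

section unram

variable {K : Type*} [Field K] [NumberField K]

omit [NumberField K] in
lemma isUnramifiedIn_of_algEquiv {L L' : Type*} [Field L] [NumberField L] [Field L']
    [NumberField L'] [Algebra K L] [Algebra K L'] (e : L ≃ₐ[K] L') (v : Ideal (𝓞 K))
    (h : Algebra.IsUnramifiedIn (𝓞 L) v) : Algebra.IsUnramifiedIn (𝓞 L') v := by
  intro P' hP' hlie
  let e' : 𝓞 L ≃ₐ[𝓞 K] 𝓞 L' := RingOfIntegers.mapAlgEquiv e
  have hP : (P'.comap (e' : 𝓞 L →+* 𝓞 L')).IsPrime := Ideal.IsPrime.comap _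
  have hl : (P'.comap (e' : 𝓞 L →+* 𝓞 L')).LiesOver v := by
    constructor
    rw [Ideal.over_def P' v]
    ext x
    simp only [Ideal.mem_comap, Ideal.under]
    simp
  have h1 := h _ hP hl
  exact Algebra.FormallyUnramified.of_equiv
    (Localization.localAlgEquiv (P'.comap (e' : 𝓞 L →+* 𝓞 L')) P' e' rfl)

/-- `a = α²` with `α` in an extension unramified over `w` has even valuation at `w`. -/
lemma isSquare_valuation {L E : Type*} [Field L] [NumberField L] [Field E] [NumberField E]
    [Algebra L E] (w : HeightOneSpectrum (𝓞 L)) (W : HeightOneSpectrum (𝓞 E))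
    [W.asIdeal.LiesOver w.asIdeal] (he : W.asIdeal.ramificationIdx (𝓞 L) = 1)
    (a : Lˣ) (α : E) (hα : α ^ 2 = algebraMap L E a) : IsSquare (w.valuationOfNeZero a) := by
  have hα0 : α ≠ 0 := by
    rintro rfl
    have : algebraMap L E a = 0 := by rw [← hα]; simp
    rw [map_eq_zero] at this
    exact a.ne_zero this
  have h1 := HeightOneSpectrum.valuation_liesOver (K := L) E w W (a : L)
  rw [Ideal.ramificationIdx'_eq_ramificationIdx _ _ w.ne_bot, he, pow_one, ← hα, map_pow] at h1
  refine ⟨W.valuationOfNeZero (Units.mk0 α hα0), ?_⟩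
  rw [← WithZero.coe_inj, WithZero.coe_mul, HeightOneSpectrum.valuationOfNeZero_eq,
    HeightOneSpectrum.valuationOfNeZero_eq, h1, sq]
  rfl

/-- The same, in a tower `K ⊆ L ⊆ E`. -/
lemma isSquare_valuation_tower {K L E : Type} [Field K] [NumberField K] [Field L] [NumberField L] [Field E] [NumberField E]
    [Algebra L E] [Algebra K L] [Algebra K E] [IsScalarTower K L E]
    (w : HeightOneSpectrum (𝓞 L)) (h : Algebra.IsUnramifiedIn (𝓞 E) (w.asIdeal.under (𝓞 K)))
    (a : Lˣ) (α : E) (hα : α ^ 2 = algebraMap L E a) : IsSquare (w.valuationOfNeZero a) := by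
  obtain ⟨⟨W, hW, hWover⟩⟩ : Nonempty (Ideal.primesOver w.asIdeal (𝓞 E)) := inferInstance
  let W' : HeightOneSpectrum (𝓞 E) :=
    ⟨W, hW, Ideal.ne_bot_of_liesOver_of_ne_bot w.ne_bot W⟩
  have hWw : W.under (𝓞 L) = w.asIdeal := (Ideal.over_def W w.asIdeal).symm
  have he : W'.asIdeal.ramificationIdx (𝓞 L) = 1 := by
    change W.ramificationIdx (𝓞 L) = 1
    have h1 := ramificationIdx_tower_int K L E W
    have h2 : W.ramificationIdx (𝓞 K) = 1 := by
      apply h.ramificationIdx_eq_one
      constructor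
      rw [← hWw, Ideal.under_under]
    rw [h2] at h1
    exact (Nat.eq_one_of_mul_eq_one_left h1.symm)
  exact isSquare_valuation w W' he a α hα

end unram

section main

variable {K : Type} [Field K] [NumberField K] {S : Set (HeightOneSpectrum (𝓞 K))}

lemma numberField_int (L : IntermediateField K (maximalUnramifiedOutside K S))
    [FiniteDimensional K L] : NumberField L := by
  have : FiniteDimensional ℚ L := FiniteDimensional.trans ℚ K L
  exact { to_charZero := charZero_of_injective_algebraMap (algebraMap K L).injective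
          to_finiteDimensional := this }

lemma unramified_int (E : IntermediateField K (maximalUnramifiedOutside K S))
    [FiniteDimensional K E] (v : HeightOneSpectrum (𝓞 K)) (hv : v ∉ S) :
    Algebra.IsUnramifiedIn (𝓞 E) v.asIdeal := by
  have : NumberField E := numberField_int E
  have h1 : FiniteDimensional K (IntermediateField.lift E) :=
    (IntermediateField.liftAlgEquiv E).toLinearEquiv.finiteDimensional
  have : NumberField (IntermediateField.lift E) := numberField_intermediate K _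
  exact isUnramifiedIn_of_algEquiv (IntermediateField.liftAlgEquiv E).symm v.asIdeal
    (unramifiedOutside_of_le (IntermediateField.lift_le E) v hv)

/-- the primes of `L` above `S` -/
def above (L : IntermediateField K (maximalUnramifiedOutside K S))
    [NumberField L] (S : Set (HeightOneSpectrum (𝓞 K))) : Set (HeightOneSpectrum (𝓞 L)) :=
  {w | ∃ v ∈ S, w.asIdeal.LiesOver v.asIdeal}

lemma above_finite (L : IntermediateField K (maximalUnramifiedOutside K S))
    [NumberField L] (hS : S.Finite) : (above L S).Finite := by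
  have h1 : (⋃ v ∈ S, {w : HeightOneSpectrum (𝓞 L) | w.asIdeal.LiesOver v.asIdeal}).Finite := by
    apply hS.biUnion
    intro v _
    have h2 : (Ideal.map (algebraMap (𝓞 K) (𝓞 L)) v.asIdeal) ≠ ⊥ :=
      Ideal.map_ne_bot_of_ne_bot v.ne_bot
    refine (Ideal.finite_factors h2).subset ?_
    intro w hw
    have : w.asIdeal.LiesOver v.asIdeal := hw
    change w.asIdeal ∣ _
    rw [Ideal.dvd_iff_le, Ideal.map_le_iff_le_comap]
    exact (Ideal.over_def w.asIdeal v.asIdeal).le
  refine h1.subset ?_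
  rintro w ⟨v, hv, hw⟩
  exact Set.mem_biUnion hv hw

/-- Finiteness of the set of continuous quadratic characters of an open subgroup of `G_{K,S}`. -/
theorem finite_chars (hS : S.Finite) (N : Subgroup (Gal((maximalUnramifiedOutside K S)/K)))
    (hN : IsOpen (N : Set (Gal((maximalUnramifiedOutside K S)/K)))) :
    {f : N → ZMod 2 | ∃ χ : Gal((maximalUnramifiedOutside K S)/K) → ZMod 2, IsLocallyConstant χ ∧
      (∀ g ∈ N, ∀ h ∈ N, χ (g * h) = χ g + χ h) ∧ ∀ n : N, f n = χ n}.Finite := by
  let Nc : ClosedSubgroup (Gal((maximalUnramifiedOutside K S)/K)) :=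
    { N with isClosed' := Subgroup.isClosed_of_isOpen _ hN }
  let L : IntermediateField K (maximalUnramifiedOutside K S) :=
    IntermediateField.fixedField Nc.toSubgroup
  have hfix : L.fixingSubgroup = N := InfiniteGalois.fixingSubgroup_fixedField Nc
  have hLfd : FiniteDimensional K L := by
    rw [← InfiniteGalois.isOpen_iff_finite]
    change IsOpen (L.fixingSubgroup : Set (Gal((maximalUnramifiedOutside K S)/K)))
    rw [hfix]
    exact hN
  have : NumberField L := numberField_int L
  obtain ⟨F, hF, hFa⟩ := finSq_evenOutside (above L S) (above_finite L hS)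
  have hex : ∀ f ∈ {f : N → ZMod 2 | ∃ χ : Gal((maximalUnramifiedOutside K S)/K) → ZMod 2, IsLocallyConstant χ ∧
      (∀ g ∈ N, ∀ h ∈ N, χ (g * h) = χ g + χ h) ∧ ∀ n : N, f n = χ n},
      ∃ (c : Lˣ) (α : maximalUnramifiedOutside K S) (a : Lˣ), c ∈ F ∧ α ≠ 0 ∧
        α ^ 2 = (((a : Lˣ) : L) : maximalUnramifiedOutside K S) ∧ IsSquare (a * c) ∧
        ∀ n : N, (f n = 0 → n.1 α = α) ∧ (f n ≠ 0 → n.1 α = - α) := by
    rintro f ⟨χ, hlc, hadd, hf⟩
    obtain ⟨α, hα0, hα1, hα2⟩ := exists_alpha N hN χ hlc hadd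
    have haL : α ^ 2 ∈ L := by
      rw [IntermediateField.mem_fixedField_iff]
      intro g hg
      rw [map_pow]
      by_cases h : χ g = 0
      · rw [hα1 g hg h]
      · rw [hα2 g hg h, neg_sq]
    let a : Lˣ := Units.mk0 ⟨α ^ 2, haL⟩ (by
      intro h
      have := congrArg Subtype.val h
      exact hα0 (pow_eq_zero_iff (two_ne_zero) |>.1 this))
    have haeven : a ∈ evenOutside (above L S) := by
      intro w hw
      have hwu : w.asIdeal.under (𝓞 K) ≠ ⊥ := by
        exact Ideal.under_ne_bot (𝓞 K) w.ne_bot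
      let v : HeightOneSpectrum (𝓞 K) := ⟨w.asIdeal.under (𝓞 K), inferInstance, hwu⟩
      have hv : v ∉ S := by
        intro hv
        exact hw ⟨v, hv, ⟨rfl⟩⟩
      let E : IntermediateField K (maximalUnramifiedOutside K S) :=
        L ⊔ IntermediateField.adjoin K {α}
      have hLE : L ≤ E := le_sup_left
      have hαE : α ∈ E :=
        (le_sup_right : IntermediateField.adjoin K {α} ≤ E)
          (IntermediateField.mem_adjoin_simple_self K α)
      have : FiniteDimensional K (IntermediateField.adjoin K {α}) :=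
        IntermediateField.adjoin.finiteDimensional (Algebra.IsIntegral.isIntegral α)
      have : FiniteDimensional K E := inferInstance
      have : NumberField E := numberField_int E
      let iA : Algebra L E := (IntermediateField.inclusion hLE).toAlgebra
      have iT : @IsScalarTower K L E _ iA.toSMul _ :=
        @IsScalarTower.of_algebraMap_eq K L E _ _ _ _ iA _ fun x => rfl
      exact isSquare_valuation_tower w (unramified_int E v hv) a (⟨α, hαE⟩ : E) rfl
    obtain ⟨c, hc, hsq⟩ := hFa a haeven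
    refine ⟨c, α, a, hc, hα0, rfl, hsq, fun n => ⟨fun h => ?_, fun h => ?_⟩⟩
    · exact hα1 n n.2 (by rw [← hf]; exact h)
    · exact hα2 n n.2 (by rw [← hf]; exact h)
  choose! c α a hc hα0 hαa hsq hα using hex
  refine Set.Finite.of_finite_image (f := c) (hF.subset ?_) ?_
  · rintro _ ⟨f, hf, rfl⟩
    exact hc f hf
  intro f hf f' hf' hcc
  have h1 : IsSquare (a f * (a f')⁻¹) := by
    have h2 := (hsq f hf).mul (hsq f' hf').inv
    rw [← hcc, mul_inv_rev, mul_assoc, mul_inv_cancel_left] at h2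
    exact h2
  obtain ⟨d, hd⟩ := h1
  have h3 : (α f) ^ 2 = (α f' * ((d : L) : maximalUnramifiedOutside K S)) ^ 2 := by
    rw [mul_pow, hαa f hf, hαa f' hf']
    have h4 : a f = a f' * d ^ 2 := by
      rw [sq, ← hd, mul_comm (a f), mul_inv_cancel_left]
    rw [h4]
    push_cast
    rfl
  have hdn : ∀ n : N, n.1 ((d : L) : maximalUnramifiedOutside K S) = (d : L) := by
    intro n
    exact (IntermediateField.mem_fixedField_iff _ _).1 (d : L).2 n.1 n.2
  have hne : ∀ x : maximalUnramifiedOutside K S, x ≠ 0 → x ≠ - x := by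
    intro x hx h
    have h5 : (2 : maximalUnramifiedOutside K S) * x = 0 := by linear_combination h
    rcases mul_eq_zero.1 h5 with h' | h'
    · exact two_ne_zero h'
    · exact hx h'
  have h01 : ∀ x y : ZMod 2, (x = 0 ↔ y = 0) → x = y := by decide
  funext n
  apply h01
  -- `n` fixes `α f` iff it fixes `α f'`
  have h6 : ∀ n : N, n.1 (α f) = α f ↔ n.1 (α f') = α f' := by
    intro n
    have hd0 : ((d : L) : maximalUnramifiedOutside K S) ≠ 0 := by
      intro h
      exact d.ne_zero (Subtype.ext h)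
    rcases sq_eq_sq_iff_eq_or_eq_neg.1 h3 with h | h
    · rw [h, map_mul, hdn]
      constructor
      · exact mul_right_cancel₀ hd0
      · intro h'
        rw [h']
    · rw [h, map_neg, map_mul, hdn, neg_inj]
      constructor
      · exact mul_right_cancel₀ hd0
      · intro h'
        rw [h']
  have h7 : ∀ g ∈ {f : N → ZMod 2 | ∃ χ : Gal((maximalUnramifiedOutside K S)/K) → ZMod 2,
      IsLocallyConstant χ ∧
      (∀ g ∈ N, ∀ h ∈ N, χ (g * h) = χ g + χ h) ∧ ∀ n : N, f n = χ n},
      ∀ n : N, (n.1 (α g) = α g ↔ g n = 0) := by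
    intro g hg n
    constructor
    · intro h
      by_contra hcon
      have h8 := (hα g hg n).2 hcon
      rw [h] at h8
      exact hne _ (hα0 g hg) h8
    · exact (hα g hg n).1
  rw [← h7 f hf n, ← h7 f' hf' n]
  exact h6 n

end main

end Pool.Agent.Helper59
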