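import Pool.Agent.Helper59.Defs

open IsLocalRing
open scoped MatrixGroups

namespace Pool.Agent.Helper59

section

variable {G : Type*} [Group G] {F : Type*} [Field F] {n : ℕ}

lemma ad_mul (ρ : G →* GL (Fin n) F) (g h : G) (X : Matrix (Fin n) (Fin n) F) :
    ad ρ (g * h) X = ad ρ g (ad ρ h X) := by
  simp [ad, mul_assoc]

lemma ad_one (ρ : G →* GL (Fin n) F) (X : Matrix (Fin n) (Fin n) F) :
    ad ρ 1 X = X := by
  simp [ad]

lemma ad_of_eq_one (ρ : G →* GL (Fin n) F) {g : G} (hg : ρ g = 1) (X : Matrix (Fin n) (Fin n) F) :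
    ad ρ g X = X := by
  simp [ad, hg]

lemma ad_sum (ρ : G →* GL (Fin n) F) (g : G) {ι : Type*} (s : Finset ι)
    (X : ι → Matrix (Fin n) (Fin n) F) :
    ad ρ g (∑ i ∈ s, X i) = ∑ i ∈ s, ad ρ g (X i) := by
  simp [ad, Finset.mul_sum, Finset.sum_mul]

/-- conjugation by a fixed matrix -/
def conjGL (δ : GL (Fin n) F) (X : Matrix (Fin n) (Fin n) F) : Matrix (Fin n) (Fin n) F :=
  (δ : Matrix (Fin n) (Fin n) F) * X * ((δ⁻¹ : GL (Fin n) F) : Matrix (Fin n) (Fin n) F)

lemma ad_conjGL (ρ : G →* GL (Fin n) F) (g : G) (δ : GL (Fin n) F)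
    (X : Matrix (Fin n) (Fin n) F) : ad ρ g (conjGL δ X) = conjGL (ρ g * δ) X := by
  simp [ad, conjGL, mul_assoc]

variable [TopologicalSpace G]

/-- The data at a real place used in the argument: an involution `c` with `ρ c = 1` and a
function-valued 1-cocycle `u` with `u c` the indicator function of `1`. -/
structure RealData (ρ : G →* GL (Fin n) F) where
  /-- complex conjugation -/
  c : G
  /-- the cocycle -/
  u : G → GL (Fin n) F → F
  c_mul_c : c * c = 1
  map_c : ρ c = 1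
  u_mul : ∀ g h δ, u (g * h) δ = u g δ + u h ((ρ g)⁻¹ * δ)
  u_c_one : u c 1 = 1
  u_c : ∀ δ, δ ≠ 1 → u c δ = 0
  u_lc : IsLocallyConstant u

variable {ρ : G →* GL (Fin n) F}

lemma RealData.u_one (D : RealData ρ) (δ : GL (Fin n) F) : D.u 1 δ = 0 := by
  have := D.u_mul 1 1 δ
  simp only [mul_one, map_one, inv_one, one_mul] at this
  simpa using this

variable [Fintype (GL (Fin n) F)]

/-- The cocycle `z_X`. -/
noncomputable def RealData.zFun (D : RealData ρ) (X : Matrix (Fin n) (Fin n) F) (g h : G) :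
    Matrix (Fin n) (Fin n) F :=
  ∑ δ : GL (Fin n) F, (D.u g δ * D.u h ((ρ g)⁻¹ * δ)) • conjGL δ X

lemma RealData.zFun_cocycle (D : RealData ρ) (X : Matrix (Fin n) (Fin n) F) (g h k : G) :
    ad ρ g (D.zFun X h k) - D.zFun X (g * h) k + D.zFun X g (h * k) - D.zFun X g h = 0 := by
  have h1 : ad ρ g (D.zFun X h k) =
      ∑ δ : GL (Fin n) F, (D.u h ((ρ g)⁻¹ * δ) * D.u k ((ρ (g * h))⁻¹ * δ)) • conjGL δ X := by
    unfold RealData.zFun
    rw [ad_sum]
    rw [← Equiv.sum_comp (Equiv.mulLeft (ρ g))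
      (fun δ => (D.u h ((ρ g)⁻¹ * δ) * D.u k ((ρ (g * h))⁻¹ * δ)) • conjGL δ X)]
    apply Finset.sum_congr rfl
    intro δ _
    simp only [Equiv.coe_mulLeft, ad_smul, ad_conjGL, inv_mul_cancel_left, map_mul, mul_inv_rev,
      mul_assoc]
  rw [h1]
  unfold RealData.zFun
  rw [← Finset.sum_sub_distrib, ← Finset.sum_add_distrib, ← Finset.sum_sub_distrib]
  apply Finset.sum_eq_zero
  intro δ _
  rw [← sub_smul, ← add_smul, ← sub_smul]
  have : D.u h ((ρ g)⁻¹ * δ) * D.u k ((ρ (g * h))⁻¹ * δ) -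
      D.u (g * h) δ * D.u k ((ρ (g * h))⁻¹ * δ) + D.u g δ * D.u (h * k) ((ρ g)⁻¹ * δ) -
      D.u g δ * D.u h ((ρ g)⁻¹ * δ) = 0 := by
    rw [D.u_mul g h δ, D.u_mul h k]
    simp only [map_mul, mul_inv_rev, mul_assoc]
    ring
  rw [this, zero_smul]

lemma RealData.zFun_c_c (D : RealData ρ) (X : Matrix (Fin n) (Fin n) F) :
    D.zFun X D.c D.c = X := by
  classical
  unfold RealData.zFun
  rw [Finset.sum_eq_single 1]
  · simp [D.map_c, D.u_c_one, conjGL]
  · intro δ _ hδ
    simp [D.u_c δ hδ]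
  · intro hh; exact absurd (Finset.mem_univ _) hh

lemma RealData.zFun_one_one (D : RealData ρ) (X : Matrix (Fin n) (Fin n) F) :
    D.zFun X 1 1 = 0 := by
  unfold RealData.zFun
  apply Finset.sum_eq_zero
  intro δ _
  simp [D.u_one]

lemma RealData.zFun_add (D : RealData ρ) (X Y : Matrix (Fin n) (Fin n) F) (g h : G) :
    D.zFun (X + Y) g h = D.zFun X g h + D.zFun Y g h := by
  unfold RealData.zFun
  rw [← Finset.sum_add_distrib]
  apply Finset.sum_congr rfl
  intro δ _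
  rw [← smul_add]
  simp [conjGL, mul_add, add_mul]

lemma RealData.zFun_smul (D : RealData ρ) (a : F) (X : Matrix (Fin n) (Fin n) F) (g h : G) :
    D.zFun (a • X) g h = a • D.zFun X g h := by
  unfold RealData.zFun
  rw [Finset.smul_sum]
  apply Finset.sum_congr rfl
  intro δ _
  rw [smul_comm]
  simp [conjGL]

variable (hρ : IsLocallyConstant ρ)

/-- The cocycle `z_X` as a continuous cocycle -/
noncomputable def RealData.z (D : RealData ρ) (hρ : IsLocallyConstant ρ) :
    Matrix (Fin n) (Fin n) F →ₗ[F] Z2 ρ where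
  toFun X := ⟨⟨fun q => D.zFun X q.1 q.2, by
    have h1 : IsLocallyConstant (fun q : G × G => ((D.u q.1, ρ q.1), D.u q.2)) :=
      ((D.u_lc.prodMk hρ).comp_continuous continuous_fst).prodMk
        (D.u_lc.comp_continuous continuous_snd)
    exact h1.comp (fun w : ((GL (Fin n) F → F) × GL (Fin n) F) × (GL (Fin n) F → F) =>
      ∑ δ : GL (Fin n) F, (w.1.1 δ * w.2 (w.1.2⁻¹ * δ)) • conjGL δ X)⟩, fun g h k =>
        D.zFun_cocycle X g h k⟩
  map_add' X Y := Subtype.ext (LocallyConstant.ext fun q => D.zFun_add X Y q.1 q.2)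
  map_smul' a X := Subtype.ext (LocallyConstant.ext fun q => D.zFun_smul a X q.1 q.2)

lemma RealData.z_apply (D : RealData ρ) (X : Matrix (Fin n) (Fin n) F) (g h : G) :
    ((D.z hρ X : Z2 ρ) : C2 ρ) (g, h) = D.zFun X g h := rfl

end

section lam

variable {G : Type*} [Group G] {F : Type*} [Field F] [CharP F 2] {n : ℕ} [TopologicalSpace G]
  {ρ : G →* GL (Fin n) F}

/-- Coboundaries take equal values at `(c, c)` and `(1, 1)` when `c` is an involution in the
kernel of `ρ` (characteristic two). -/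
lemma coboundary_apply_c (f : C2 ρ) (hf : f ∈ B2 ρ) (c : G) (hc : c * c = 1) (hρc : ρ c = 1) :
    f (c, c) = f (1, 1) := by
  obtain ⟨φ, hφ⟩ := hf
  rw [hφ c c, hφ 1 1, hc, ad_of_eq_one ρ hρc, ad_one, mul_one]
  have h2 : ∀ x : Matrix (Fin n) (Fin n) F, x + x = 0 := by
    intro x
    ext i j
    exact CharTwo.add_self_eq_zero _
  have h3 : ∀ a b : Matrix (Fin n) (Fin n) F, a - b + a = a + a - b := by intros; abel
  rw [h3, h3, h2, h2, zero_sub]

end lam

end Pool.Agent.Helper59
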