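import Pool.Agent.Helper59.Obstruction

set_option linter.unusedSectionVars false

open IsLocalRing
open scoped MatrixGroups

namespace Pool.Agent.Helper59

section CoeffRing

variable {p : ℕ} [Fact p.Prime] {F : Type} [Field F]

lemma CoeffRing.residue_surjective (A : CoeffRing p F) : Function.Surjective A.residue := by
  intro x
  obtain ⟨w, hw⟩ := WittVector.constantCoeff_surjective p x
  exact ⟨algebraMap _ _ w, by rw [A.residue_algebraMap, hw]⟩

lemma CoeffRing.ker_residue (A : CoeffRing p F) :
    RingHom.ker A.residue = maximalIdeal A := by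
  have : (RingHom.ker A.residue).IsMaximal :=
    RingHom.ker_isMaximal_of_surjective _ A.residue_surjective
  exact IsLocalRing.eq_maximalIdeal this

lemma CoeffRing.residue_eq_zero_iff (A : CoeffRing p F) (x : A) :
    A.residue x = 0 ↔ x ∈ maximalIdeal A := by
  rw [← A.ker_residue, RingHom.mem_ker]

/-- every element is congruent to the image of a Witt vector -/
lemma CoeffRing.exists_witt (A : CoeffRing p F) (x : A) :
    ∃ w : WittVector p F, WittVector.constantCoeff w = A.residue x ∧
      x - algebraMap _ A w ∈ maximalIdeal A := by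
  obtain ⟨w, hw⟩ := WittVector.constantCoeff_surjective p (A.residue x)
  refine ⟨w, hw, ?_⟩
  rw [← A.residue_eq_zero_iff, map_sub, A.residue_algebraMap, hw, sub_self]

lemma CoeffRing.residue_comp {A B : CoeffRing p F} (φ : A →ₐ[WittVector p F] B)
    (hφ : IsLocalHom (φ : A →+* B)) (x : A) : B.residue (φ x) = A.residue x := by
  obtain ⟨w, hw, hx⟩ := A.exists_witt x
  have h1 : φ (x - algebraMap _ A w) ∈ maximalIdeal B := by
    rw [mem_maximalIdeal, mem_nonunits_iff]
    intro hu
    exact (mem_maximalIdeal _).1 hx (hφ.map_nonunit _ hu)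
  rw [← B.residue_eq_zero_iff, map_sub, map_sub, φ.commutes, B.residue_algebraMap, hw,
    sub_eq_zero] at h1
  exact h1

lemma CoeffRing.isLocalHom_of_residue {A B : CoeffRing p F} (φ : A →+* B)
    (h : ∀ x, B.residue (φ x) = A.residue x) : IsLocalHom φ := by
  refine ⟨fun a ha => ?_⟩
  by_contra hna
  have h1 : a ∈ maximalIdeal A := (mem_maximalIdeal a).2 hna
  rw [← A.residue_eq_zero_iff, ← h a, B.residue_eq_zero_iff] at h1
  exact (mem_maximalIdeal _).1 h1 ha

variable {h : ℕ}

/-- Quotients of power series rings over `F` as coefficient rings. -/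
noncomputable def quotCoeff (p : ℕ) [Fact p.Prime] (I : Ideal (PS F h))
    (hI : I ≤ maximalIdeal (PS F h)) : CoeffRing p F :=
  letI : IsLocalRing (PS F h ⧸ I) :=
    isLocalRing_quotient (ne_top_of_le_ne_top Ideal.IsPrime.ne_top' hI)
  { carrier := PS F h ⧸ I
    isAdicComplete := isAdicComplete_quotient
    algebra := ((Ideal.Quotient.mk I).comp
      ((MvPowerSeries.C : F →+* PS F h).comp WittVector.constantCoeff)).toAlgebra
    residue := Ideal.Quotient.lift I MvPowerSeries.constantCoeff
      (fun a ha => (mem_maximalIdeal_iff a).1 (hI ha))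
    residue_algebraMap := by
      intro w
      change Ideal.Quotient.lift I MvPowerSeries.constantCoeff _ (Ideal.Quotient.mk I
        (MvPowerSeries.C (WittVector.constantCoeff w))) = _
      rw [Ideal.Quotient.lift_mk, MvPowerSeries.constantCoeff_C] }

variable {I : Ideal (PS F h)} (hI : I ≤ maximalIdeal (PS F h))

lemma quotCoeff_algebraMap (w : WittVector p F) :
    algebraMap (WittVector p F) (quotCoeff p I hI) w =
      (Ideal.Quotient.mk I (MvPowerSeries.C (WittVector.constantCoeff w)) : PS F h ⧸ I) := rfl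

lemma quotCoeff_residue (x : PS F h) :
    (quotCoeff p I hI).residue (Ideal.Quotient.mk I x : PS F h ⧸ I) =
      MvPowerSeries.constantCoeff x := rfl

/-- the quotient map as a map to the coefficient ring -/
noncomputable def mkQ (p : ℕ) [Fact p.Prime] (I : Ideal (PS F h))
    (hI : I ≤ maximalIdeal (PS F h)) : PS F h →+* quotCoeff p I hI :=
  Ideal.Quotient.mk I

lemma mkQ_surjective : Function.Surjective (mkQ p I hI) := Ideal.Quotient.mk_surjective

lemma mkQ_eq_iff (x y : PS F h) : mkQ p I hI x = mkQ p I hI y ↔ x - y ∈ I :=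
  Ideal.Quotient.eq

lemma mkQ_eq_zero_iff (x : PS F h) : mkQ p I hI x = 0 ↔ x ∈ I :=
  Ideal.Quotient.eq_zero_iff_mem

lemma residue_mkQ (x : PS F h) :
    (quotCoeff p I hI).residue (mkQ p I hI x) = MvPowerSeries.constantCoeff x := rfl

end CoeffRing

section Rp

variable {p : ℕ} [Fact p.Prime] {F : Type} [Field F] [CharP F p] [Finite F]

lemma ringHom_eq_of_p_eq_zero {C : Type*} [CommRing C] (hC : (p : C) = 0)
    (f : WittVector p F →+* C) : ∃ g : F →+* C, ∀ w, f w = g (WittVector.constantCoeff w) := by
  have hker : ∀ x, x ∈ Ideal.span {(p : WittVector p F)} → f x = 0 := by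
    intro x hx
    obtain ⟨y, rfl⟩ := Ideal.mem_span_singleton'.1 hx
    rw [map_mul, map_natCast, hC, mul_zero]
  refine ⟨(Ideal.Quotient.lift _ f hker).comp (WittVector.quotientPEquiv.symm.toRingHom), ?_⟩
  intro w
  have : (WittVector.quotientPEquiv (p := p) (k := F)).symm (WittVector.constantCoeff w) =
      Ideal.Quotient.mk _ w := by
    rw [RingEquiv.symm_apply_eq]
    rfl
  rw [RingHom.comp_apply]
  change _ = (Ideal.Quotient.lift _ f hker)
    ((WittVector.quotientPEquiv (p := p) (k := F)).symm (WittVector.constantCoeff w))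
  rw [this, Ideal.Quotient.lift_mk]

variable (R : CoeffRing p F)

/-- `R / (p)` -/
abbrev Rp : Type := R ⧸ Ideal.span {(p : R)}

lemma natCast_p_mem : (p : R) ∈ maximalIdeal R := by
  rw [← R.residue_eq_zero_iff, map_natCast, CharP.cast_eq_zero]

lemma Rp_natCast : (p : Rp R) = 0 := by
  have : (p : Rp R) = Ideal.Quotient.mk _ (p : R) := by simp
  rw [this, Ideal.Quotient.eq_zero_iff_mem]
  exact Ideal.mem_span_singleton_self _

instance : IsLocalRing (Rp R) :=
  isLocalRing_quotient (ne_top_of_le_ne_top (Ideal.IsPrime.ne_top' (I := maximalIdeal R))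
    ((Ideal.span_singleton_le_iff_mem _).2 (natCast_p_mem R)))

instance : IsAdicComplete (maximalIdeal (Rp R)) (Rp R) := isAdicComplete_quotient

/-- the `F`-algebra structure of `R / p` -/
noncomputable def fToRp : F →+* Rp R :=
  (ringHom_eq_of_p_eq_zero (Rp_natCast R)
    ((Ideal.Quotient.mk (Ideal.span {(p : R)})).comp (algebraMap (WittVector p F) R))).choose

lemma fToRp_spec (w : WittVector p F) :
    Ideal.Quotient.mk (Ideal.span {(p : R)}) (algebraMap (WittVector p F) R w) =
      fToRp R (WittVector.constantCoeff w) :=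
  (ringHom_eq_of_p_eq_zero (Rp_natCast R)
    ((Ideal.Quotient.mk (Ideal.span {(p : R)})).comp (algebraMap (WittVector p F) R))).choose_spec w

noncomputable instance : Algebra F (Rp R) := (fToRp R).toAlgebra

lemma mk_mem_maximalIdeal_Rp_iff (x : R) :
    Ideal.Quotient.mk (Ideal.span {(p : R)}) x ∈ maximalIdeal (Rp R) ↔ x ∈ maximalIdeal R := by
  have hle : Ideal.span {(p : R)} ≤ maximalIdeal R :=
    (Ideal.span_singleton_le_iff_mem _).2 (natCast_p_mem R)
  rw [maximalIdeal_quotient]
  constructor
  · intro hx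
    have h1 : x ∈ ((maximalIdeal R).map (Ideal.Quotient.mk (Ideal.span {(p : R)}))).comap
        (Ideal.Quotient.mk (Ideal.span {(p : R)})) := hx
    rw [Ideal.comap_map_of_surjective _ Ideal.Quotient.mk_surjective,
      ← RingHom.ker_eq_comap_bot, Ideal.mk_ker, sup_eq_left.2 hle] at h1
    exact h1
  · intro hx
    exact Ideal.mem_map_of_mem _ hx

lemma Rp_residue (x : Rp R) : ∃ c : F, x - algebraMap F (Rp R) c ∈ maximalIdeal (Rp R) := by
  obtain ⟨y, rfl⟩ := Ideal.Quotient.mk_surjective x
  obtain ⟨w, hw, hy⟩ := R.exists_witt y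
  refine ⟨WittVector.constantCoeff w, ?_⟩
  have : algebraMap F (Rp R) (WittVector.constantCoeff w) =
      Ideal.Quotient.mk _ (algebraMap (WittVector p F) R w) := (fToRp_spec R w).symm
  rw [this, ← map_sub, mk_mem_maximalIdeal_Rp_iff]
  exact hy

end Rp

end Pool.Agent.Helper59
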