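import Mathlib

open IsLocalRing

namespace Pool.Agent.Helper59

lemma isLocalRing_quotient {R : Type*} [CommRing R] [IsLocalRing R] {I : Ideal R} (hI : I ≠ ⊤) :
    IsLocalRing (R ⧸ I) := by
  have : Nontrivial (R ⧸ I) := Ideal.Quotient.nontrivial_iff.mpr hI
  exact IsLocalRing.of_surjective' (Ideal.Quotient.mk I) Ideal.Quotient.mk_surjective

lemma maximalIdeal_quotient {R : Type*} [CommRing R] [IsLocalRing R] {I : Ideal R}
    [IsLocalRing (R ⧸ I)] :
    maximalIdeal (R ⧸ I) = (maximalIdeal R).map (Ideal.Quotient.mk I) := by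
  have hI : I ≠ ⊤ := by
    intro h
    have : Nontrivial (R ⧸ I) := inferInstance
    exact Ideal.Quotient.nontrivial_iff.mp this h
  have h1 : (maximalIdeal (R ⧸ I)).comap (Ideal.Quotient.mk I) = maximalIdeal R := by
    have : ((maximalIdeal (R ⧸ I)).comap (Ideal.Quotient.mk I)).IsMaximal :=
      Ideal.comap_isMaximal_of_surjective _ Ideal.Quotient.mk_surjective
    exact IsLocalRing.eq_maximalIdeal this
  rw [← h1, Ideal.map_comap_of_surjective _ Ideal.Quotient.mk_surjective]

lemma isAdicComplete_quotient {R : Type*} [CommRing R] [IsLocalRing R] [IsNoetherianRing R]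
    [IsAdicComplete (maximalIdeal R) R] {I : Ideal R} [IsLocalRing (R ⧸ I)] :
    IsAdicComplete (maximalIdeal (R ⧸ I)) (R ⧸ I) := by
  have h1 : IsPrecomplete (maximalIdeal R) (R ⧸ I) := by
    rw [← AdicCompletion.of_surjective_iff]
    have hsurj : Function.Surjective
        (AdicCompletion.map (maximalIdeal R) (Submodule.mkQ (I : Submodule R R))) :=
      AdicCompletion.map_surjective _ (Submodule.mkQ_surjective _)
    have h2 : Function.Surjective (AdicCompletion.of (maximalIdeal R) R) :=
      AdicCompletion.of_surjective _ _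
    intro y
    obtain ⟨x, rfl⟩ := hsurj y
    obtain ⟨r, rfl⟩ := h2 x
    exact ⟨Submodule.mkQ (I : Submodule R R) r, by
      rw [AdicCompletion.map_of]⟩
  have h3 : IsPrecomplete (maximalIdeal (R ⧸ I)) (R ⧸ I) := by
    rw [maximalIdeal_quotient]
    exact IsPrecomplete.map_algebraMap_iff.2 h1
  exact { toIsHausdorff := inferInstance, toIsPrecomplete := h3 }

end Pool.Agent.Helper59
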