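import Pool.Agent.Helper59.Example

open Topology ComplexConjugate Equiv

namespace Pool.Agent.Helper59

/-- Complex conjugation on the algebraic closure of a field with a real embedding. -/
lemma exists_complex_conj (K : Type) [Field K] [Algebra K ℝ] :
    ∃ (ι : AlgebraicClosure K →+* ℂ) (c : Gal(AlgebraicClosure K/K)),
    ∀ x, ι (c x) = conj (ι x) := by
  let ι : AlgebraicClosure K →ₐ[K] ℂ := IsAlgClosed.lift
  let _ : Algebra (AlgebraicClosure K) ℂ := ι.toRingHom.toAlgebra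
  have _ : IsScalarTower K (AlgebraicClosure K) ℂ :=
    IsScalarTower.of_algebraMap_eq fun x => (ι.commutes x).symm
  let cc : Gal(ℂ/K) := Complex.conjAe.restrictScalars K
  refine ⟨ι, cc.restrictNormal (AlgebraicClosure K), fun x => ?_⟩
  have := AlgEquiv.restrictNormal_commutes cc (AlgebraicClosure K) x
  exact this

lemma no_rat_root (q : ℚ) : q ^ 3 - 4 * q + 2 ≠ 0 := by
  intro h
  have hint : IsIntegral ℤ q := by
    refine ⟨Polynomial.X ^ 3 - 4 * Polynomial.X + 2, ?_, ?_⟩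
    · monicity!
    · simpa using h
  obtain ⟨m, rfl⟩ := IsIntegrallyClosed.isIntegral_iff.1 hint
  have h' : m ^ 3 - 4 * m + 2 = 0 := by
    have : ((m ^ 3 - 4 * m + 2 : ℤ) : ℚ) = 0 := by
      push_cast
      simpa using h
    exact_mod_cast this
  have h2 : Even m := by
    by_contra hodd
    rw [Int.not_even_iff_odd] at hodd
    obtain ⟨k, rfl⟩ := hodd
    ring_nf at h'
    omega
  obtain ⟨k, rfl⟩ := h2
  ring_nf at h'
  omega

lemma no_rat_sqrt (q : ℚ) : q ^ 2 ≠ 148 := by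
  intro h
  have hsq : IsSquare ((148 : ℕ) : ℚ) := ⟨q, by push_cast; rw [← h]; ring⟩
  rw [Rat.isSquare_natCast_iff] at hsq
  obtain ⟨r, hr⟩ := hsq
  have h1 : r ≤ 12 := by nlinarith
  interval_cases r <;> omega

section

variable {K : Type} [Field K] [CharZero K] (x0 x1 : AlgebraicClosure K)

/-- the roots of `X³ - 4X + 2` -/
noncomputable def roots3 (i : Fin 3) : AlgebraicClosure K := ![x0, x1, -x0 - x1] i

variable {x0 x1} (h0 : x0 ^ 3 - 4 * x0 + 2 = 0) (h1 : x0 ^ 2 + x0 * x1 + x1 ^ 2 = 4)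

include h0 h1

lemma roots3_factor (z : AlgebraicClosure K) :
    z ^ 3 - 4 * z + 2 = (z - roots3 x0 x1 0) * (z - roots3 x0 x1 1) * (z - roots3 x0 x1 2) := by
  change _ = (z - x0) * (z - x1) * (z - (-x0 - x1))
  linear_combination h0 + (z - x0) * h1

lemma roots3_root (i : Fin 3) : (roots3 x0 x1 i) ^ 3 - 4 * (roots3 x0 x1 i) + 2 = 0 := by
  rw [roots3_factor h0 h1]
  fin_cases i <;> simp

lemma roots3_disc : ((roots3 x0 x1 0 - roots3 x0 x1 1) * (roots3 x0 x1 0 - roots3 x0 x1 2) *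
    (roots3 x0 x1 1 - roots3 x0 x1 2)) ^ 2 = 148 := by
  change ((x0 - x1) * (x0 - (-x0 - x1)) * (x1 - (-x0 - x1))) ^ 2 = 148
  have h2 : x0 * x1 * (x0 + x1) = 2 := by linear_combination x0 * h1 - h0
  have h3 : ((x0 - x1) * (x0 - (-x0 - x1)) * (x1 - (-x0 - x1))) ^ 2 =
      4 * (x0 ^ 2 + x0 * x1 + x1 ^ 2) ^ 3 - 27 * (x0 * x1 * (x0 + x1)) ^ 2 := by ring
  rw [h3, h1, h2]
  norm_num

lemma roots3_injective : Function.Injective (roots3 x0 x1) := by
  have hd := roots3_disc h0 h1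
  have hne : (roots3 x0 x1 0 - roots3 x0 x1 1) * (roots3 x0 x1 0 - roots3 x0 x1 2) *
    (roots3 x0 x1 1 - roots3 x0 x1 2) ≠ 0 := by
    intro h
    rw [h] at hd
    norm_num at hd
  have h01 : roots3 x0 x1 0 ≠ roots3 x0 x1 1 := by
    intro h; apply hne; rw [h]; ring
  have h02 : roots3 x0 x1 0 ≠ roots3 x0 x1 2 := by
    intro h; apply hne; rw [h]; ring
  have h12 : roots3 x0 x1 1 ≠ roots3 x0 x1 2 := by
    intro h; apply hne; rw [h]; ring
  intro i j hij
  fin_cases i <;> fin_cases j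
  · rfl
  · exact absurd hij h01
  · exact absurd hij h02
  · exact absurd hij.symm h01
  · rfl
  · exact absurd hij h12
  · exact absurd hij.symm h02
  · exact absurd hij.symm h12
  · rfl

lemma exists_index (g : Gal(AlgebraicClosure K/K)) (i : Fin 3) :
    ∃ j, g (roots3 x0 x1 i) = roots3 x0 x1 j := by
  have h := congrArg g (roots3_root h0 h1 i)
  have h' : (g (roots3 x0 x1 i)) ^ 3 - 4 * (g (roots3 x0 x1 i)) + 2 = 0 := by
    simpa [map_ofNat] using h
  rw [roots3_factor h0 h1, mul_eq_zero, mul_eq_zero, sub_eq_zero, sub_eq_zero, sub_eq_zero] at h'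
  rcases h' with (h' | h') | h'
  · exact ⟨0, h'⟩
  · exact ⟨1, h'⟩
  · exact ⟨2, h'⟩

lemma exists_permHom : ∃ π : Gal(AlgebraicClosure K/K) →* Perm (Fin 3),
    ∀ g i, g (roots3 x0 x1 i) = roots3 x0 x1 (π g i) := by
  have hinj := roots3_injective h0 h1
  choose p hp using fun g i => exists_index h0 h1 g i
  have hmul : ∀ g h i, p (g * h) i = p g (p h i) := by
    intro g h i
    apply hinj
    rw [← hp, ← hp, ← hp]
    rfl
  have hone : ∀ i, p 1 i = i := by
    intro i
    apply hinj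
    rw [← hp]
    rfl
  refine ⟨MonoidHom.mk' (fun g => ⟨p g, p g⁻¹, fun i => ?_, fun i => ?_⟩) ?_, ?_⟩
  · rw [← hmul, inv_mul_cancel, hone]
  · rw [← hmul, mul_inv_cancel, hone]
  · intro g h
    ext i
    change ((p (g * h) i : Fin 3) : ℕ) = (p g (p h i) : Fin 3)
    rw [hmul]
  · intro g i
    exact hp g i

end

/-- The three real roots. -/
lemma exists_real_roots : ∃ y0 y1 y2 : ℝ, y0 < y1 ∧ y1 < y2 ∧ y0 ^ 3 - 4 * y0 + 2 = 0 ∧
    y1 ^ 3 - 4 * y1 + 2 = 0 ∧ y2 ^ 3 - 4 * y2 + 2 = 0 := by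
  have hc : ∀ s : Set ℝ, ContinuousOn (fun y : ℝ => y ^ 3 - 4 * y + 2) s := fun s => by fun_prop
  have hc' : ∀ s : Set ℝ, ContinuousOn (fun y : ℝ => -(y ^ 3 - 4 * y + 2)) s :=
    fun s => by fun_prop
  obtain ⟨y0, hy0, h0⟩ := intermediate_value_Icc (show (-3 : ℝ) ≤ 0 by norm_num) (hc _)
    (show (0 : ℝ) ∈ _ by constructor <;> norm_num)
  obtain ⟨y1, hy1, h1⟩ := intermediate_value_Icc (show (0 : ℝ) ≤ 1 by norm_num) (hc' _)
    (show (0 : ℝ) ∈ _ by constructor <;> norm_num)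
  obtain ⟨y2, hy2, h2⟩ := intermediate_value_Icc (show (1 : ℝ) ≤ 2 by norm_num) (hc _)
    (show (0 : ℝ) ∈ _ by constructor <;> norm_num)
  simp only at h0 h1 h2
  have h1' : y1 ^ 3 - 4 * y1 + 2 = 0 := by linarith
  refine ⟨y0, y1, y2, ?_, ?_, h0, h1', h2⟩
  · rcases lt_or_eq_of_le (hy0.2.trans hy1.1) with h | h
    · exact h
    · have e : y1 = 0 := le_antisymm (h ▸ hy0.2) hy1.1
      rw [e] at h1'
      norm_num at h1'
  · rcases lt_or_eq_of_le (hy1.2.trans hy2.1) with h | h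
    · exact h
    · have e : y1 = 1 := le_antisymm hy1.2 (h ▸ hy2.1)
      rw [e] at h1'
      norm_num at h1'

lemma root_real (z : ℂ) (hz : z ^ 3 - 4 * z + 2 = 0) : conj z = z := by
  obtain ⟨y0, y1, y2, h01, h12, h0, h1, h2⟩ := exists_real_roots
  have e1 : y0 ^ 2 + y0 * y1 + y1 ^ 2 = 4 := by
    have : (y0 - y1) * (y0 ^ 2 + y0 * y1 + y1 ^ 2 - 4) = 0 := by linear_combination h0 - h1
    rcases mul_eq_zero.1 this with h | h
    · linarith
    · linarith
  have e2 : y0 ^ 2 + y0 * y2 + y2 ^ 2 = 4 := by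
    have : (y0 - y2) * (y0 ^ 2 + y0 * y2 + y2 ^ 2 - 4) = 0 := by linear_combination h0 - h2
    rcases mul_eq_zero.1 this with h | h
    · linarith
    · linarith
  have e3 : y0 + y1 + y2 = 0 := by
    have : (y1 - y2) * (y0 + y1 + y2) = 0 := by linear_combination e1 - e2
    rcases mul_eq_zero.1 this with h | h
    · linarith
    · linarith
  have h0' : (y0 : ℂ) ^ 3 - 4 * y0 + 2 = 0 := by exact_mod_cast h0
  have e1' : (y0 : ℂ) ^ 2 + y0 * y1 + y1 ^ 2 = 4 := by exact_mod_cast e1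
  have e3' : (y0 : ℂ) + y1 + y2 = 0 := by exact_mod_cast e3
  have hf : (z - y0) * (z - y1) * (z - y2) = 0 := by
    have : (y2 : ℂ) = -y0 - y1 := by linear_combination e3'
    rw [this]
    linear_combination hz - h0' - (z - y0) * e1'
  rcases mul_eq_zero.1 hf with hf | hf
  · rcases mul_eq_zero.1 hf with hf | hf
    · rw [sub_eq_zero.1 hf, Complex.conj_ofReal]
    · rw [sub_eq_zero.1 hf, Complex.conj_ofReal]
  · rw [sub_eq_zero.1 hf, Complex.conj_ofReal]

/-- The residual representation of the counterexample. -/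
theorem exists_example (K : Type) [Field K] [CharZero K] [Algebra K ℝ]
    (hroot : ∀ q : K, q ^ 3 - 4 * q + 2 ≠ 0) (hsqrt : ∀ q : K, q ^ 2 ≠ 148) : ∃ (ρ : Gal(AlgebraicClosure K/K) →* GL (Fin 2) (ZMod 2))
    (ι : AlgebraicClosure K →+* ℂ) (c : Gal(AlgebraicClosure K/K)),
    IsLocallyConstant ρ ∧ (∀ x, ι (c x) = conj (ι x)) ∧ ρ c = 1 ∧
    ∀ σ, ∃ g, ρ g = permGL σ := by
  obtain ⟨ι, c, hc⟩ := exists_complex_conj K
  obtain ⟨x0, h0⟩ : ∃ x0 : AlgebraicClosure K, x0 ^ 3 - 4 * x0 + 2 = 0 := by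
    obtain ⟨x, hx⟩ := IsAlgClosed.exists_aeval_eq_zero (AlgebraicClosure K)
      (Polynomial.X ^ 3 - 4 * Polynomial.X + 2 : Polynomial K) (by
        have : (Polynomial.X ^ 3 - 4 * Polynomial.X + 2 : Polynomial K).degree = 3 := by
          compute_degree!
        rw [this]; norm_num)
    exact ⟨x, by simpa [map_ofNat] using hx⟩
  obtain ⟨x1, h1⟩ : ∃ x1 : AlgebraicClosure K, x0 ^ 2 + x0 * x1 + x1 ^ 2 = 4 := by
    obtain ⟨x, hx⟩ := IsAlgClosed.exists_aeval_eq_zero (AlgebraicClosure K)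
      (Polynomial.X ^ 2 + Polynomial.C x0 * Polynomial.X + Polynomial.C (x0 ^ 2 - 4) :
        Polynomial (AlgebraicClosure K)) (by
        have : (Polynomial.X ^ 2 + Polynomial.C x0 * Polynomial.X + Polynomial.C (x0 ^ 2 - 4) :
            Polynomial (AlgebraicClosure K)).degree = 2 := by
          compute_degree!
        rw [this]; norm_num)
    refine ⟨x, ?_⟩
    simp at hx
    linear_combination hx
  obtain ⟨π, hπ⟩ := exists_permHom h0 h1
  have hinj := roots3_injective h0 h1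
  refine ⟨permGL.comp π, ι, c, ?_, hc, ?_, ?_⟩
  · rw [IsLocallyConstant.iff_eventually_eq]
    intro g0
    have h2 := (IsLocallyConstant.iff_eventually_eq _).1
      (isLocallyConstant_apply_pi (K := K) (roots3 x0 x1)) g0
    filter_upwards [h2] with g hg
    have : π g = π g0 := by
      ext i
      have h3 := congrFun hg i
      rw [hπ, hπ] at h3
      rw [hinj h3]
    rw [MonoidHom.comp_apply, MonoidHom.comp_apply, this]
  · have : π c = 1 := by
      ext i
      have h2 : c (roots3 x0 x1 i) = roots3 x0 x1 i := by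
        apply ι.injective
        rw [hc]
        apply root_real
        have := congrArg ι (roots3_root h0 h1 i)
        simpa [map_ofNat] using this
      rw [hπ] at h2
      rw [hinj h2]
      rfl
    rw [MonoidHom.comp_apply, this, map_one]
  · -- surjectivity
    have hrange : π.range = ⊤ := by
      set δ := (roots3 x0 x1 0 - roots3 x0 x1 1) * (roots3 x0 x1 0 - roots3 x0 x1 2) *
        (roots3 x0 x1 1 - roots3 x0 x1 2) with hδ
      have hδ2 : δ ^ 2 = 148 := roots3_disc h0 h1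
      obtain ⟨g, hg⟩ : ∃ g : Gal(AlgebraicClosure K/K), g δ ≠ δ := by
        by_contra hcon
        push Not at hcon
        obtain ⟨q, hq⟩ := (InfiniteGalois.mem_range_algebraMap_iff_fixed δ).2 hcon
        apply hsqrt q
        rw [← hq] at hδ2
        apply (algebraMap K (AlgebraicClosure K)).injective
        rw [map_pow, hδ2]
        simp [map_ofNat]
      have hsign : Perm.sign (π g) = -1 := by
        rcases Int.units_eq_one_or (Perm.sign (π g)) with h | h
        · exfalso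
          apply hg
          have key : ∀ σ : Perm (Fin 3), Perm.sign σ = 1 →
              (σ 0 = 0 ∧ σ 1 = 1 ∧ σ 2 = 2) ∨ (σ 0 = 1 ∧ σ 1 = 2 ∧ σ 2 = 0) ∨
              (σ 0 = 2 ∧ σ 1 = 0 ∧ σ 2 = 1) := by decide
          rw [hδ, map_mul, map_mul, map_sub, map_sub, map_sub, hπ, hπ, hπ]
          rcases key _ h with ⟨a, b, c⟩ | ⟨a, b, c⟩ | ⟨a, b, c⟩ <;> rw [a, b, c] <;> ring
        · exact h
      refine perm_gen π.range (π g) ⟨g, rfl⟩ hsign ?_
      intro i
      obtain ⟨τ, hτ⟩ : ∃ g : Gal(AlgebraicClosure K/K), g (roots3 x0 x1 i) ≠ roots3 x0 x1 i := by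
        by_contra hcon
        push Not at hcon
        obtain ⟨q, hq⟩ := (InfiniteGalois.mem_range_algebraMap_iff_fixed _).2 hcon
        apply hroot q
        have h3 := roots3_root h0 h1 i
        rw [← hq] at h3
        apply (algebraMap K (AlgebraicClosure K)).injective
        simpa [map_ofNat] using h3
      refine ⟨π τ, ⟨τ, rfl⟩, fun h => hτ ?_⟩
      rw [hπ, h]
    intro σ
    obtain ⟨g, hg⟩ : σ ∈ π.range := by rw [hrange]; trivial
    exact ⟨g, by rw [MonoidHom.comp_apply, hg]⟩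

end Pool.Agent.Helper59
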