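import Pool.Agent.Helper59.General
import Pool.Agent.Helper59.Cubic

open NumberField IsDedekindDomain

namespace Pool.Agent.Helper59

/-- `h¹` is finite as soon as a universal deformation exists. -/
theorem h1_ne_top {G : Type} [Group G] [TopologicalSpace G] [IsTopologicalGroup G] {p : ℕ}
    [Fact p.Prime] {F : Type} [Field F] [CharP F p] [Finite F] {n : ℕ} {ρ : G →* GL (Fin n) F}
    (hρ : IsLocallyConstant ρ) (R : CoeffRing p F) {ρu : G →* GL (Fin n) R}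
    (hu : IsUniversalDeformation ρ R ρu) : h1 ρ ≠ ⊤ := by
  obtain ⟨h, θ, hθ, hθcc, hθC, -, -⟩ := exists_presentation (k := F) (A := Rp R) (Rp_residue R)
  exact ne_top_of_le_ne_top (ENat.coe_ne_top h) (h1_le hρ R hu θ hθ hθC hθcc)

instance (K : Type) [Field K] [NumberField K] (T : Set (HeightOneSpectrum (𝓞 K))) :
    IsTopologicalGroup (GaloisGroupOutside K T) :=
  inferInstanceAs (IsTopologicalGroup Gal((maximalUnramifiedOutside K T)/K))

theorem exists_residual : ∃ T₀ : Set (HeightOneSpectrum (𝓞 ℚ)), T₀.Finite ∧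
    (∀ v : HeightOneSpectrum (𝓞 ℚ), (2 : 𝓞 ℚ) ∈ v.asIdeal → v ∈ T₀) ∧
    ∀ T, T₀ ⊆ T → ∃ ρbar : GaloisGroupOutside ℚ T →* GL (Fin 2) (ZMod 2),
      IsLocallyConstant ρbar ∧ (∀ σ, ∃ g, ρbar g = permGL σ) ∧ AbsolutelyIrreducible ρbar ∧
      Nonempty (RealData ρbar) := by
  obtain ⟨ρ, ι, c, hρ, hc, hρc, hsurj⟩ := exists_example ℚ no_rat_root no_rat_sqrt
  obtain ⟨T₀, hfin, h2, hT⟩ := exists_finite_set ρ hρ ι c hc hρc
  refine ⟨T₀, hfin, h2, fun T hTT => ?_⟩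
  obtain ⟨ρT, hres, hlc, hD⟩ := hT T hTT
  have hs : ∀ σ, ∃ g, ρT g = permGL σ := by
    intro σ
    obtain ⟨g, hg⟩ := hsurj σ
    exact ⟨resT ℚ T g, by rw [hres, hg]⟩
  exact ⟨ρT, hlc, hs, absolutelyIrreducible_of_surjective ρT hs, hD⟩

end Pool.Agent.Helper59
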