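import Pool.Agent.Helper59.Coeff

set_option linter.unusedSectionVars false

open IsLocalRing
open scoped MatrixGroups

namespace Pool.Agent.Helper59

section Aux

variable {G : Type*} [Group G] {n : ℕ}

/-- A multiplicative function with invertible value at `1` is a homomorphism to `GL_n`. -/
noncomputable def homOfMul {B : Type*} [CommRing B] (τ : G → Matrix (Fin n) (Fin n) B)
    (hmul : ∀ g k, τ (g * k) = τ g * τ k) (hunit : IsUnit (τ 1)) : G →* GL (Fin n) B :=
  MonoidHom.toHomUnits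
    { toFun := τ
      map_one' := by
        have h1 := hmul 1 1
        rw [mul_one] at h1
        have h2 : τ 1 * 1 = τ 1 * τ 1 := by rw [mul_one]; exact h1
        exact (hunit.mul_left_cancel h2).symm
      map_mul' := hmul }

lemma coe_homOfMul {B : Type*} [CommRing B] (τ : G → Matrix (Fin n) (Fin n) B)
    (hmul : ∀ g k, τ (g * k) = τ g * τ k) (hunit : IsUnit (τ 1)) (g : G) :
    (homOfMul τ hmul hunit g : Matrix (Fin n) (Fin n) B) = τ g := rfl

variable {p : ℕ} [Fact p.Prime] {F : Type} [Field F]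

lemma isUnit_of_residue (B : CoeffRing p F) (M : Matrix (Fin n) (Fin n) B)
    (hM : IsUnit (M.map B.residue)) : IsUnit M := by
  rw [Matrix.isUnit_iff_isUnit_det] at hM ⊢
  have h1 : (M.map B.residue).det = B.residue M.det := by
    rw [RingHom.map_det]; rfl
  rw [h1] at hM
  by_contra hne
  have : M.det ∈ maximalIdeal B := (mem_maximalIdeal _).2 hne
  rw [← B.residue_eq_zero_iff] at this
  rw [this] at hM
  exact not_isUnit_zero hM

end Aux

section Can

variable {p : ℕ} [Fact p.Prime] {F : Type} [Field F] [CharP F p] [Finite F] {h n : ℕ}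
  {R : CoeffRing p F}

/-- the map `R / p → P / J'` -/
noncomputable def kap (θ : PS F h →+* Rp R) (hθ : Function.Surjective θ) {J' : Ideal (PS F h)}
    (hJ : RingHom.ker θ ≤ J') : Rp R →+* PS F h ⧸ J' :=
  (Ideal.Quotient.factor hJ).comp ((RingHom.quotientKerEquivOfSurjective hθ).symm.toRingHom)

lemma kap_apply (θ : PS F h →+* Rp R) (hθ : Function.Surjective θ) {J' : Ideal (PS F h)}
    (hJ : RingHom.ker θ ≤ J') (x : PS F h) : kap θ hθ hJ (θ x) = Ideal.Quotient.mk J' x := by
  have h1 : (RingHom.quotientKerEquivOfSurjective hθ).symm (θ x) =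
      Ideal.Quotient.mk (RingHom.ker θ) x := by
    rw [RingEquiv.symm_apply_eq]
    rfl
  unfold kap
  rw [RingHom.comp_apply]
  change Ideal.Quotient.factor hJ ((RingHom.quotientKerEquivOfSurjective hθ).symm (θ x)) = _
  rw [h1, Ideal.Quotient.factor_mk]

/-- the map `R → P / J'` -/
noncomputable def can (θ : PS F h →+* Rp R) (hθ : Function.Surjective θ) {J' : Ideal (PS F h)}
    (hJ : RingHom.ker θ ≤ J') : R →+* PS F h ⧸ J' :=
  (kap θ hθ hJ).comp (Ideal.Quotient.mk (Ideal.span {(p : R)}))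

lemma can_apply_of_eq (θ : PS F h →+* Rp R) (hθ : Function.Surjective θ) {J' : Ideal (PS F h)}
    (hJ : RingHom.ker θ ≤ J') (y : R) (x : PS F h) (hx : θ x = Ideal.Quotient.mk _ y) :
    can θ hθ hJ y = Ideal.Quotient.mk J' x := by
  unfold can
  rw [RingHom.comp_apply, ← hx, kap_apply]

lemma can_surjective (θ : PS F h →+* Rp R) (hθ : Function.Surjective θ) {J' : Ideal (PS F h)}
    (hJ : RingHom.ker θ ≤ J') : Function.Surjective (can θ hθ hJ) := by
  intro z
  obtain ⟨x, rfl⟩ := Ideal.Quotient.mk_surjective z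
  obtain ⟨y, hy⟩ := Ideal.Quotient.mk_surjective (θ x)
  exact ⟨y, can_apply_of_eq θ hθ hJ y x hy.symm⟩

/-- the map `R → P / J'` as a morphism of coefficient rings -/
noncomputable def canAlg (θ : PS F h →+* Rp R) (hθ : Function.Surjective θ)
    (hθC : ∀ c, θ (MvPowerSeries.C c) = algebraMap F (Rp R) c) {J' : Ideal (PS F h)}
    (hJ : RingHom.ker θ ≤ J') (hJm : J' ≤ maximalIdeal (PS F h)) :
    R →ₐ[WittVector p F] (quotCoeff p J' hJm) :=
  { can θ hθ hJ with
    commutes' := by
      intro w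
      apply can_apply_of_eq θ hθ hJ
      rw [RingHom.comp_apply, hθC]
      exact (fToRp_spec R w).symm }

lemma canAlg_apply (θ : PS F h →+* Rp R) (hθ : Function.Surjective θ)
    (hθC : ∀ c, θ (MvPowerSeries.C c) = algebraMap F (Rp R) c) {J' : Ideal (PS F h)}
    (hJ : RingHom.ker θ ≤ J') (hJm : J' ≤ maximalIdeal (PS F h)) (y : R) :
    canAlg θ hθ hθC hJ hJm y = can θ hθ hJ y := rfl

lemma isLocalHom_canAlg (θ : PS F h →+* Rp R) (hθ : Function.Surjective θ)
    (hθC : ∀ c, θ (MvPowerSeries.C c) = algebraMap F (Rp R) c) {J' : Ideal (PS F h)}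
    (hJ : RingHom.ker θ ≤ J') (hJm : J' ≤ maximalIdeal (PS F h)) :
    IsLocalHom ((canAlg θ hθ hθC hJ hJm : R →ₐ[WittVector p F] (quotCoeff p J' hJm)) :
      R →+* (quotCoeff p J' hJm)) :=
  IsLocalHom.of_surjective _ (can_surjective θ hθ hJ)

/-- the map `P / c → P / J'` as a morphism of coefficient rings -/
noncomputable def facAlg {c J' : Ideal (PS F h)} (hcJ : c ≤ J')
    (hc : c ≤ maximalIdeal (PS F h)) (hJm : J' ≤ maximalIdeal (PS F h)) :
    (quotCoeff p c hc) →ₐ[WittVector p F] (quotCoeff p J' hJm) :=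
  { Ideal.Quotient.factor hcJ with
    commutes' := by
      intro w
      exact Ideal.Quotient.factor_mk hcJ _ }

lemma facAlg_mkQ {c J' : Ideal (PS F h)} (hcJ : c ≤ J')
    (hc : c ≤ maximalIdeal (PS F h)) (hJm : J' ≤ maximalIdeal (PS F h)) (x : PS F h) :
    facAlg (p := p) hcJ hc hJm (mkQ p c hc x) = mkQ p J' hJm x :=
  Ideal.Quotient.factor_mk hcJ x

lemma isLocalHom_facAlg {c J' : Ideal (PS F h)} (hcJ : c ≤ J')
    (hc : c ≤ maximalIdeal (PS F h)) (hJm : J' ≤ maximalIdeal (PS F h)) :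
    IsLocalHom ((facAlg (p := p) hcJ hc hJm : (quotCoeff p c hc) →ₐ[WittVector p F]
      (quotCoeff p J' hJm)) : (quotCoeff p c hc) →+* (quotCoeff p J' hJm)) :=
  IsLocalHom.of_surjective _ (Ideal.Quotient.factor_surjective hcJ)

lemma can_residue (θ : PS F h →+* Rp R) (hθ : Function.Surjective θ)
    (hθC : ∀ c, θ (MvPowerSeries.C c) = algebraMap F (Rp R) c) {J' : Ideal (PS F h)}
    (hJ : RingHom.ker θ ≤ J') (hJm : J' ≤ maximalIdeal (PS F h)) (y : R) (x : PS F h)
    (hx : can θ hθ hJ y = Ideal.Quotient.mk J' x) :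
    MvPowerSeries.constantCoeff x = R.residue y := by
  rw [← CoeffRing.residue_comp (canAlg θ hθ hθC hJ hJm) (isLocalHom_canAlg θ hθ hθC hJ hJm) y,
    canAlg_apply, hx]
  rfl

end Can

end Pool.Agent.Helper59
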