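import Mathlib

open IsLocalRing NumberField IsDedekindDomain

open scoped MatrixGroups

namespace Pool.Agent.Helper59

/-! ## Continuous cohomology of the adjoint representation

`G` is a topological group, `F` a field and `ρ : G → GL_n(F)` a homomorphism.  The coefficients
`M_n(F)` carry the discrete topology, so the continuous cochains are the locally constant ones. -/

section Cohomology

variable {G : Type*} [Group G] {F : Type*} [Field F] {n : ℕ}

/-- The adjoint action of `g` on `M_n(F)`: `X ↦ ρ(g) X ρ(g)⁻¹`. -/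
def ad (ρ : G →* GL (Fin n) F) (g : G) (X : Matrix (Fin n) (Fin n) F) :
    Matrix (Fin n) (Fin n) F :=
  (ρ g : Matrix (Fin n) (Fin n) F) * X * (((ρ g)⁻¹ : GL (Fin n) F) : Matrix (Fin n) (Fin n) F)

lemma ad_add (ρ : G →* GL (Fin n) F) (g : G) (X Y : Matrix (Fin n) (Fin n) F) :
    ad ρ g (X + Y) = ad ρ g X + ad ρ g Y := by
  simp [ad, mul_add, add_mul]

lemma ad_smul (ρ : G →* GL (Fin n) F) (g : G) (c : F) (X : Matrix (Fin n) (Fin n) F) :
    ad ρ g (c • X) = c • ad ρ g X := by
  simp [ad]

lemma ad_zero (ρ : G →* GL (Fin n) F) (g : G) : ad ρ g 0 = 0 := by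
  simp [ad]

lemma ad_neg (ρ : G →* GL (Fin n) F) (g : G) (X : Matrix (Fin n) (Fin n) F) :
    ad ρ g (-X) = -ad ρ g X := by
  simp [ad]

lemma ad_sub (ρ : G →* GL (Fin n) F) (g : G) (X Y : Matrix (Fin n) (Fin n) F) :
    ad ρ g (X - Y) = ad ρ g X - ad ρ g Y := by
  simp [ad, mul_sub, sub_mul]

variable [TopologicalSpace G]

/-- Continuous `1`-cochains with values in `ad ρ = M_n(F)`. -/
abbrev C1 (_ρ : G →* GL (Fin n) F) : Type _ := LocallyConstant G (Matrix (Fin n) (Fin n) F)

/-- Continuous `2`-cochains with values in `ad ρ = M_n(F)`. -/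
abbrev C2 (_ρ : G →* GL (Fin n) F) : Type _ :=
  LocallyConstant (G × G) (Matrix (Fin n) (Fin n) F)

/-- Continuous `1`-cocycles: `φ(gh) = φ(g) + g·φ(h)`. -/
def Z1 (ρ : G →* GL (Fin n) F) : Submodule F (C1 ρ) where
  carrier := {φ | ∀ g h, φ (g * h) = φ g + ad ρ g (φ h)}
  add_mem' := by
    intro a b ha hb g h
    simp only [LocallyConstant.coe_add, Pi.add_apply, ha g h, hb g h, ad_add]
    abel
  zero_mem' := by
    intro g h
    simp [ad_zero]
  smul_mem' := by
    intro c a ha g h
    simp only [LocallyConstant.coe_smul, Pi.smul_apply, ha g h, ad_smul, smul_add]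

/-- `1`-coboundaries: `φ(g) = g·X - X`. -/
def B1 (ρ : G →* GL (Fin n) F) : Submodule F (C1 ρ) where
  carrier := {φ | ∃ X : Matrix (Fin n) (Fin n) F, ∀ g, φ g = ad ρ g X - X}
  add_mem' := by
    rintro a b ⟨X, hX⟩ ⟨Y, hY⟩
    refine ⟨X + Y, fun g => ?_⟩
    simp only [LocallyConstant.coe_add, Pi.add_apply, hX g, hY g, ad_add]
    abel
  zero_mem' := ⟨0, fun g => by simp [ad_zero]⟩
  smul_mem' := by
    rintro c a ⟨X, hX⟩
    refine ⟨c • X, fun g => ?_⟩
    simp only [LocallyConstant.coe_smul, Pi.smul_apply, hX g, ad_smul, smul_sub]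

/-- Continuous `2`-cocycles: `g·f(h,k) - f(gh,k) + f(g,hk) - f(g,h) = 0`. -/
def Z2 (ρ : G →* GL (Fin n) F) : Submodule F (C2 ρ) where
  carrier := {f | ∀ g h k, ad ρ g (f (h, k)) - f (g * h, k) + f (g, h * k) - f (g, h) = 0}
  add_mem' := by
    intro a b ha hb g h k
    simp only [LocallyConstant.coe_add, Pi.add_apply, ad_add]
    have h1 := ha g h k
    have h2 := hb g h k
    have : ∀ a1 a2 a3 a4 b1 b2 b3 b4 : Matrix (Fin n) (Fin n) F,
        a1 + b1 - (a2 + b2) + (a3 + b3) - (a4 + b4) =
        (a1 - a2 + a3 - a4) + (b1 - b2 + b3 - b4) := by intros; abel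
    rw [this, h1, h2, add_zero]
  zero_mem' := by
    intro g h k
    simp [ad_zero]
  smul_mem' := by
    intro c a ha g h k
    simp only [LocallyConstant.coe_smul, Pi.smul_apply, ad_smul]
    rw [← smul_sub, ← smul_add, ← smul_sub, ha g h k, smul_zero]

/-- Continuous `2`-coboundaries: `f(g,h) = g·φ(h) - φ(gh) + φ(g)`, `φ` a continuous `1`-cochain. -/
def B2 (ρ : G →* GL (Fin n) F) : Submodule F (C2 ρ) where
  carrier := {f | ∃ φ : C1 ρ, ∀ g h, f (g, h) = ad ρ g (φ h) - φ (g * h) + φ g}
  add_mem' := by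
    rintro a b ⟨φ, hφ⟩ ⟨ψ, hψ⟩
    refine ⟨φ + ψ, fun g h => ?_⟩
    simp only [LocallyConstant.coe_add, Pi.add_apply, hφ g h, hψ g h, ad_add]
    abel
  zero_mem' := ⟨0, fun g h => by simp [ad_zero]⟩
  smul_mem' := by
    rintro c a ⟨φ, hφ⟩
    refine ⟨c • φ, fun g h => ?_⟩
    simp only [LocallyConstant.coe_smul, Pi.smul_apply, hφ g h, ad_smul, smul_add, smul_sub]

/-- `H¹(G, ad ρ)`, continuous cohomology. -/
abbrev H1 (ρ : G →* GL (Fin n) F) : Type _ := Z1 ρ ⧸ (B1 ρ).submoduleOf (Z1 ρ)

/-- `H²(G, ad ρ)`, continuous cohomology. -/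
abbrev H2 (ρ : G →* GL (Fin n) F) : Type _ := Z2 ρ ⧸ (B2 ρ).submoduleOf (Z2 ρ)

/-- `h¹ = dim_F H¹(G, ad ρ)`, as an element of `ℕ ∪ {∞}`. -/
noncomputable def h1 (ρ : G →* GL (Fin n) F) : ℕ∞ := Cardinal.toENat (Module.rank F (H1 ρ))

/-- `h² = dim_F H²(G, ad ρ)`, as an element of `ℕ ∪ {∞}`. -/
noncomputable def h2 (ρ : G →* GL (Fin n) F) : ℕ∞ := Cardinal.toENat (Module.rank F (H2 ρ))

end Cohomology

/-! ## Deformations -/

section Deformations

/-- A complete Noetherian local `W(F)`-algebra with residue field `F`.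
The residue field is identified with `F` by the surjection `residue`, a map of `W(F)`-algebras. -/
structure CoeffRing (p : ℕ) [Fact p.Prime] (F : Type) [Field F] where
  /-- the underlying type -/
  carrier : Type
  [commRing : CommRing carrier]
  [isLocalRing : IsLocalRing carrier]
  [isNoetherianRing : IsNoetherianRing carrier]
  [isAdicComplete : IsAdicComplete (maximalIdeal carrier) carrier]
  [algebra : Algebra (WittVector p F) carrier]
  /-- the reduction map to the residue field -/
  residue : carrier →+* F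
  residue_algebraMap : ∀ w : WittVector p F,
    residue (algebraMap (WittVector p F) carrier w) = WittVector.constantCoeff w

attribute [instance] CoeffRing.commRing CoeffRing.isLocalRing CoeffRing.isNoetherianRing
  CoeffRing.isAdicComplete CoeffRing.algebra

instance (p : ℕ) [Fact p.Prime] (F : Type) [Field F] : CoeSort (CoeffRing p F) Type :=
  ⟨CoeffRing.carrier⟩

variable {p : ℕ} [Fact p.Prime] {F : Type} [Field F]
variable {G : Type*} [Group G] [TopologicalSpace G] {n : ℕ}

/-- `ρ : G → GL_n(A)` is continuous for the `m_A`-adic topology of the local ring `A`, i.e. it is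
locally constant modulo every power of `m_A`. -/
def AdicallyContinuous {A : Type} [CommRing A] [IsLocalRing A] (ρ : G →* GL (Fin n) A) : Prop :=
  ∀ N : ℕ, IsLocallyConstant fun g =>
    (ρ g : Matrix (Fin n) (Fin n) A).map (Ideal.Quotient.mk (maximalIdeal A ^ N))

/-- `ρ : G → GL_n(A)` is a lift of `ρbar : G → GL_n(F)`: it is continuous for the `m_A`-adic
topology and reduces to `ρbar`. -/
structure IsLift (ρbar : G →* GL (Fin n) F) (A : CoeffRing p F) (ρ : G →* GL (Fin n) A) :
    Prop where
  continuous : AdicallyContinuous ρ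
  reduction : ∀ g, (ρ g : Matrix (Fin n) (Fin n) A).map A.residue =
    (ρbar g : Matrix (Fin n) (Fin n) F)

/-- The Krull dimension of `A/(p)`. -/
noncomputable def krullDimModP (p : ℕ) (A : Type) [CommRing A] : WithBot ℕ∞ :=
  ringKrullDim (A ⧸ Ideal.span {(p : A)})

/-- Equivalence of lifts: conjugate by some `B ∈ GL_n(A)` with `B ≡ 1` modulo `m_A`. -/
def StrictlyEquivalent {A : Type} [CommRing A] [IsLocalRing A] (ρ₁ ρ₂ : G →* GL (Fin n) A) :
    Prop :=
  ∃ B : GL (Fin n) A,
    (∀ i j, ((B : Matrix (Fin n) (Fin n) A) - 1) i j ∈ maximalIdeal A) ∧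
    ∀ g, ρ₁ g = B * ρ₂ g * B⁻¹

/-- `(R, ρu)` is a universal deformation of `ρbar`: `ρu` is a lift of `ρbar` to `R` and for every
lift `ρ` of `ρbar` to a coefficient ring `A` there is exactly one local homomorphism
`φ : R → A` of `W(F)`-algebras such that `φ ∘ ρu` is equivalent to `ρ`. -/
structure IsUniversalDeformation (ρbar : G →* GL (Fin n) F) (R : CoeffRing p F)
    (ρu : G →* GL (Fin n) R) : Prop where
  isLift : IsLift ρbar R ρu
  existsUnique : ∀ (A : CoeffRing p F) (ρ : G →* GL (Fin n) A), IsLift ρbar A ρ →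
    ∃! φ : R →ₐ[WittVector p F] A, IsLocalHom (φ : R →+* A) ∧
      StrictlyEquivalent ρ ((Matrix.GeneralLinearGroup.map (φ : R →+* A)).comp ρu)

/-- `ρbar` is absolutely irreducible: after extension of scalars to an algebraic closure of `F`
there is no invariant subspace besides `0` and the whole (nonzero) space. -/
def AbsolutelyIrreducible (ρbar : G →* GL (Fin n) F) : Prop :=
  0 < n ∧ ∀ W : Submodule (AlgebraicClosure F) (Fin n → AlgebraicClosure F),
    (∀ g, ∀ w ∈ W, ((ρbar g : Matrix (Fin n) (Fin n) F).map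
      (algebraMap F (AlgebraicClosure F))).mulVec w ∈ W) → W = ⊥ ∨ W = ⊤

end Deformations

/-! ## The group `G_{K,S}` -/

section Galois

variable (K : Type) [Field K] [NumberField K]

/-- The algebraic extension `L/K` (inside a fixed algebraic closure) is unramified at all finite
primes of `K` outside `S`. -/
def UnramifiedOutside (S : Set (HeightOneSpectrum (𝓞 K)))
    (L : IntermediateField K (AlgebraicClosure K)) : Prop :=
  ∀ v : HeightOneSpectrum (𝓞 K), v ∉ S → Algebra.IsUnramifiedIn (𝓞 L) v.asIdeal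

/-- `K_S`: the maximal algebraic extension of `K` unramified outside `S ∪ S_∞`, i.e. the
compositum of all finite extensions of `K` unramified at the finite primes outside `S`.
No condition is imposed at the archimedean places. -/
noncomputable def maximalUnramifiedOutside (S : Set (HeightOneSpectrum (𝓞 K))) :
    IntermediateField K (AlgebraicClosure K) :=
  ⨆ L : {L : IntermediateField K (AlgebraicClosure K) //
    FiniteDimensional K L ∧ UnramifiedOutside K S L}, L.1

/-- `G_{K,S} = Gal(K_S/K)` for the set of places consisting of `S` and of all archimedean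
places. -/
def GaloisGroupOutside (S : Set (HeightOneSpectrum (𝓞 K))) : Type :=
  Gal((maximalUnramifiedOutside K S)/K)

/-- the group structure of `G_{K,S}` -/
noncomputable instance (S : Set (HeightOneSpectrum (𝓞 K))) : Group (GaloisGroupOutside K S) :=
  AlgEquiv.aut

/-- the Krull topology of `G_{K,S}` -/
noncomputable instance (S : Set (HeightOneSpectrum (𝓞 K))) :
    TopologicalSpace (GaloisGroupOutside K S) :=
  krullTopology K (maximalUnramifiedOutside K S)

end Galois

end Pool.Agent.Helper59
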