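import Pool.Agent.Helper59.PRing

set_option linter.unusedSectionVars false

open IsLocalRing Topology
open scoped MatrixGroups

namespace Pool.Agent.Helper59

variable {p : ℕ} [Fact p.Prime] {F : Type} [Field F] [CharP F p] [Finite F]

/-- functionals with values in `F` separate the points of a `W(F)`-module killed by `p` -/
lemma exists_functional {V : Type*} [AddCommGroup V] [Module (WittVector p F) V]
    (hV : ∀ v : V, (p : WittVector p F) • v = 0) (v : V) (hv : v ≠ 0) :
    ∃ ℓ : V →+ F, (∀ (w : WittVector p F) (x : V),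
      ℓ (w • x) = WittVector.constantCoeff w * ℓ x) ∧ ℓ v ≠ 0 := by
  have ht : Module.IsTorsionBySet (WittVector p F) V
      (Ideal.span {(p : WittVector p F)} : Set (WittVector p F)) := by
    rintro x ⟨a, ha⟩
    obtain ⟨b, rfl⟩ := Ideal.mem_span_singleton'.1 ha
    change (b * (p : WittVector p F)) • x = 0
    rw [mul_smul, hV, smul_zero]
  let _ : Module (WittVector p F ⧸ Ideal.span {(p : WittVector p F)}) V := ht.module
  let _ : Module F V := Module.compHom V
    ((WittVector.quotientPEquiv (p := p) (k := F)).symm : F →+*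
      WittVector p F ⧸ Ideal.span {(p : WittVector p F)})
  have hsm : ∀ (w : WittVector p F) (x : V), (WittVector.constantCoeff w : F) • x = w • x := by
    intro w x
    change ((WittVector.quotientPEquiv (p := p) (k := F)).symm (WittVector.constantCoeff w)) • x = _
    have : (WittVector.quotientPEquiv (p := p) (k := F)).symm (WittVector.constantCoeff w) =
        Ideal.Quotient.mk _ w := by
      rw [RingEquiv.symm_apply_eq]
      rfl
    rw [this]
    rfl
  have h1 := (not_congr (Module.forall_dual_apply_eq_zero_iff F v)).2 hv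
  push Not at h1
  obtain ⟨φ, hφ⟩ := h1
  refine ⟨φ.toAddMonoidHom, fun w x => ?_, hφ⟩
  change φ (w • x) = _ * φ x
  rw [← hsm, map_smul, smul_eq_mul]

variable {G : Type} [Group G] [TopologicalSpace G] {n : ℕ} {ρ : G →* GL (Fin n) F}

/-- Test points: a cocycle vanishing at all `γ k` is zero. -/
def TestPoints (ρ : G →* GL (Fin n) F) {κ : Type} (γ : κ → G) : Prop :=
  ∀ φ : C1 ρ, φ ∈ Z1 ρ → (∀ k, φ (γ k) = 0) → φ = 0

theorem descent (hρ : IsLocallyConstant ρ) {κ : Type} {γ : κ → G} (hγ : TestPoints ρ γ)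
    {A : Type} [CommRing A] [Algebra (WittVector p F) A]
    (C E : Submodule (WittVector p F) A)
    (hpE : ∀ x ∈ E, (p : WittVector p F) • x ∈ C)
    (D : G → Matrix (Fin n) (Fin n) A) (hDE : ∀ g i j, D g i j ∈ E)
    (hLC : ∀ g₀, ∀ᶠ g in 𝓝 g₀, ∀ i j, D g i j - D g₀ i j ∈ C)
    (τ : F → WittVector p F) (hτ : ∀ c, WittVector.constantCoeff (τ c) = c)
    (hmul : ∀ g h i j, D (g * h) i j - ∑ k, (τ ((ρ g : Matrix (Fin n) (Fin n) F) i k) • D h k j +
      τ ((ρ h : Matrix (Fin n) (Fin n) F) k j) • D g i k) ∈ C)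
    (htest : ∀ k i j, D (γ k) i j ∈ C) : ∀ g i j, D g i j ∈ C := by
  classical
  by_contra hcon
  push Not at hcon
  obtain ⟨g₀, i₀, j₀, hne⟩ := hcon
  set V := ↥E ⧸ C.submoduleOf E with hVdef
  have hV : ∀ v : V, (p : WittVector p F) • v = 0 := by
    intro v
    obtain ⟨x, rfl⟩ := Submodule.Quotient.mk_surjective _ v
    rw [← Submodule.Quotient.mk_smul, Submodule.Quotient.mk_eq_zero]
    exact hpE x x.2
  have hv : (Submodule.Quotient.mk ⟨D g₀ i₀ j₀, hDE g₀ i₀ j₀⟩ : V) ≠ 0 := by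
    rw [Ne, Submodule.Quotient.mk_eq_zero]
    exact hne
  obtain ⟨ℓ, hℓ1, hℓ2⟩ := exists_functional hV _ hv
  let L : E →+ F := ℓ.comp (Submodule.mkQ (C.submoduleOf E)).toAddMonoidHom
  have hLs : ∀ (w : WittVector p F) (x : E), L (w • x) = WittVector.constantCoeff w * L x := by
    intro w x
    change ℓ (Submodule.mkQ _ (w • x)) = _
    rw [map_smul, hℓ1]
    rfl
  have hLC0 : ∀ x : E, (x : A) ∈ C → L x = 0 := by
    intro x hx
    change ℓ (Submodule.mkQ _ x) = 0
    have : (Submodule.mkQ (C.submoduleOf E)) x = 0 := by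
      rw [Submodule.mkQ_apply, Submodule.Quotient.mk_eq_zero]
      exact hx
    rw [this, map_zero]
  let d : G → Matrix (Fin n) (Fin n) F := fun g i j => L ⟨D g i j, hDE g i j⟩
  have hdeq : ∀ g g', (∀ i j, D g i j - D g' i j ∈ C) → d g = d g' := by
    intro g g' h
    funext i j
    change L ⟨D g i j, hDE g i j⟩ = L ⟨D g' i j, hDE g' i j⟩
    rw [← sub_eq_zero, ← map_sub]
    exact hLC0 _ (h i j)
  have hdLC : IsLocallyConstant d := by
    rw [IsLocallyConstant.iff_eventually_eq]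
    intro g₁
    filter_upwards [hLC g₁] with g hg
    exact hdeq g g₁ hg
  have hdmul : ∀ g h, d (g * h) = (ρ g : Matrix (Fin n) (Fin n) F) * d h +
      d g * (ρ h : Matrix (Fin n) (Fin n) F) := by
    intro g h
    funext i j
    have h1 : L (⟨D (g * h) i j, hDE _ i j⟩ - ∑ k,
        (τ ((ρ g : Matrix (Fin n) (Fin n) F) i k) • (⟨D h k j, hDE h k j⟩ : E) +
          τ ((ρ h : Matrix (Fin n) (Fin n) F) k j) • (⟨D g i k, hDE g i k⟩ : E))) = 0 := by
      apply hLC0
      have := hmul g h i j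
      simpa using this
    rw [map_sub, map_sum, sub_eq_zero] at h1
    change L ⟨D (g * h) i j, hDE _ i j⟩ = _
    rw [h1, Matrix.add_apply, Matrix.mul_apply, Matrix.mul_apply, ← Finset.sum_add_distrib]
    apply Finset.sum_congr rfl
    intro k _
    rw [map_add, hLs, hLs, hτ, hτ]
    change _ = _ * L ⟨D h k j, _⟩ + L ⟨D g i k, _⟩ * _
    ring
  let φ : C1 ρ := ⟨fun g => d g * (((ρ g)⁻¹ : GL (Fin n) F) : Matrix (Fin n) (Fin n) F), by
    exact (hdLC.prodMk hρ).comp (fun w : Matrix (Fin n) (Fin n) F × GL (Fin n) F =>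
      w.1 * ((w.2⁻¹ : GL (Fin n) F) : Matrix (Fin n) (Fin n) F))⟩
  have hφ : ∀ g, φ g = d g * (((ρ g)⁻¹ : GL (Fin n) F) : Matrix (Fin n) (Fin n) F) := fun g => rfl
  have hφZ : φ ∈ Z1 ρ := by
    intro g h
    rw [hφ, hφ, hφ, hdmul, map_mul, mul_inv_rev, Units.val_mul]
    unfold ad
    have e1 : (ρ h : Matrix (Fin n) (Fin n) F) *
        (((ρ h)⁻¹ : GL (Fin n) F) : Matrix (Fin n) (Fin n) F) = 1 := by
      rw [← Units.val_mul, mul_inv_cancel, Units.val_one]
    calc ((ρ g : Matrix (Fin n) (Fin n) F) * d h + d g * (ρ h : Matrix (Fin n) (Fin n) F)) *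
          ((((ρ h)⁻¹ : GL (Fin n) F) : Matrix (Fin n) (Fin n) F) *
            (((ρ g)⁻¹ : GL (Fin n) F) : Matrix (Fin n) (Fin n) F))
        = d g * ((ρ h : Matrix (Fin n) (Fin n) F) *
            (((ρ h)⁻¹ : GL (Fin n) F) : Matrix (Fin n) (Fin n) F)) *
            (((ρ g)⁻¹ : GL (Fin n) F) : Matrix (Fin n) (Fin n) F) +
          (ρ g : Matrix (Fin n) (Fin n) F) * (d h *
            (((ρ h)⁻¹ : GL (Fin n) F) : Matrix (Fin n) (Fin n) F)) *
            (((ρ g)⁻¹ : GL (Fin n) F) : Matrix (Fin n) (Fin n) F) := by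
          simp only [mul_assoc, add_mul]
          abel
      _ = _ := by rw [e1, mul_one]
  have hφ0 : φ = 0 := by
    apply hγ φ hφZ
    intro k
    rw [hφ]
    have : d (γ k) = 0 := by
      funext i j
      exact hLC0 _ (htest k i j)
    rw [this, zero_mul]
  have h2 : d g₀ = 0 := by
    have h3 : φ g₀ = 0 := by rw [hφ0]; rfl
    rw [hφ] at h3
    have h4 : d g₀ * (((ρ g₀)⁻¹ : GL (Fin n) F) : Matrix (Fin n) (Fin n) F) *
        (ρ g₀ : Matrix (Fin n) (Fin n) F) = 0 := by rw [h3, zero_mul]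
    rwa [mul_assoc, ← Units.val_mul, inv_mul_cancel, Units.val_one, mul_one] at h4
  apply hℓ2
  have h5 : d g₀ i₀ j₀ = 0 := by rw [h2]; rfl
  exact h5

end Pool.Agent.Helper59
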