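import Pool.Agent.Helper59.RealDataField

open Topology ComplexConjugate Equiv

namespace Pool.Agent.Helper59

/-! ### `S_3 ≅ GL_2(𝔽_2)` -/

/-- the three nonzero vectors of `𝔽_2²` -/
def vec3 (i : Fin 3) : Fin 2 → ZMod 2 := ![![1, 0], ![0, 1], ![1, 1]] i

/-- The matrix permuting the three nonzero vectors of `𝔽_2²` by `σ`. -/
def permMat (σ : Perm (Fin 3)) : Matrix (Fin 2) (Fin 2) (ZMod 2) :=
  Matrix.of fun i j => vec3 (σ (Fin.castSucc j)) i

lemma permMat_one : permMat 1 = 1 := by decide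

lemma permMat_mul : ∀ σ τ : Perm (Fin 3), permMat (σ * τ) = permMat σ * permMat τ := by decide

/-- The isomorphism `S_3 → GL_2(𝔽_2)` -/
def permGL : Perm (Fin 3) →* GL (Fin 2) (ZMod 2) :=
  MonoidHom.toHomUnits
    { toFun := permMat
      map_one' := permMat_one
      map_mul' := permMat_mul }

lemma permGL_coe (σ : Perm (Fin 3)) :
    ((permGL σ : GL (Fin 2) (ZMod 2)) : Matrix (Fin 2) (Fin 2) (ZMod 2)) = permMat σ := rfl

set_option maxRecDepth 100000 in
lemma perm_gen (H : Subgroup (Perm (Fin 3))) (σ : Perm (Fin 3)) (hσ : σ ∈ H)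
    (hs : Perm.sign σ = -1) (hm : ∀ i, ∃ τ ∈ H, τ i ≠ i) : H = ⊤ := by
  have key : ∀ σ : Perm (Fin 3), Perm.sign σ = -1 → ∃ i, ∀ τ : Perm (Fin 3), τ i ≠ i →
      ∀ κ : Perm (Fin 3), κ = 1 ∨ κ = σ ∨ κ = τ * σ * τ⁻¹ ∨ κ = σ * (τ * σ * τ⁻¹) ∨
        κ = (τ * σ * τ⁻¹) * σ ∨ κ = σ * (τ * σ * τ⁻¹) * σ := by
    decide
  obtain ⟨i, hi⟩ := key σ hs
  obtain ⟨τ, hτ, hτi⟩ := hm i
  have hc : τ * σ * τ⁻¹ ∈ H := H.mul_mem (H.mul_mem hτ hσ) (H.inv_mem hτ)
  rw [eq_top_iff]
  rintro κ -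
  rcases hi τ hτi κ with h | h | h | h | h | h <;> rw [h]
  · exact H.one_mem
  · exact hσ
  · exact hc
  · exact H.mul_mem hσ hc
  · exact H.mul_mem hc hσ
  · exact H.mul_mem (H.mul_mem hσ hc) hσ

/-! ### Absolute irreducibility -/

lemma absolutelyIrreducible_of_surjective {G : Type*} [Group G] [TopologicalSpace G]
    (ρ : G →* GL (Fin 2) (ZMod 2)) (h : ∀ σ, ∃ g, ρ g = permGL σ) : AbsolutelyIrreducible ρ := by
  refine ⟨by norm_num, fun W hW => ?_⟩
  set k := AlgebraicClosure (ZMod 2) with hk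
  -- the transvection and the swap
  have h1 : ∀ w ∈ W, (![w 0 + w 1, w 1] : Fin 2 → k) ∈ W := by
    intro w hw
    obtain ⟨g, hg⟩ := h (Equiv.swap 1 2)
    have := hW g w hw
    rw [hg, permGL_coe] at this
    have e : ((permMat (Equiv.swap 1 2)).map (algebraMap (ZMod 2) k)).mulVec w =
        ![w 0 + w 1, w 1] := by
      have e1 : permMat (Equiv.swap 1 2) = !![1, 1; 0, 1] := by decide
      rw [e1]
      funext i
      fin_cases i <;> simp [Matrix.mulVec, dotProduct, Fin.sum_univ_two]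
    rw [e] at this
    exact this
  have h2 : ∀ w ∈ W, (![w 1, w 0] : Fin 2 → k) ∈ W := by
    intro w hw
    obtain ⟨g, hg⟩ := h (Equiv.swap 0 1)
    have := hW g w hw
    rw [hg, permGL_coe] at this
    have e : ((permMat (Equiv.swap 0 1)).map (algebraMap (ZMod 2) k)).mulVec w =
        ![w 1, w 0] := by
      have e1 : permMat (Equiv.swap 0 1) = !![0, 1; 1, 0] := by decide
      rw [e1]
      funext i
      fin_cases i <;> simp [Matrix.mulVec, dotProduct, Fin.sum_univ_two]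
    rw [e] at this
    exact this
  by_cases hb : ∃ w ∈ W, w 1 ≠ 0
  · right
    obtain ⟨w, hw, hw1⟩ := hb
    have h3 : (![1, 0] : Fin 2 → k) ∈ W := by
      have h4 := W.sub_mem (h1 w hw) hw
      have h5 := W.smul_mem (w 1)⁻¹ h4
      convert h5 using 1
      funext i
      fin_cases i
      · change (1 : k) = (w 1)⁻¹ * ((w 0 + w 1) - w 0)
        rw [add_sub_cancel_left]
        exact (inv_mul_cancel₀ hw1).symm
      · change (0 : k) = (w 1)⁻¹ * (w 1 - w 1)
        simp
    have h6 : (![0, 1] : Fin 2 → k) ∈ W := by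
      have := h2 _ h3
      simpa using this
    rw [eq_top_iff]
    rintro v -
    have := W.add_mem (W.smul_mem (v 0) h3) (W.smul_mem (v 1) h6)
    convert this using 1
    funext i
    fin_cases i <;> simp
  · left
    push Not at hb
    rw [eq_bot_iff]
    intro w hw
    have h3 := hb w hw
    have h4 := hb _ (h2 w hw)
    simp only [Matrix.cons_val_one, Matrix.cons_val_fin_one] at h4
    rw [Submodule.mem_bot]
    funext i
    fin_cases i
    · exact h4
    · exact h3

end Pool.Agent.Helper59
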