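import Pool.Agent.Helper59.GaugeFix

set_option linter.unusedSectionVars false

open IsLocalRing Topology
open scoped MatrixGroups

namespace Pool.Agent.Helper59

variable {p : ℕ} [Fact p.Prime] {F : Type} [Field F] [CharP F p] [Finite F]
variable {G : Type} [Group G] [TopologicalSpace G]

section general

variable {n : ℕ} {ρ : G →* GL (Fin n) F}

/-- quotient of a coefficient ring -/
noncomputable def quotC (P : CoeffRing p F) (I : Ideal P) (hI : I ≤ maximalIdeal P) :
    CoeffRing p F :=
  letI : IsLocalRing (P ⧸ I) :=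
    isLocalRing_quotient (ne_top_of_le_ne_top Ideal.IsPrime.ne_top' hI)
  { carrier := P ⧸ I
    isAdicComplete := isAdicComplete_quotient
    residue := Ideal.Quotient.lift I P.residue (fun a ha => (P.residue_eq_zero_iff a).2 (hI ha))
    residue_algebraMap := by
      intro w
      change Ideal.Quotient.lift I P.residue _ (Ideal.Quotient.mk I (algebraMap _ P w)) = _
      rw [Ideal.Quotient.lift_mk, P.residue_algebraMap] }

variable {P : CoeffRing p F} {I : Ideal P} (hI : I ≤ maximalIdeal P)

/-- the quotient map -/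
noncomputable def mkC : P →ₐ[WittVector p F] quotC P I hI := Ideal.Quotient.mkₐ _ I

lemma mkC_surjective : Function.Surjective (mkC hI) := Ideal.Quotient.mk_surjective

lemma mkC_eq_zero_iff (x : P) : mkC hI x = 0 ↔ x ∈ I := Ideal.Quotient.eq_zero_iff_mem

lemma residue_mkC (x : P) : (quotC P I hI).residue (mkC hI x) = P.residue x := rfl

lemma isLocalHom_mkC : IsLocalHom (mkC hI : P →+* quotC P I hI) :=
  CoeffRing.isLocalHom_of_residue _ (residue_mkC hI)

lemma map_maximalIdeal_le {A B : CoeffRing p F} (f : A →+* B)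
    (hf : ∀ x, B.residue (f x) = A.residue x) (N : ℕ) {x : A} (hx : x ∈ maximalIdeal A ^ N) :
    f x ∈ maximalIdeal B ^ N := by
  have h1 : (maximalIdeal A).map f ≤ maximalIdeal B := by
    rw [Ideal.map_le_iff_le_comap]
    intro y hy
    rw [Ideal.mem_comap, ← B.residue_eq_zero_iff, hf, A.residue_eq_zero_iff]
    exact hy
  have h2 := Ideal.mem_map_of_mem f hx
  rw [Ideal.map_pow] at h2
  exact Ideal.pow_right_mono h1 N h2

lemma eq_zero_of_forall_mem_pow {A : CoeffRing p F} (x : A)
    (h : ∀ N, x ∈ maximalIdeal A ^ N) : x = 0 := by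
  apply IsHausdorff.haus' (I := maximalIdeal A)
  intro N
  rw [SModEq.zero, smul_eq_mul, Ideal.mul_top]
  exact h N

lemma adicallyContinuous_iff {A : CoeffRing p F} (σ : G →* GL (Fin n) A) :
    AdicallyContinuous σ ↔ ∀ N g₀, ∀ᶠ g in 𝓝 g₀, ∀ i j,
      (σ g : Matrix (Fin n) (Fin n) A) i j - (σ g₀ : Matrix (Fin n) (Fin n) A) i j ∈
        maximalIdeal A ^ N := by
  unfold AdicallyContinuous
  refine forall_congr' fun N => ?_
  rw [IsLocallyConstant.iff_eventually_eq]
  refine forall_congr' fun g₀ => ?_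
  apply Filter.eventually_congr
  filter_upwards with g
  constructor
  · intro h i j
    rw [← Ideal.Quotient.eq]
    exact congrFun (congrFun h i) j
  · intro h
    ext i j
    exact Ideal.Quotient.eq.2 (h i j)

/-- The entries of a lift lie in the closure of the subalgebra generated by the entries at the
test points. -/
theorem entries_mem (hρ : IsLocallyConstant ρ) {κ : Type} {γ : κ → G} (hγ : TestPoints ρ γ)
    (A : CoeffRing p F) (σ : G →* GL (Fin n) A) (hσ : IsLift ρ A σ)
    (S : Subalgebra (WittVector p F) A)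
    (hS : ∀ k i j, (σ (γ k) : Matrix (Fin n) (Fin n) A) i j ∈ S) :
    ∀ N g i j, ∃ a ∈ S, (σ g : Matrix (Fin n) (Fin n) A) i j - a ∈ maximalIdeal A ^ N := by
  choose τ hτ using fun c : F => WittVector.constantCoeff_surjective p c
  let C : ℕ → Submodule (WittVector p F) A := fun N =>
    S.toSubmodule ⊔ (maximalIdeal A ^ N).restrictScalars (WittVector p F)
  have hC : ∀ N x, x ∈ C N ↔ ∃ a ∈ S, x - a ∈ maximalIdeal A ^ N := by
    intro N x
    constructor
    · intro hx
      obtain ⟨a, ha, b, hb, rfl⟩ := Submodule.mem_sup.1 hx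
      refine ⟨a, ha, ?_⟩
      have : a + b - a = b := by ring
      rw [this]
      exact hb
    · rintro ⟨a, ha, hxa⟩
      have : x = a + (x - a) := by ring
      rw [this]
      exact Submodule.add_mem _ (Submodule.mem_sup_left ha) (Submodule.mem_sup_right hxa)
  have hτres : ∀ g i j, (σ g : Matrix (Fin n) (Fin n) A) i j - algebraMap (WittVector p F) A
      (τ ((ρ g : Matrix (Fin n) (Fin n) F) i j)) ∈ maximalIdeal A := by
    intro g i j
    rw [← A.residue_eq_zero_iff, map_sub, A.residue_algebraMap, hτ, ← hσ.reduction g]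
    exact sub_self _
  have key : ∀ N g i j, (σ g : Matrix (Fin n) (Fin n) A) i j ∈ C N := by
    intro N
    induction N with
    | zero =>
      intro g i j
      rw [hC]
      exact ⟨0, S.zero_mem, by simp⟩
    | succ N ih =>
      rcases Nat.eq_zero_or_pos N with rfl | hN
      · intro g i j
        rw [hC]
        exact ⟨_, S.algebraMap_mem _, by rw [zero_add, pow_one]; exact hτres g i j⟩
      · refine descent hρ hγ (C (N + 1)) (C N) ?_
          (fun g => (σ g : Matrix (Fin n) (Fin n) A)) (fun g i j => ih g i j) ?_ τ hτ ?_ ?_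
        · intro x hx
          rw [hC] at hx ⊢
          obtain ⟨a, ha, hxa⟩ := hx
          refine ⟨(p : WittVector p F) • a, S.smul_mem ha _, ?_⟩
          rw [← smul_sub, Algebra.smul_def, map_natCast, pow_succ']
          exact Ideal.mul_mem_mul (natCast_p_mem A) hxa
        · intro g₀
          filter_upwards [(adicallyContinuous_iff σ).1 hσ.continuous (N + 1) g₀] with g hg i j
          exact Submodule.mem_sup_right (hg i j)
        · intro g h i j
          rw [map_mul, Units.val_mul, Matrix.mul_apply, ← Finset.sum_sub_distrib]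
          apply Submodule.sum_mem
          intro k _
          obtain ⟨a, ha, hxa⟩ := (hC N _).1 (ih g i k)
          obtain ⟨b, hb, hyb⟩ := (hC N _).1 (ih h k j)
          set x := (σ g : Matrix (Fin n) (Fin n) A) i k
          set y := (σ h : Matrix (Fin n) (Fin n) A) k j
          set wx := algebraMap (WittVector p F) A (τ ((ρ g : Matrix (Fin n) (Fin n) F) i k))
            with hwx
          set wy := algebraMap (WittVector p F) A (τ ((ρ h : Matrix (Fin n) (Fin n) F) k j))
            with hwy
          have hx1 : x - wx ∈ maximalIdeal A := hτres g i k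
          have hy1 : y - wy ∈ maximalIdeal A := hτres h k j
          have hwxS : wx ∈ S := S.algebraMap_mem _
          have hwyS : wy ∈ S := S.algebraMap_mem _
          rw [hC]
          refine ⟨(a - wx) * (b - wy) - wx * wy, S.sub_mem (S.mul_mem (S.sub_mem ha hwxS)
            (S.sub_mem hb hwyS)) (S.mul_mem hwxS hwyS), ?_⟩
          have e : x * y - (τ ((ρ g : Matrix (Fin n) (Fin n) F) i k) • y +
              τ ((ρ h : Matrix (Fin n) (Fin n) F) k j) • x) -
              ((a - wx) * (b - wy) - wx * wy) =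
              (x - a) * (y - wy) + (a - wx) * (y - b) := by
            rw [Algebra.smul_def, Algebra.smul_def, ← hwx, ← hwy]
            ring
          rw [e]
          apply Ideal.add_mem
          · rw [pow_succ]
            exact Ideal.mul_mem_mul hxa hy1
          · rw [pow_succ']
            apply Ideal.mul_mem_mul _ hyb
            have e2 : a - wx = (x - wx) - (x - a) := by ring
            rw [e2]
            exact Ideal.sub_mem _ hx1 (Ideal.pow_le_self (by omega) hxa)
        · intro k i j
          exact Submodule.mem_sup_left (hS k i j)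
  intro N g i j
  exact (hC N _).1 (key N g i j)

lemma StrictlyEquivalent.symm {A : Type} [CommRing A] [IsLocalRing A] {σ₁ σ₂ : G →* GL (Fin n) A}
    (h : StrictlyEquivalent σ₁ σ₂) : StrictlyEquivalent σ₂ σ₁ := by
  obtain ⟨B, hB, h⟩ := h
  refine ⟨B⁻¹, ?_, fun g => ?_⟩
  · intro i j
    have e : ((B⁻¹ : GL (Fin n) A) : Matrix (Fin n) (Fin n) A) - 1 =
        -(((B⁻¹ : GL (Fin n) A) : Matrix (Fin n) (Fin n) A) *
          ((B : Matrix (Fin n) (Fin n) A) - 1)) := by
      rw [mul_sub, ← Units.val_mul, inv_mul_cancel, Units.val_one, mul_one]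
      abel
    rw [e, Matrix.neg_apply, Matrix.mul_apply]
    exact (Ideal.neg_mem_iff _).2 (Ideal.sum_mem _ fun k _ => Ideal.mul_mem_left _ _ (hB k j))
  · rw [h g]
    group

lemma StrictlyEquivalent.trans {A : Type} [CommRing A] [IsLocalRing A]
    {σ₁ σ₂ σ₃ : G →* GL (Fin n) A}
    (h : StrictlyEquivalent σ₁ σ₂) (h' : StrictlyEquivalent σ₂ σ₃) :
    StrictlyEquivalent σ₁ σ₃ := by
  obtain ⟨B, hB, h⟩ := h
  obtain ⟨B', hB', h'⟩ := h'
  refine ⟨B * B', ?_, fun g => ?_⟩
  · intro i j
    have e : ((B * B' : GL (Fin n) A) : Matrix (Fin n) (Fin n) A) - 1 =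
        (B : Matrix (Fin n) (Fin n) A) * ((B' : Matrix (Fin n) (Fin n) A) - 1) +
        ((B : Matrix (Fin n) (Fin n) A) - 1) := by
      rw [mul_sub, Units.val_mul, mul_one]
      abel
    rw [e, Matrix.add_apply, Matrix.mul_apply]
    exact Ideal.add_mem _ (Ideal.sum_mem _ fun k _ => Ideal.mul_mem_left _ _ (hB' k j)) (hB i j)
  · rw [h g, h' g]
    group

end general

section universal

variable {m : ℕ} {ρ : G →* GL (Fin (m + 1)) F}

theorem exists_universal_deformation (hρ : IsLocallyConstant ρ) {κ : Type} [Finite κ] {γ : κ → G}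
    (hγ : TestPoints ρ γ) {w : Fin (m + 1) → (G →₀ WittVector p F)} (hw : ResGauge ρ w) :
    ∃ (R : CoeffRing p F) (ρu : G →* GL (Fin (m + 1)) R), IsUniversalDeformation ρ R ρu := by
  classical
  have := Fintype.ofFinite κ
  choose τ hτ using fun c : F => WittVector.constantCoeff_surjective p c
  let ix := κ × Fin (m + 1) × Fin (m + 1)
  let e : ix ≃ Fin (Fintype.card ix) := Fintype.equivFin ix
  let P := PW p F (Fintype.card ix)
  let x : κ → Matrix (Fin (m + 1)) (Fin (m + 1)) P := fun k i j =>
    algebraMap (WittVector p F) P (τ ((ρ (γ k) : Matrix (Fin (m + 1)) (Fin (m + 1)) F) i j)) +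
      xP p F _ (e (k, i, j))
  have hx : ∀ k, (x k).map P.residue = (ρ (γ k) : Matrix (Fin (m + 1)) (Fin (m + 1)) F) := by
    intro k
    ext i j
    change P.residue (algebraMap (WittVector p F) P _ + xP p F _ (e (k, i, j))) = _
    rw [map_add, P.residue_algebraMap, hτ, residue_xP, add_zero]
  obtain ⟨J, s, hJm, hs, hJmin⟩ := exists_universal_preLift (P := P) hρ hγ hx hw
  let R := quotC P J hJm
  let q : P →ₐ[WittVector p F] R := mkC hJm
  have hqres : ∀ y, R.residue (q y) = P.residue y := residue_mkC hJm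
  have hq0 : ∀ y, q y = 0 ↔ y ∈ J := mkC_eq_zero_iff hJm
  have hmap : ∀ M : Matrix (Fin (m + 1)) (Fin (m + 1)) P,
      (M.map q).map R.residue = M.map P.residue := by
    intro M
    ext i j
    exact hqres _
  have hmulR : ∀ g h, (s (g * h)).map q = (s g).map q * (s h).map q := by
    intro g h
    have h1 : (s g).map q * (s h).map q = (s g * s h).map q :=
      ((Matrix.map_mul (f := (q : P →+* R)) (L := s g) (M := s h))).symm
    rw [h1]
    ext i j
    rw [Matrix.map_apply, Matrix.map_apply, ← sub_eq_zero, ← map_sub, hq0]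
    exact hs.mul g h i j
  have hunit : IsUnit ((s 1).map q) := by
    apply isUnit_of_residue R
    rw [hmap, hs.red, map_one]
    exact isUnit_one
  let ρu : G →* GL (Fin (m + 1)) R := homOfMul (fun g => (s g).map q) hmulR hunit
  have hρu : ∀ g, (ρu g : Matrix (Fin (m + 1)) (Fin (m + 1)) R) = (s g).map q := fun g => rfl
  have hρuG : Gauge w (⊥ : Ideal R)
      (fun g => (ρu g : Matrix (Fin (m + 1)) (Fin (m + 1)) R)) := by
    intro i j hij
    have h1 := hs.gauge i j hij
    rw [← hq0, map_sub, ← gaugeX_map] at h1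
    rw [Ideal.mem_bot]
    have h2 : q ((1 : Matrix (Fin (m + 1)) (Fin (m + 1)) P) i j) =
        (1 : Matrix (Fin (m + 1)) (Fin (m + 1)) R) i j := by
      rw [Matrix.one_apply, Matrix.one_apply]
      split_ifs <;> simp
    rw [h2] at h1
    exact h1
  have hlift : IsLift ρ R ρu := by
    refine ⟨?_, ?_⟩
    · rw [adicallyContinuous_iff]
      intro N g₀
      filter_upwards [hs.cont N g₀] with g hg i j
      obtain ⟨a, ha, b, hb, hab⟩ := Submodule.mem_sup.1 (hg i j)
      have h1 : (ρu g : Matrix (Fin (m + 1)) (Fin (m + 1)) R) i j -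
          (ρu g₀ : Matrix (Fin (m + 1)) (Fin (m + 1)) R) i j = q b := by
        rw [hρu, hρu, Matrix.map_apply, Matrix.map_apply, ← map_sub, ← hab, map_add,
          (hq0 a).2 ha, zero_add]
      rw [h1]
      exact map_maximalIdeal_le (q : P →+* R) hqres N hb
    · intro g
      rw [hρu, hmap, hs.red]
  refine ⟨R, ρu, ⟨hlift, ?_⟩⟩
  intro A σ hσ
  obtain ⟨B, hB1, hBG⟩ := gauge_exists A σ hσ.reduction hw
  let σ' : G →* GL (Fin (m + 1)) A := (MulAut.conj B).toMonoidHom.comp σ
  have hσ'g : ∀ g, σ' g = B * σ g * B⁻¹ := fun g => rfl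
  have hequiv : StrictlyEquivalent σ' σ := ⟨B, hB1, hσ'g⟩
  have hσ'G : Gauge w (⊥ : Ideal A)
      (fun g => (σ' g : Matrix (Fin (m + 1)) (Fin (m + 1)) A)) := hBG
  have hBres := (map_residue_eq_one_iff A (B : Matrix (Fin (m + 1)) (Fin (m + 1)) A)).1 hB1
  have hB'res : ((B⁻¹ : GL (Fin (m + 1)) A) : Matrix (Fin (m + 1)) (Fin (m + 1)) A).map
      A.residue = 1 := by
    have h1 : (((B : Matrix (Fin (m + 1)) (Fin (m + 1)) A)) *
        ((B⁻¹ : GL (Fin (m + 1)) A) : Matrix (Fin (m + 1)) (Fin (m + 1)) A)).map A.residue =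
        1 := by
      rw [← Units.val_mul, mul_inv_cancel, Units.val_one]
      exact Matrix.map_one _ (map_zero _) (map_one _)
    rw [Matrix.map_mul, hBres, one_mul] at h1
    exact h1
  have hσ'lift : IsLift ρ A σ' := by
    refine ⟨?_, ?_⟩
    · rw [adicallyContinuous_iff]
      intro N g₀
      filter_upwards [(adicallyContinuous_iff σ).1 hσ.continuous N g₀] with g hg i j
      have h1 : (σ' g : Matrix (Fin (m + 1)) (Fin (m + 1)) A) i j -
          (σ' g₀ : Matrix (Fin (m + 1)) (Fin (m + 1)) A) i j =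
          ((B : Matrix (Fin (m + 1)) (Fin (m + 1)) A) *
            ((σ g : Matrix (Fin (m + 1)) (Fin (m + 1)) A) - σ g₀) *
            ((B⁻¹ : GL (Fin (m + 1)) A) : Matrix (Fin (m + 1)) (Fin (m + 1)) A)) i j := by
        rw [mul_sub, sub_mul, Matrix.sub_apply]
        rfl
      rw [h1, Matrix.mul_apply]
      apply Ideal.sum_mem
      intro k _
      apply Ideal.mul_mem_right
      rw [Matrix.mul_apply]
      apply Ideal.sum_mem
      intro l _
      exact Ideal.mul_mem_left _ _ (hg l k)
    · intro g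
      have h1 : (σ' g : Matrix (Fin (m + 1)) (Fin (m + 1)) A) =
          (B : Matrix (Fin (m + 1)) (Fin (m + 1)) A) * (σ g : Matrix _ _ A) *
          ((B⁻¹ : GL (Fin (m + 1)) A) : Matrix (Fin (m + 1)) (Fin (m + 1)) A) := rfl
      rw [h1, Matrix.map_mul, Matrix.map_mul, hBres, hB'res, one_mul, mul_one, hσ.reduction]
  -- the map from `P`
  obtain ⟨ψ, hψloc, hψ⟩ := exists_evalP A (fun t : Fin (Fintype.card ix) =>
      (σ' (γ (e.symm t).1) : Matrix (Fin (m + 1)) (Fin (m + 1)) A) (e.symm t).2.1 (e.symm t).2.2 -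
      algebraMap (WittVector p F) A (τ ((ρ (γ (e.symm t).1) :
        Matrix (Fin (m + 1)) (Fin (m + 1)) F) (e.symm t).2.1 (e.symm t).2.2))) (by
      intro t
      rw [← A.residue_eq_zero_iff, map_sub, A.residue_algebraMap, hτ, ← hσ'lift.reduction]
      exact sub_self _)
  have hψx : ∀ k i j, ψ (x k i j) =
      (σ' (γ k) : Matrix (Fin (m + 1)) (Fin (m + 1)) A) i j := by
    intro k i j
    change ψ (algebraMap (WittVector p F) P _ + xP p F _ (e (k, i, j))) = _
    rw [map_add, ψ.commutes, hψ, e.symm_apply_apply]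
    ring
  have hψres : ∀ y, A.residue (ψ y) = P.residue y := CoeffRing.residue_comp ψ hψloc
  have hmem := entries_mem hρ hγ A σ' hσ'lift ψ.range (fun k i j => ⟨x k i j, hψx k i j⟩)
  have hmem' : ∀ N g i j, ∃ y : P, ψ y -
      (σ' g : Matrix (Fin (m + 1)) (Fin (m + 1)) A) i j ∈ maximalIdeal A ^ N := by
    intro N g i j
    obtain ⟨a, ⟨y, hy⟩, ha⟩ := hmem N g i j
    refine ⟨y, ?_⟩
    have hy' : ψ y = a := hy
    rw [hy', ← neg_sub]
    exact (Ideal.neg_mem_iff _).2 ha
  choose r hr using hmem'
  let 𝔟 : ℕ → Ideal P := fun N => (maximalIdeal A ^ (N + 1)).comap (ψ : P →+* A)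
  have hb : ∀ N y, y ∈ 𝔟 N ↔ ψ y ∈ maximalIdeal A ^ (N + 1) := fun N y => Iff.rfl
  have hpre : ∀ N, PreLift ρ P w γ x (𝔟 N) (fun g i j => r (N + 1) g i j) := by
    intro N
    have hrN := hr (N + 1)
    refine ⟨?_, ?_, ?_, ?_, ?_⟩
    · intro g h i j
      rw [hb, Matrix.sub_apply, Matrix.mul_apply, map_sub, map_sum]
      have e1 : ψ (r (N + 1) (g * h) i j) - ∑ k, ψ (r (N + 1) g i k * r (N + 1) h k j) =
          (ψ (r (N + 1) (g * h) i j) -
            (σ' (g * h) : Matrix (Fin (m + 1)) (Fin (m + 1)) A) i j) -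
          ∑ k, ((ψ (r (N + 1) g i k) - (σ' g : Matrix (Fin (m + 1)) (Fin (m + 1)) A) i k) *
              ψ (r (N + 1) h k j) +
            (σ' g : Matrix (Fin (m + 1)) (Fin (m + 1)) A) i k *
              (ψ (r (N + 1) h k j) -
                (σ' h : Matrix (Fin (m + 1)) (Fin (m + 1)) A) k j)) := by
        have e2 : ∑ k, ((ψ (r (N + 1) g i k) -
              (σ' g : Matrix (Fin (m + 1)) (Fin (m + 1)) A) i k) * ψ (r (N + 1) h k j) +
            (σ' g : Matrix (Fin (m + 1)) (Fin (m + 1)) A) i k *
              (ψ (r (N + 1) h k j) - (σ' h : Matrix (Fin (m + 1)) (Fin (m + 1)) A) k j)) =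
            ∑ k, ψ (r (N + 1) g i k * r (N + 1) h k j) -
            (σ' (g * h) : Matrix (Fin (m + 1)) (Fin (m + 1)) A) i j := by
          rw [map_mul, Units.val_mul, Matrix.mul_apply, ← Finset.sum_sub_distrib]
          apply Finset.sum_congr rfl
          intro k _
          rw [map_mul]
          ring
        rw [e2]
        ring
      rw [e1]
      apply Ideal.sub_mem
      · exact hrN _ i j
      · apply Ideal.sum_mem
        intro k _
        exact Ideal.add_mem _ (Ideal.mul_mem_right _ _ (hrN g i k))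
          (Ideal.mul_mem_left _ _ (hrN h k j))
    · intro g
      ext i j
      change P.residue (r (N + 1) g i j) = _
      rw [← hψres, ← hσ'lift.reduction, Matrix.map_apply, ← sub_eq_zero, ← map_sub,
        A.residue_eq_zero_iff]
      exact Ideal.pow_le_self (Nat.succ_ne_zero N) (hrN g i j)
    · intro M g₀
      filter_upwards [(adicallyContinuous_iff σ').1 hσ'lift.continuous (N + 1) g₀] with g hg i j
      apply Ideal.mem_sup_left
      rw [hb, map_sub]
      have e1 : ψ (r (N + 1) g i j) - ψ (r (N + 1) g₀ i j) =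
          (ψ (r (N + 1) g i j) - (σ' g : Matrix (Fin (m + 1)) (Fin (m + 1)) A) i j) +
          ((σ' g : Matrix (Fin (m + 1)) (Fin (m + 1)) A) i j -
            (σ' g₀ : Matrix (Fin (m + 1)) (Fin (m + 1)) A) i j) -
          (ψ (r (N + 1) g₀ i j) - (σ' g₀ : Matrix (Fin (m + 1)) (Fin (m + 1)) A) i j) := by ring
      rw [e1]
      exact Ideal.sub_mem _ (Ideal.add_mem _ (hrN g i j) (hg i j)) (hrN g₀ i j)
    · intro k i j
      rw [hb, map_sub, hψx]
      exact hrN _ i j
    · intro i j hij
      rw [hb, map_sub, ← gaugeX_map]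
      have h1 := Gauge.mono (bot_le (a := maximalIdeal A ^ (N + 1))) hσ'G
      have h2 := Gauge.congr (r' := fun g => Matrix.map (fun i j => r (N + 1) g i j) ψ)
        (fun g i j => by
          rw [← neg_sub]
          exact (Ideal.neg_mem_iff _).2 (hrN g i j)) h1 i j hij
      have h3 : ψ ((1 : Matrix (Fin (m + 1)) (Fin (m + 1)) P) i j) =
          (1 : Matrix (Fin (m + 1)) (Fin (m + 1)) A) i j := by
        rw [Matrix.one_apply, Matrix.one_apply]
        split_ifs <;> simp
      rw [h3]
      exact h2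
  have hJb : ∀ N, J ≤ 𝔟 N := by
    intro N
    refine hJmin (𝔟 N) (N + 1) ⟨_, hpre N⟩ ?_ ?_
    · intro y hy
      rw [hb] at hy
      rw [← P.residue_eq_zero_iff, ← hψres, A.residue_eq_zero_iff]
      exact Ideal.pow_le_self (Nat.succ_ne_zero N) hy
    · intro y hy
      rw [hb]
      exact map_maximalIdeal_le (ψ : P →+* A) hψres (N + 1) hy
  have hψJ : ∀ y ∈ J, ψ y = 0 := by
    intro y hy
    apply eq_zero_of_forall_mem_pow
    intro N
    exact Ideal.pow_le_pow_right (Nat.le_succ N) (hJb N hy)
  let φ : R →ₐ[WittVector p F] A := Ideal.Quotient.liftₐ J ψ hψJ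
  have hφq : ∀ y, φ (q y) = ψ y := fun y => rfl
  have hφres : ∀ y, A.residue (φ y) = R.residue y := by
    intro y
    obtain ⟨z, rfl⟩ := mkC_surjective hJm y
    exact (hψres z).trans (hqres z).symm
  have hφloc : IsLocalHom (φ : R →+* A) := CoeffRing.isLocalHom_of_residue _ hφres
  have hφρ : (Matrix.GeneralLinearGroup.map (φ : R →+* A)).comp ρu = σ' := by
    ext1 g
    apply Units.ext
    ext i j
    change φ (q (s g i j)) = _
    rw [hφq, ← sub_eq_zero]
    apply eq_zero_of_forall_mem_pow
    intro N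
    apply Ideal.pow_le_pow_right (Nat.le_succ N)
    have h1 := PreLift.unique hρ hγ (hs.mono (hJb N)) (hpre N) g i j
    rw [hb, map_sub] at h1
    have e1 : ψ (s g i j) - (σ' g : Matrix (Fin (m + 1)) (Fin (m + 1)) A) i j =
        (ψ (s g i j) - ψ (r (N + 1) g i j)) +
        (ψ (r (N + 1) g i j) - (σ' g : Matrix (Fin (m + 1)) (Fin (m + 1)) A) i j) := by ring
    rw [e1]
    exact Ideal.add_mem _ h1 (hr (N + 1) g i j)
  refine ⟨φ, ⟨hφloc, ?_⟩, ?_⟩
  · rw [hφρ]
    exact hequiv.symm
  · rintro φ' ⟨hφ'loc, hφ'⟩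
    have hφ'res := CoeffRing.residue_comp φ' hφ'loc
    set σ'' := (Matrix.GeneralLinearGroup.map (φ' : R →+* A)).comp ρu with hσ''
    have hσ''G : Gauge w (⊥ : Ideal A)
        (fun g => (σ'' g : Matrix (Fin (m + 1)) (Fin (m + 1)) A)) := by
      intro i j hij
      have h1 := hρuG i j hij
      rw [Ideal.mem_bot] at h1
      have h2 := congrArg φ' h1
      rw [map_sub, map_zero, ← gaugeX_map] at h2
      have h3 : φ' ((1 : Matrix (Fin (m + 1)) (Fin (m + 1)) R) i j) =
          (1 : Matrix (Fin (m + 1)) (Fin (m + 1)) A) i j := by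
        rw [Matrix.one_apply, Matrix.one_apply]
        split_ifs <;> simp
      rw [h3] at h2
      rw [Ideal.mem_bot]
      exact h2
    have heq : σ' = σ'' := by
      refine gauge_unique (w := w) A σ' σ'' ?_ hw hσ'G hσ''G (hequiv.trans hφ')
      intro g
      have h1 : (σ'' g : Matrix (Fin (m + 1)) (Fin (m + 1)) A) = (s g).map (fun y => φ' (q y)) :=
        rfl
      rw [h1, ← hs.red g]
      ext i j
      change A.residue (φ' (q (s g i j))) = P.residue (s g i j)
      rw [hφ'res, hqres]
    have hext : (φ' : R →+* A).comp (q : P →+* R) = (φ : R →+* A).comp (q : P →+* R) := by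
      apply evalP_ext
      · intro v
        change φ' (q (algebraMap _ _ v)) = φ (q (algebraMap _ _ v))
        rw [q.commutes, φ'.commutes, φ.commutes]
      · intro t
        obtain ⟨⟨k, i, j⟩, rfl⟩ := e.surjective t
        have h1 : ∀ θ : R →ₐ[WittVector p F] A, θ (q (xP p F _ (e (k, i, j)))) =
            θ ((ρu (γ k) : Matrix (Fin (m + 1)) (Fin (m + 1)) R) i j) -
            algebraMap (WittVector p F) A
              (τ ((ρ (γ k) : Matrix (Fin (m + 1)) (Fin (m + 1)) F) i j)) := by
          intro θ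
          have h2 : (ρu (γ k) : Matrix (Fin (m + 1)) (Fin (m + 1)) R) i j = q (x k i j) := by
            rw [hρu, Matrix.map_apply, ← sub_eq_zero, ← map_sub, hq0]
            exact hs.test k i j
          rw [h2]
          change _ = θ (q (algebraMap (WittVector p F) P _ + xP p F _ (e (k, i, j)))) - _
          rw [map_add, map_add, q.commutes, θ.commutes]
          ring
        change φ' (q (xP p F _ (e (k, i, j)))) = φ (q (xP p F _ (e (k, i, j))))
        rw [h1, h1]
        congr 1
        have h3 : (σ'' (γ k) : Matrix (Fin (m + 1)) (Fin (m + 1)) A) i j =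
            (((Matrix.GeneralLinearGroup.map (φ : R →+* A)).comp ρu) (γ k) :
              Matrix (Fin (m + 1)) (Fin (m + 1)) A) i j := by
          rw [hφρ, heq]
        exact h3
      · have h1 : ∀ y, A.residue (((φ' : R →+* A).comp (q : P →+* R)) y) = P.residue y := by
          intro y
          change A.residue (φ' (q y)) = _
          rw [hφ'res, hqres]
        exact CoeffRing.isLocalHom_of_residue _ h1
    apply AlgHom.ext
    intro y
    obtain ⟨z, rfl⟩ := mkC_surjective hJm y
    exact RingHom.congr_fun hext z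

end universal

end Pool.Agent.Helper59
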