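import Pool.Agent.Helper59.Characters
import Pool.Agent.Helper59.Universal
import Pool.Agent.Helper59.Counterexample

open Topology NumberField IsDedekindDomain

namespace Pool.Agent.Helper59

section finite

variable {K : Type} [Field K] [NumberField K] {S : Set (HeightOneSpectrum (𝓞 K))}

/-- The group of continuous cocycles of `ad ρ` is finite. -/
theorem finite_Z1 {n : ℕ} (ρ : GaloisGroupOutside K S →* GL (Fin n) (ZMod 2))
    (hρ : IsLocallyConstant ρ) (hS : S.Finite) : Finite (Z1 ρ) := by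
  classical
  have hN : IsOpen (ρ.ker : Set (GaloisGroupOutside K S)) := isOpen_ker_of_isLocallyConstant ρ hρ
  set X : Set (ρ.ker → ZMod 2) := {f | ∃ χ : GaloisGroupOutside K S → ZMod 2,
      IsLocallyConstant χ ∧ (∀ g ∈ ρ.ker, ∀ h ∈ ρ.ker, χ (g * h) = χ g + χ h) ∧
      ∀ n : ρ.ker, f n = χ n} with hX
  have hXfin : X.Finite := finite_chars hS ρ.ker hN
  have : Finite X := hXfin
  let r : GL (Fin n) (ZMod 2) → GaloisGroupOutside K S := fun δ =>
    if h : ∃ g, ρ g = δ then h.choose else 1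
  have hr : ∀ g, ρ (r (ρ g)) = ρ g := by
    intro g
    have h : ∃ g', ρ g' = ρ g := ⟨g, rfl⟩
    have : r (ρ g) = h.choose := dif_pos h
    rw [this]
    exact h.choose_spec
  have hres : ∀ (φ : Z1 ρ) (i j : Fin n), (fun m : ρ.ker => φ.1 m i j) ∈ X := by
    intro φ i j
    refine ⟨fun g => φ.1 g i j, ?_, ?_, fun _ => rfl⟩
    · exact φ.1.isLocallyConstant.comp (fun M : Matrix (Fin n) (Fin n) (ZMod 2) => M i j)
    · intro g hg h _
      have h1 := φ.2 g h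
      rw [ad_of_eq_one ρ (MonoidHom.mem_ker.1 hg)] at h1
      exact congrFun (congrFun h1 i) j
  let F : Z1 ρ → (GL (Fin n) (ZMod 2) → Matrix (Fin n) (Fin n) (ZMod 2)) × (Fin n → Fin n → X) :=
    fun φ => (fun δ => φ.1 (r δ), fun i j => ⟨fun m => φ.1 m i j, hres φ i j⟩)
  refine Finite.of_injective F ?_
  intro φ ψ h
  apply Subtype.ext
  apply LocallyConstant.ext
  intro g
  have h1 : ∀ δ, φ.1 (r δ) = ψ.1 (r δ) := fun δ => congrFun (congrArg Prod.fst h) δ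
  have h2 : ∀ m ∈ ρ.ker, φ.1 m = ψ.1 m := by
    intro m hm
    ext i j
    have := congrFun (congrFun (congrArg Prod.snd h) i) j
    exact congrFun (congrArg Subtype.val this) ⟨m, hm⟩
  have h3 : (r (ρ g))⁻¹ * g ∈ ρ.ker := by
    rw [MonoidHom.mem_ker, map_mul, map_inv, hr, inv_mul_cancel]
  have h4 : g = r (ρ g) * ((r (ρ g))⁻¹ * g) := by rw [mul_inv_cancel_left]
  rw [h4, φ.2, ψ.2, h1, h2 _ h3]

lemma exists_testPoints {n : ℕ} (ρ : GaloisGroupOutside K S →* GL (Fin n) (ZMod 2))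
    (hρ : IsLocallyConstant ρ) (hS : S.Finite) :
    ∃ (κ : Type) (_ : Finite κ) (γ : κ → GaloisGroupOutside K S), TestPoints ρ γ := by
  have := finite_Z1 ρ hρ hS
  have hex : ∀ φ : {φ : Z1 ρ // φ ≠ 0}, ∃ g, φ.1.1 g ≠ 0 := by
    rintro ⟨φ, hφ⟩
    by_contra hcon
    push Not at hcon
    apply hφ
    apply Subtype.ext
    exact LocallyConstant.ext hcon
  choose γ hγ using hex
  refine ⟨{φ : Z1 ρ // φ ≠ 0}, inferInstance, γ, fun φ hφ h => ?_⟩
  by_contra hcon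
  have h0 : (⟨φ, hφ⟩ : Z1 ρ) ≠ 0 := fun h' => hcon (congrArg Subtype.val h')
  exact hγ ⟨⟨φ, hφ⟩, h0⟩ (h ⟨⟨φ, hφ⟩, h0⟩)

end finite

/-- gauge data for a representation onto `GL_2(𝔽_2)` -/
lemma exists_resGauge {G : Type} [Group G] (ρ : G →* GL (Fin 2) (ZMod 2))
    (h : ∀ σ, ∃ g, ρ g = permGL σ) :
    ∃ w : Fin (1 + 1) → (G →₀ WittVector 2 (ZMod 2)), ResGauge (m := 1) ρ w := by
  obtain ⟨g1, hg1⟩ := h (Equiv.swap 0 1)
  obtain ⟨g2, hg2⟩ := h (Equiv.swap 1 2 * Equiv.swap 0 1)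
  obtain ⟨g3, hg3⟩ := h (Equiv.swap 0 2)
  obtain ⟨g4, hg4⟩ := h 1
  refine ⟨![Finsupp.single g1 1 + Finsupp.single g2 1, Finsupp.single g3 1 + Finsupp.single g4 1],
    ?_⟩
  have key : ∀ (g g' : G) (a b : Fin 2),
      ((Finsupp.single g (1 : WittVector 2 (ZMod 2)) + Finsupp.single g' 1).sum fun g c =>
        WittVector.constantCoeff c * (ρ g : Matrix (Fin 2) (Fin 2) (ZMod 2)) a b) =
      (ρ g : Matrix (Fin 2) (Fin 2) (ZMod 2)) a b +
        (ρ g' : Matrix (Fin 2) (Fin 2) (ZMod 2)) a b := by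
    intro g g' a b
    rw [Finsupp.sum_add_index', Finsupp.sum_single_index, Finsupp.sum_single_index]
    · simp
    · simp
    · simp
    · intro; simp
    · intro _ c d
      rw [map_add, add_mul]
  have e1 : permMat (Equiv.swap 0 1) + permMat (Equiv.swap 1 2 * Equiv.swap 0 1) =
      !![1, 0; 0, 0] := by decide
  have e2 : permMat (Equiv.swap 0 2) + permMat 1 = !![0, 0; 1, 0] := by decide
  intro i a b
  fin_cases i
  · refine (key g1 g2 a b).trans ?_
    rw [hg1, hg2, ← Matrix.add_apply, permGL_coe, permGL_coe, e1]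
    fin_cases a <;> fin_cases b <;> rfl
  · refine (key g3 g4 a b).trans ?_
    rw [hg3, hg4, ← Matrix.add_apply, permGL_coe, permGL_coe, e2]
    fin_cases a <;> fin_cases b <;> rfl

/-- The counterexample with its universal deformation ring. -/
theorem exists_counterexample :
    ∃ (S : Set (HeightOneSpectrum (𝓞 ℚ))) (ρbar : GaloisGroupOutside ℚ S →* GL (Fin 2) (ZMod 2))
      (R : CoeffRing 2 (ZMod 2)) (ρu : GaloisGroupOutside ℚ S →* GL (Fin 2) R),
      S.Finite ∧ (∀ v : HeightOneSpectrum (𝓞 ℚ), (2 : 𝓞 ℚ) ∈ v.asIdeal → v ∈ S) ∧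
      IsLocallyConstant ρbar ∧ AbsolutelyIrreducible ρbar ∧
      IsUniversalDeformation ρbar R ρu ∧ h1 ρbar ≠ ⊤ ∧
      ((h1 ρbar : ℕ∞) : WithBot ℕ∞) + 2 ≤
        krullDimModP 2 R + ((h2 ρbar : ℕ∞) : WithBot ℕ∞) := by
  obtain ⟨T₀, hfin, h2, hT⟩ := exists_residual
  obtain ⟨ρbar, hlc, hsurj, hirr, ⟨D⟩⟩ := hT T₀ (subset_refl _)
  obtain ⟨κ, hκ, γ, hγ⟩ := exists_testPoints ρbar hlc hfin
  obtain ⟨w, hw⟩ := exists_resGauge ρbar hsurj
  obtain ⟨R, ρu, hu⟩ := exists_universal_deformation (m := 1) hlc hγ hw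
  exact ⟨T₀, ρbar, R, ρu, hfin, h2, hlc, hirr, hu, h1_ne_top hlc R hu,
    main_inequality le_rfl hlc D R hu⟩

end Pool.Agent.Helper59
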