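import Pool.Agent.Helper59.Ramified

open NumberField IsDedekindDomain

namespace Pool.Agent.Helper59

variable {K : Type} [Field K] [NumberField K]

lemma unramifiedOutside_of_algEquiv {S : Set (HeightOneSpectrum (𝓞 K))}
    {L L' : IntermediateField K (AlgebraicClosure K)} (e : L ≃ₐ[K] L')
    (h : UnramifiedOutside K S L) : UnramifiedOutside K S L' := by
  intro v hv P' hP' hlie
  let e' : 𝓞 L ≃ₐ[𝓞 K] 𝓞 L' := RingOfIntegers.mapAlgEquiv e
  have hP : (P'.comap (e' : 𝓞 L →+* 𝓞 L')).IsPrime := Ideal.IsPrime.comap _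
  have hl : (P'.comap (e' : 𝓞 L →+* 𝓞 L')).LiesOver v.asIdeal := by
    constructor
    rw [Ideal.over_def P' v.asIdeal]
    ext x
    simp only [Ideal.mem_comap, Ideal.under]
    simp
  have h1 := h v hv _ hP hl
  exact Algebra.FormallyUnramified.of_equiv
    (Localization.localAlgEquiv (P'.comap (e' : 𝓞 L →+* 𝓞 L')) P' e' rfl)

instance normal_maximalUnramifiedOutside (S : Set (HeightOneSpectrum (𝓞 K))) :
    Normal K (maximalUnramifiedOutside K S) := by
  rw [IntermediateField.normal_iff_forall_map_le']
  intro σ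
  rw [maximalUnramifiedOutside, IntermediateField.map_iSup]
  apply iSup_le
  rintro ⟨L, hL1, hL2⟩
  have e : L ≃ₐ[K] L.map (σ : AlgebraicClosure K →ₐ[K] AlgebraicClosure K) :=
    IntermediateField.equivMap L (σ : AlgebraicClosure K →ₐ[K] AlgebraicClosure K)
  refine le_iSup (fun L : {L : IntermediateField K (AlgebraicClosure K) //
    FiniteDimensional K L ∧ UnramifiedOutside K S L} => L.1) ⟨L.map _, ?_, ?_⟩
  · exact e.toLinearEquiv.finiteDimensional
  · exact unramifiedOutside_of_algEquiv e hL2

instance isGalois_maximalUnramifiedOutside (S : Set (HeightOneSpectrum (𝓞 K))) :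
    IsGalois K (maximalUnramifiedOutside K S) := by
  constructor

lemma le_maximalUnramifiedOutside {S : Set (HeightOneSpectrum (𝓞 K))}
    {L : IntermediateField K (AlgebraicClosure K)} (h1 : FiniteDimensional K L)
    (h2 : UnramifiedOutside K S L) : L ≤ maximalUnramifiedOutside K S :=
  le_iSup (fun L : {L : IntermediateField K (AlgebraicClosure K) //
    FiniteDimensional K L ∧ UnramifiedOutside K S L} => L.1) ⟨L, h1, h2⟩

end Pool.Agent.Helper59
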