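import Pool.Agent.Helper59.Limit
import Pool.Agent.Helper59.Deform

set_option linter.unusedSectionVars false

open IsLocalRing Topology
open scoped MatrixGroups

namespace Pool.Agent.Helper59

variable {p : ℕ} [Fact p.Prime] {F : Type} [Field F] [CharP F p] [Finite F] {m : ℕ}

open Polynomial in
lemma exists_eigenvector (A : CoeffRing p F) (X : Matrix (Fin (m + 1)) (Fin (m + 1)) A)
    (hX : ∀ i j, A.residue (X i j) = if i = 0 ∧ j = 0 then 1 else 0) :
    ∃ (l : A) (v : Fin (m + 1) → A), X.mulVec v = l • v ∧
      ∀ i, A.residue (v i) = if i = 0 then 1 else 0 := by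
  classical
  let d : Fin (m + 1) → F := fun i => if i = 0 then 1 else 0
  have hE : X.map A.residue = Matrix.diagonal d := by
    ext i j
    rw [Matrix.map_apply, hX, Matrix.diagonal_apply]
    by_cases hij : i = j
    · subst hij
      by_cases hi : i = 0 <;> simp [d, hi]
    · rw [if_neg hij, if_neg]
      rintro ⟨rfl, rfl⟩
      exact hij rfl
  have hf : X.charpoly.map A.residue = (Polynomial.X - C 1) * Polynomial.X ^ m := by
    rw [← Matrix.charpoly_map, hE, Matrix.charpoly_diagonal, Fin.prod_univ_succ]
    have h0 : d 0 = 1 := by simp [d]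
    have h1 : ∀ i : Fin m, d i.succ = 0 := fun i => by simp [d]
    simp only [h0, h1, map_zero, sub_zero, Finset.prod_const, Finset.card_univ, Fintype.card_fin]
  have h1 : X.charpoly.eval 1 ∈ maximalIdeal A := by
    rw [← A.residue_eq_zero_iff]
    have : A.residue (X.charpoly.eval 1) = (X.charpoly.map A.residue).eval 1 := by
      rw [Polynomial.eval_map, Polynomial.eval₂_at_one]
    rw [this, hf]
    simp
  have h2 : IsUnit (Ideal.Quotient.mk (maximalIdeal A) (X.charpoly.derivative.eval 1)) := by
    have h3 : A.residue (X.charpoly.derivative.eval 1) = 1 := by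
      have : A.residue (X.charpoly.derivative.eval 1) =
          (X.charpoly.map A.residue).derivative.eval 1 := by
        rw [Polynomial.derivative_map, Polynomial.eval_map, Polynomial.eval₂_at_one]
      rw [this, hf]
      simp [Polynomial.derivative_mul]
    apply IsUnit.map
    by_contra hne
    have : X.charpoly.derivative.eval 1 ∈ maximalIdeal A := (mem_maximalIdeal _).2 hne
    rw [← A.residue_eq_zero_iff, h3] at this
    exact one_ne_zero this
  obtain ⟨l, hl, hl1⟩ := HenselianRing.is_henselian (I := maximalIdeal A) X.charpoly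
    X.charpoly_monic 1 h1 h2
  have hdet : (Matrix.scalar (Fin (m + 1)) l - X).det = 0 := by
    rw [← Matrix.eval_charpoly]; exact hl
  set M := Matrix.scalar (Fin (m + 1)) l - X with hM
  have hlres : A.residue l = 1 := by
    rw [← A.residue_eq_zero_iff, map_sub, map_one, sub_eq_zero] at hl1
    exact hl1
  refine ⟨l, fun i => M.adjugate i 0, ?_, ?_⟩
  · have h4 : M * M.adjugate = 0 := by rw [Matrix.mul_adjugate, hdet, zero_smul]
    have h5 : M.mulVec (fun i => M.adjugate i 0) = 0 := by
      funext i
      have : (M * M.adjugate) i 0 = 0 := by rw [h4]; rfl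
      exact this
    have h5' : ∀ v : Fin (m + 1) → A, M.mulVec v = l • v - X.mulVec v := by
      intro v
      rw [hM, Matrix.sub_mulVec]
      congr 1
      funext i
      simp [Matrix.mulVec, dotProduct, Matrix.diagonal_apply, Matrix.scalar_apply]
    rw [h5', sub_eq_zero] at h5
    exact h5.symm
  · intro i
    have h6 : A.residue (M.adjugate i 0) = (M.map A.residue).adjugate i 0 := by
      have := RingHom.map_adjugate A.residue M
      have h7 := congrFun (congrFun this i) 0
      exact h7
    have h8 : M.map A.residue = Matrix.diagonal (fun i => 1 - d i) := by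
      ext a b
      rw [Matrix.map_apply, hM, Matrix.sub_apply, map_sub]
      have h9 : A.residue (X a b) = Matrix.diagonal d a b := by rw [← hE]; rfl
      rw [h9, Matrix.scalar_apply, Matrix.diagonal_apply, Matrix.diagonal_apply,
        Matrix.diagonal_apply]
      by_cases hab : a = b
      · rw [if_pos hab, if_pos hab, if_pos hab, hlres]
      · rw [if_neg hab, if_neg hab, if_neg hab, map_zero, sub_zero]
    rw [h6, h8, Matrix.adjugate_apply]
    by_cases hi : i = 0
    · subst hi
      rw [if_pos rfl]
      have : (Matrix.diagonal (fun i => 1 - d i)).updateRow 0 (Pi.single 0 1) =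
          (1 : Matrix (Fin (m + 1)) (Fin (m + 1)) F) := by
        ext a b
        by_cases ha : a = 0
        · subst ha
          rw [Matrix.updateRow_self, Matrix.one_apply, Pi.single_apply]
          by_cases hb : b = 0
          · subst hb; simp
          · rw [if_neg hb, if_neg (fun h => hb h.symm)]
        · rw [Matrix.updateRow_ne ha, Matrix.diagonal_apply, Matrix.one_apply]
          simp [d, ha]
      rw [this, Matrix.det_one]
    · rw [if_neg hi]
      apply Matrix.det_zero_of_row_eq (i := 0) (j := i) (fun h => hi h.symm)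
      rw [Matrix.updateRow_self, Matrix.updateRow_ne hi]
      funext b
      rw [Matrix.diagonal_apply, Pi.single_apply]
      by_cases hb : b = i
      · subst hb; simp [d, hi]
      · rw [if_neg hb, if_neg (fun h => hb h.symm)]

variable {G : Type} [Group G] [TopologicalSpace G] {ρ : G →* GL (Fin (m + 1)) F}
  {w : Fin (m + 1) → (G →₀ WittVector p F)}

lemma gaugeX_conj {A : Type} [CommRing A] [Algebra (WittVector p F) A]
    (w : G →₀ WittVector p F) (r : G → Matrix (Fin (m + 1)) (Fin (m + 1)) A)
    (B B' : Matrix (Fin (m + 1)) (Fin (m + 1)) A) :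
    gaugeX w (fun g => B * r g * B') = B * gaugeX w r * B' := by
  unfold gaugeX Finsupp.sum
  rw [Finset.mul_sum, Finset.sum_mul]
  apply Finset.sum_congr rfl
  intro g _
  rw [Matrix.mul_smul, Matrix.smul_mul]

lemma map_residue_eq_one_iff (A : CoeffRing p F) {n : ℕ} (B : Matrix (Fin n) (Fin n) A) :
    (∀ i j, (B - 1) i j ∈ maximalIdeal A) ↔ B.map A.residue = 1 := by
  constructor
  · intro h
    ext i j
    have := h i j
    rw [← A.residue_eq_zero_iff, Matrix.sub_apply, map_sub, sub_eq_zero] at this
    rw [Matrix.map_apply, this, Matrix.one_apply, Matrix.one_apply]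
    split_ifs <;> simp
  · intro h i j
    rw [← A.residue_eq_zero_iff, Matrix.sub_apply, map_sub]
    have h1 : A.residue (B i j) = (1 : Matrix (Fin n) (Fin n) F) i j := by rw [← h]; rfl
    rw [h1, Matrix.one_apply, Matrix.one_apply]
    split_ifs <;> simp

/-- Every lift can be conjugated into gauge-fixed form. -/
theorem gauge_exists (A : CoeffRing p F) (ρA : G →* GL (Fin (m + 1)) A)
    (hred : ∀ g, (ρA g : Matrix (Fin (m + 1)) (Fin (m + 1)) A).map A.residue =
      (ρ g : Matrix (Fin (m + 1)) (Fin (m + 1)) F)) (hw : ResGauge ρ w) :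
    ∃ B : GL (Fin (m + 1)) A,
      (∀ i j, ((B : Matrix (Fin (m + 1)) (Fin (m + 1)) A) - 1) i j ∈ maximalIdeal A) ∧
      Gauge w (⊥ : Ideal A) (fun g =>
        ((B * ρA g * B⁻¹ : GL (Fin (m + 1)) A) : Matrix (Fin (m + 1)) (Fin (m + 1)) A)) := by
  classical
  set r : G → Matrix (Fin (m + 1)) (Fin (m + 1)) A := fun g => ρA g with hr
  have hX : ∀ i a b, A.residue (gaugeX (w i) r a b) = if a = i ∧ b = 0 then 1 else 0 := by
    intro i a b
    rw [residue_gaugeX A (w i) r hred, hw]
  obtain ⟨l, v, hv, hvres⟩ := exists_eigenvector A (gaugeX (w 0) r) (hX 0)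
  let b : Matrix (Fin (m + 1)) (Fin (m + 1)) A := fun i j =>
    if j = 0 then v i else (gaugeX (w j) r).mulVec v i
  have hbres : b.map A.residue = 1 := by
    ext i j
    rw [Matrix.map_apply, Matrix.one_apply]
    change A.residue (if j = 0 then v i else (gaugeX (w j) r).mulVec v i) = _
    by_cases hj : j = 0
    · rw [if_pos hj, hvres, hj]
    · rw [if_neg hj, Matrix.mulVec, dotProduct, map_sum]
      have : ∀ k, A.residue (gaugeX (w j) r i k * v k) =
          if k = 0 then (if i = j then 1 else 0) else 0 := by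
        intro k
        rw [map_mul, hX, hvres]
        by_cases hk : k = 0 <;> by_cases hi : i = j <;> simp [hk, hi]
      simp only [this, Finset.sum_ite_eq', Finset.mem_univ, if_true]
  have hbu : IsUnit b := by
    apply isUnit_of_residue A b
    rw [hbres]
    exact isUnit_one
  obtain ⟨bu, hbu'⟩ := hbu
  have hbinv : ((bu⁻¹ : GL (Fin (m + 1)) A) : Matrix (Fin (m + 1)) (Fin (m + 1)) A) * b = 1 := by
    rw [← hbu', ← Units.val_mul, inv_mul_cancel, Units.val_one]
  refine ⟨bu⁻¹, ?_, ?_⟩
  · rw [map_residue_eq_one_iff]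
    have h1 : (((bu⁻¹ : GL (Fin (m + 1)) A) : Matrix (Fin (m + 1)) (Fin (m + 1)) A) * b).map
        A.residue = 1 := by
      rw [hbinv]
      exact Matrix.map_one _ (map_zero _) (map_one _)
    rw [Matrix.map_mul, hbres, mul_one] at h1
    exact h1
  · have hconj : (fun g => ((bu⁻¹ * ρA g * (bu⁻¹)⁻¹ : GL (Fin (m + 1)) A) :
        Matrix (Fin (m + 1)) (Fin (m + 1)) A)) = fun g =>
        ((bu⁻¹ : GL (Fin (m + 1)) A) : Matrix (Fin (m + 1)) (Fin (m + 1)) A) * r g * b := by
      funext g
      rw [inv_inv, Units.val_mul, Units.val_mul, hbu']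
    rw [hconj]
    intro i j hij
    rw [gaugeX_conj, Ideal.mem_bot, sub_eq_zero]
    have hcol : ∀ a : Matrix (Fin (m + 1)) (Fin (m + 1)) A, (a * b) j 0 = a.mulVec v j := by
      intro a
      rw [Matrix.mul_apply]
      apply Finset.sum_congr rfl
      intro k _
      change _ * (if (0 : Fin (m + 1)) = 0 then v k else _) = _
      rw [if_pos rfl]
    rw [hcol, ← Matrix.mulVec_mulVec]
    have hinvcol : ∀ c, ((bu⁻¹ : GL (Fin (m + 1)) A) :
        Matrix (Fin (m + 1)) (Fin (m + 1)) A).mulVec (fun a => b a c) =
        fun a => (1 : Matrix (Fin (m + 1)) (Fin (m + 1)) A) a c := by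
      intro c
      funext a
      rw [← hbinv]
      rfl
    by_cases hi : i = 0
    · subst hi
      have hj : j ≠ 0 := fun h => hij ⟨rfl, h⟩
      have hv0 : v = fun a => b a 0 := by
        funext a
        change v a = if (0 : Fin (m + 1)) = 0 then v a else _
        rw [if_pos rfl]
      rw [hv, Matrix.mulVec_smul, hv0, hinvcol]
      simp [Matrix.one_apply, hj, Ne.symm hj]
    · have h2 : (gaugeX (w i) r).mulVec v = fun a => b a i := by
        funext a
        change _ = if i = 0 then v a else _
        rw [if_neg hi]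
      rw [h2, hinvcol]
      simp only [Matrix.one_apply]
      by_cases hji : j = i
      · subst hji; rfl
      · rw [if_neg hji, if_neg (fun h => hji h.symm)]

/-- Gauge-fixed lifts which are strictly equivalent are equal. -/
theorem gauge_unique (A : CoeffRing p F) (ρ₁ ρ₂ : G →* GL (Fin (m + 1)) A)
    (hred : ∀ g, (ρ₂ g : Matrix (Fin (m + 1)) (Fin (m + 1)) A).map A.residue =
      (ρ g : Matrix (Fin (m + 1)) (Fin (m + 1)) F)) (hw : ResGauge ρ w)
    (h1 : Gauge w (⊥ : Ideal A) fun g => (ρ₁ g : Matrix (Fin (m + 1)) (Fin (m + 1)) A))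
    (h2 : Gauge w (⊥ : Ideal A) fun g => (ρ₂ g : Matrix (Fin (m + 1)) (Fin (m + 1)) A))
    (h : StrictlyEquivalent ρ₁ ρ₂) : ρ₁ = ρ₂ := by
  classical
  obtain ⟨B, hB, hconj⟩ := h
  rw [map_residue_eq_one_iff] at hB
  set b : Matrix (Fin (m + 1)) (Fin (m + 1)) A := (B : Matrix (Fin (m + 1)) (Fin (m + 1)) A)
    with hb
  set b' : Matrix (Fin (m + 1)) (Fin (m + 1)) A :=
    ((B⁻¹ : GL (Fin (m + 1)) A) : Matrix (Fin (m + 1)) (Fin (m + 1)) A) with hb'
  have hbb' : b * b' = 1 := by rw [hb, hb', ← Units.val_mul, mul_inv_cancel, Units.val_one]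
  have hb'b : b' * b = 1 := by rw [hb, hb', ← Units.val_mul, inv_mul_cancel, Units.val_one]
  set r : G → Matrix (Fin (m + 1)) (Fin (m + 1)) A := fun g => ρ₂ g with hr
  have hr1 : (fun g => (ρ₁ g : Matrix (Fin (m + 1)) (Fin (m + 1)) A)) = fun g => b * r g * b' := by
    funext g
    rw [hconj g, Units.val_mul, Units.val_mul]
  rw [hr1] at h1
  have hX : ∀ i a b, A.residue (gaugeX (w i) r a b) = if a = i ∧ b = 0 then 1 else 0 := by
    intro i a b
    rw [residue_gaugeX A (w i) r hred, hw]
  -- the first column of `b'`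
  set u : Fin (m + 1) → A := fun a => b' a 0 with hu
  have hb'res : b'.map A.residue = 1 := by
    have h3 : (b' * b).map A.residue = 1 := by
      rw [hb'b]
      exact Matrix.map_one _ (map_zero _) (map_one _)
    rw [Matrix.map_mul, hB, mul_one] at h3
    exact h3
  have hcol : ∀ i j, (b * gaugeX (w i) r * b') j 0 = (b * gaugeX (w i) r).mulVec u j := by
    intro i j
    rfl
  -- `X_i u = b' (X_i' e_0)`
  have hXu : ∀ i, (gaugeX (w i) r).mulVec u =
      b'.mulVec (fun j => (b * gaugeX (w i) r * b') j 0) := by
    intro i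
    have : (fun j => (b * gaugeX (w i) r * b') j 0) = (b * gaugeX (w i) r).mulVec u := rfl
    rw [this, ← Matrix.mulVec_mulVec, Matrix.mulVec_mulVec, hb'b, Matrix.one_mulVec]
  set l := (b * gaugeX (w 0) r * b') 0 0 with hl
  have hX0 : (gaugeX (w 0) r).mulVec u = l • u := by
    rw [hXu 0]
    have : (fun j => (b * gaugeX (w 0) r * b') j 0) = l • Pi.single 0 1 := by
      funext j
      by_cases hj : j = 0
      · subst hj; simp [hl]
      · have h3 := h1 0 j (fun h => hj h.2)
        rw [gaugeX_conj, Ideal.mem_bot, sub_eq_zero, Matrix.one_apply,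
          if_neg (fun h => hj h.symm)] at h3
        rw [h3]
        simp [Pi.single_apply, hj]
    rw [this, Matrix.mulVec_smul, Matrix.mulVec_single_one]
    rfl
  have hlu : IsUnit l := by
    by_contra hne
    have h3 : l ∈ maximalIdeal A := (mem_maximalIdeal _).2 hne
    rw [← A.residue_eq_zero_iff] at h3
    have h4 : ((b * gaugeX (w 0) r * b').map A.residue) 0 0 = 0 := h3
    rw [Matrix.map_mul, Matrix.map_mul, hB, hb'res, one_mul, mul_one, Matrix.map_apply, hX] at h4
    simp at h4
  have hu0 : ∀ j, j ≠ 0 → u j = 0 := by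
    have key : ∀ N j, j ≠ 0 → u j ∈ maximalIdeal A ^ N := by
      intro N
      induction N with
      | zero => intro j _; simp
      | succ N ih =>
        intro j hj
        have h3 := congrFun hX0 j
        rw [Pi.smul_apply, smul_eq_mul, Matrix.mulVec, dotProduct] at h3
        have h4 : l * u j ∈ maximalIdeal A ^ (N + 1) := by
          rw [← h3]
          apply Ideal.sum_mem
          intro k _
          by_cases hk : k = 0
          · subst hk
            have h5 := h2 0 j (fun h => hj h.2)
            rw [Ideal.mem_bot, sub_eq_zero, Matrix.one_apply, if_neg (fun h => hj h.symm)] at h5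
            rw [h5, zero_mul]
            exact Ideal.zero_mem _
          · rw [pow_succ']
            apply Ideal.mul_mem_mul _ (ih k hk)
            rw [← A.residue_eq_zero_iff, hX, if_neg (fun h => hk h.2)]
        exact (Ideal.unit_mul_mem_iff_mem _ hlu).1 h4
    intro j hj
    apply IsHausdorff.haus' (I := maximalIdeal A)
    intro N
    rw [SModEq.zero, smul_eq_mul, Ideal.mul_top]
    exact key N j hj
  have hus : u = u 0 • Pi.single 0 1 := by
    funext j
    by_cases hj : j = 0
    · subst hj; simp
    · rw [hu0 j hj]; simp [Pi.single_apply, hj]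
  -- `u 0 • b = 1`
  have hub : u 0 • b = 1 := by
    ext a i
    rw [Matrix.smul_apply, smul_eq_mul]
    by_cases hi : i = 0
    · subst hi
      have h3 : b.mulVec u = Pi.single 0 1 := by
        funext a
        have : (b * b') a 0 = (1 : Matrix (Fin (m + 1)) (Fin (m + 1)) A) a 0 := by rw [hbb']
        rw [Matrix.one_apply] at this
        rw [Pi.single_apply]
        exact this
      rw [hus, Matrix.mulVec_smul, Matrix.mulVec_single_one] at h3
      have h4 := congrFun h3 a
      rw [Pi.smul_apply, smul_eq_mul, Pi.single_apply] at h4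
      rw [Matrix.one_apply]
      exact h4
    · have h3 : (gaugeX (w i) r).mulVec u = u 0 • Pi.single i 1 := by
        rw [hus, Matrix.mulVec_smul, Matrix.mulVec_single_one]
        congr 1
        · simp
        · funext j
          have h4 := h2 i j (fun h => hi h.1)
          rw [Ideal.mem_bot, sub_eq_zero, Matrix.one_apply] at h4
          rw [Matrix.col_apply, h4, Pi.single_apply]
          by_cases hij : i = j
          · rw [if_pos hij, if_pos hij.symm]
          · rw [if_neg hij, if_neg (fun h => hij h.symm)]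
      have h5 : (b * gaugeX (w i) r * b') a 0 = u 0 * b a i := by
        rw [hcol, ← Matrix.mulVec_mulVec, h3, Matrix.mulVec_smul, Matrix.mulVec_single_one]
        rfl
      have h6 := h1 i a (fun h => hi h.1)
      rw [gaugeX_conj, Ideal.mem_bot, sub_eq_zero, h5] at h6
      rw [h6, Matrix.one_apply, Matrix.one_apply]
      by_cases hia : i = a
      · rw [if_pos hia, if_pos hia.symm]
      · rw [if_neg hia, if_neg (fun h => hia h.symm)]
  have hb'u : b' = u 0 • 1 := by
    calc b' = (u 0 • b) * b' := by rw [hub, one_mul]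
      _ = u 0 • (b * b') := by rw [Matrix.smul_mul]
      _ = u 0 • 1 := by rw [hbb']
  ext1 g
  apply Units.ext
  have h7 : (ρ₁ g : Matrix (Fin (m + 1)) (Fin (m + 1)) A) = b * r g * b' := congrFun hr1 g
  rw [h7, hb'u, Matrix.mul_smul, mul_one, ← Matrix.smul_mul, hub, one_mul]

end Pool.Agent.Helper59
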