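import Pool.Agent.Helper59.Main

set_option linter.unusedSectionVars false

open IsLocalRing
open scoped MatrixGroups

namespace Pool.Agent.Helper59

/-- For an `n × n` matrix `N`, `n ≥ 2`, the entries of `N ^ 2` lie in an ideal generated by
`n ^ 2 - 2` elements. -/
lemma exists_small_generators {P : Type*} [CommRing P] {n : ℕ} (hn : 2 ≤ n)
    (I : Ideal P) (N : Matrix (Fin n) (Fin n) P) (hN : ∀ i j, N i j ∈ I) :
    ∃ S : Finset P, S.card + 2 ≤ n * n ∧ (∀ s ∈ S, s ∈ I) ∧
      ∀ i j, (N * N) i j ∈ Ideal.span (S : Set P) := by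
  classical
  let i0 : Fin n := ⟨0, by omega⟩
  let i1 : Fin n := ⟨1, by omega⟩
  have h01 : i0 ≠ i1 := by
    intro h
    have := congrArg Fin.val h
    simp [i0, i1] at this
  let C : Finset (Fin n) := {i0, i1}
  have hC : C.card = 2 := Finset.card_pair h01
  let E : Finset (Fin n × Fin n) := (C ×ˢ C)ᶜ
  have hE : E.card + 4 = n * n := by
    have h1 := Finset.card_compl_add_card (C ×ˢ C)
    rw [Finset.card_product, hC, Fintype.card_prod, Fintype.card_fin] at h1
    exact h1
  let S : Finset P := E.image (fun q => N q.1 q.2) ∪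
    {N i0 i0 + N i1 i1, N i0 i0 * N i1 i1 - N i0 i1 * N i1 i0}
  have hSE : ∀ i j, ¬ (i ∈ C ∧ j ∈ C) → N i j ∈ Ideal.span (S : Set P) := by
    intro i j hij
    apply Ideal.subset_span
    rw [Finset.mem_coe]
    apply Finset.mem_union_left
    apply Finset.mem_image.2
    refine ⟨(i, j), ?_, rfl⟩
    rw [Finset.mem_compl, Finset.mem_product]
    exact hij
  have htr : N i0 i0 + N i1 i1 ∈ Ideal.span (S : Set P) := by
    apply Ideal.subset_span
    rw [Finset.mem_coe]
    apply Finset.mem_union_right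
    simp
  have hdet : N i0 i0 * N i1 i1 - N i0 i1 * N i1 i0 ∈ Ideal.span (S : Set P) := by
    apply Ideal.subset_span
    rw [Finset.mem_coe]
    apply Finset.mem_union_right
    simp
  refine ⟨S, ?_, ?_, ?_⟩
  · have h1 : S.card ≤ E.card + 2 := by
      refine (Finset.card_union_le _ _).trans ?_
      gcongr
      · exact Finset.card_image_le
      · exact Finset.card_le_two
    omega
  · intro s hs
    rw [Finset.mem_union, Finset.mem_image] at hs
    rcases hs with ⟨q, -, rfl⟩ | hs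
    · exact hN _ _
    · rw [Finset.mem_insert, Finset.mem_singleton] at hs
      rcases hs with rfl | rfl
      · exact Ideal.add_mem _ (hN _ _) (hN _ _)
      · exact Ideal.sub_mem _ (Ideal.mul_mem_right _ _ (hN _ _))
          (Ideal.mul_mem_right _ _ (hN _ _))
  · intro i j
    rw [Matrix.mul_apply]
    by_cases hi : i ∈ C
    · by_cases hj : j ∈ C
      · rw [← Finset.sum_add_sum_compl C]
        apply Ideal.add_mem
        · rw [Finset.sum_pair h01]
          have hi' : i = i0 ∨ i = i1 := by simpa [C] using hi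
          have hj' : j = i0 ∨ j = i1 := by simpa [C] using hj
          rcases hi' with rfl | rfl <;> rcases hj' with rfl | rfl
          · have : N i0 i0 * N i0 i0 + N i0 i1 * N i1 i0 =
                N i0 i0 * (N i0 i0 + N i1 i1) - (N i0 i0 * N i1 i1 - N i0 i1 * N i1 i0) := by ring
            rw [this]
            exact Ideal.sub_mem _ (Ideal.mul_mem_left _ _ htr) hdet
          · have : N i0 i0 * N i0 i1 + N i0 i1 * N i1 i1 =
                N i0 i1 * (N i0 i0 + N i1 i1) := by ring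
            rw [this]
            exact Ideal.mul_mem_left _ _ htr
          · have : N i1 i0 * N i0 i0 + N i1 i1 * N i1 i0 =
                N i1 i0 * (N i0 i0 + N i1 i1) := by ring
            rw [this]
            exact Ideal.mul_mem_left _ _ htr
          · have : N i1 i0 * N i0 i1 + N i1 i1 * N i1 i1 =
                N i1 i1 * (N i0 i0 + N i1 i1) - (N i0 i0 * N i1 i1 - N i0 i1 * N i1 i0) := by ring
            rw [this]
            exact Ideal.sub_mem _ (Ideal.mul_mem_left _ _ htr) hdet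
        · apply Ideal.sum_mem
          intro k hk
          apply Ideal.mul_mem_right
          apply hSE
          rw [Finset.mem_compl] at hk
          exact fun hh => hk hh.2
      · apply Ideal.sum_mem
        intro k _
        apply Ideal.mul_mem_left
        exact hSE _ _ (fun hh => hj hh.2)
    · apply Ideal.sum_mem
      intro k _
      apply Ideal.mul_mem_right
      exact hSE _ _ (fun hh => hi hh.1)

variable {F : Type} [Field F] [CharP F 2] [Finite F] {h n : ℕ}
variable {G : Type} [Group G] [TopologicalSpace G] [IsTopologicalGroup G]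
  {ρ : G →* GL (Fin n) F}

lemma can_pow_eq_zero {R : CoeffRing 2 F} (θ : PS F h →+* Rp R) (hθ : Function.Surjective θ)
    (hθC : ∀ c, θ (MvPowerSeries.C c) = algebraMap F (Rp R) c) {J' : Ideal (PS F h)}
    (hJ : RingHom.ker θ ≤ J') (hJm : J' ≤ maximalIdeal (PS F h)) {N : ℕ}
    (hN : maximalIdeal (PS F h) ^ N ≤ J') (y : R) (hy : y ∈ maximalIdeal R ^ N) :
    can θ hθ hJ y = 0 := by
  have h1 : (maximalIdeal R).map (can θ hθ hJ) ≤
      (maximalIdeal (PS F h)).map (Ideal.Quotient.mk J') := by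
    rw [Ideal.map_le_iff_le_comap]
    intro z hz
    obtain ⟨x, hx⟩ := Ideal.Quotient.mk_surjective (can θ hθ hJ z)
    rw [Ideal.mem_comap, ← hx]
    apply Ideal.mem_map_of_mem
    rw [mem_maximalIdeal_iff, can_residue θ hθ hθC hJ hJm z x hx.symm, R.residue_eq_zero_iff]
    exact hz
  have h2 : can θ hθ hJ y ∈ ((maximalIdeal (PS F h)).map (Ideal.Quotient.mk J')) ^ N := by
    have h3 : can θ hθ hJ y ∈ (maximalIdeal R ^ N).map (can θ hθ hJ) :=
      Ideal.mem_map_of_mem _ hy
    rw [Ideal.map_pow] at h3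
    exact Ideal.pow_right_mono h1 N h3
  rw [← Ideal.map_pow] at h2
  have h4 : (maximalIdeal (PS F h) ^ N).map (Ideal.Quotient.mk J') ≤ ⊥ := by
    rw [Ideal.map_le_iff_le_comap]
    intro z hz
    rw [Ideal.mem_comap, Ideal.mem_bot]
    exact Ideal.Quotient.eq_zero_iff_mem.2 (hN hz)
  exact (Ideal.mem_bot).1 (h4 h2)

theorem main_inequality (hn : 2 ≤ n) (hρ : IsLocallyConstant ρ) (D : RealData ρ)
    (R : CoeffRing 2 F) {ρu : G →* GL (Fin n) R} (hu : IsUniversalDeformation ρ R ρu) :
    ((h1 ρ : ℕ∞) : WithBot ℕ∞) + 2 ≤ ringKrullDim (Rp R) + ((h2 ρ : ℕ∞) : WithBot ℕ∞) := by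
  classical
  obtain ⟨h, θ, hθ, hθcc, hθC, hker, -⟩ := exists_presentation (k := F) (A := Rp R) (Rp_residue R)
  -- a lift of `ρu c - 1`
  have hresc : ∀ i j, ((ρu D.c : Matrix (Fin n) (Fin n) R) - 1) i j ∈ maximalIdeal R := by
    intro i j
    have h1 := hu.isLift.reduction D.c
    rw [D.map_c] at h1
    have h2 := congrFun (congrFun h1 i) j
    rw [Matrix.map_apply] at h2
    rw [← R.residue_eq_zero_iff, Matrix.sub_apply, map_sub, h2, Units.val_one, Matrix.one_apply,
      Matrix.one_apply]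
    split_ifs <;> simp
  have hex : ∀ i j, ∃ x ∈ maximalIdeal (PS F h), θ x =
      Ideal.Quotient.mk _ (((ρu D.c : Matrix (Fin n) (Fin n) R) - 1) i j) := by
    intro i j
    obtain ⟨x, hx⟩ := hθ (Ideal.Quotient.mk _ (((ρu D.c : Matrix (Fin n) (Fin n) R) - 1) i j))
    refine ⟨x, ?_, hx⟩
    have h1 : can θ hθ (J' := maximalIdeal (PS F h))
        (hker.trans (Ideal.pow_le_self two_ne_zero)) (((ρu D.c : Matrix (Fin n) (Fin n) R) - 1) i j)
        = Ideal.Quotient.mk _ x := can_apply_of_eq θ hθ _ _ x hx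
    rw [mem_maximalIdeal_iff, can_residue θ hθ hθC _ le_rfl _ x h1, R.residue_eq_zero_iff]
    exact hresc i j
  have hex2 : ∃ Nt : Matrix (Fin n) (Fin n) (PS F h),
      (∀ i j, Nt i j ∈ maximalIdeal (PS F h)) ∧ ∀ i j, θ (Nt i j) =
        Ideal.Quotient.mk _ (((ρu D.c : Matrix (Fin n) (Fin n) R) - 1) i j) := by
    choose Nt0 h1 h2 using hex
    exact ⟨Nt0, h1, h2⟩
  obtain ⟨Nt, hNm, hNθ⟩ := hex2
  have hNθ' : Matrix.map Nt θ = ((ρu D.c : Matrix (Fin n) (Fin n) R) - 1).map
      (Ideal.Quotient.mk (Ideal.span {((2 : ℕ) : R)})) := by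
    ext i j
    exact hNθ i j
  have hNN : ∀ i j, ((Nt : Matrix (Fin n) (Fin n) (PS F h)) * Nt) i j ∈ RingHom.ker θ := by
    intro i j
    rw [RingHom.mem_ker]
    have h1 : ((Nt : Matrix (Fin n) (Fin n) (PS F h)) * Nt).map θ = 0 := by
      rw [Matrix.map_mul, hNθ', ← Matrix.map_mul]
      have h2 : ((ρu D.c : Matrix (Fin n) (Fin n) R) - 1) *
          ((ρu D.c : Matrix (Fin n) (Fin n) R) - 1) =
          ((2 : ℕ) : R) • (1 - (ρu D.c : Matrix (Fin n) (Fin n) R)) := by
        have h3 : (ρu D.c : Matrix (Fin n) (Fin n) R) * (ρu D.c : Matrix (Fin n) (Fin n) R) =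
            1 := by
          rw [← Units.val_mul, ← map_mul, D.c_mul_c, map_one, Units.val_one]
        have h4 : ((ρu D.c : Matrix (Fin n) (Fin n) R) - 1) *
          ((ρu D.c : Matrix (Fin n) (Fin n) R) - 1) =
          (ρu D.c : Matrix (Fin n) (Fin n) R) * (ρu D.c : Matrix (Fin n) (Fin n) R) -
            (ρu D.c : Matrix (Fin n) (Fin n) R) - (ρu D.c : Matrix (Fin n) (Fin n) R) + 1 := by
          noncomm_ring
        rw [h4, h3, Nat.cast_ofNat, two_smul]
        abel
      rw [h2]
      ext a b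
      rw [Matrix.map_apply, Matrix.smul_apply, smul_eq_mul, map_mul]
      have h5 : Ideal.Quotient.mk (Ideal.span {((2 : ℕ) : R)}) ((2 : ℕ) : R) = 0 :=
        Ideal.Quotient.eq_zero_iff_mem.2 (Ideal.mem_span_singleton_self _)
      rw [h5, zero_mul]
      rfl
    exact congrFun (congrFun h1 i) j
  obtain ⟨S, hScard, hSm, hSNN⟩ := exists_small_generators hn (maximalIdeal (PS F h)) Nt hNm
  obtain ⟨N, hN1, hN⟩ := exists_artin_rees (RingHom.ker θ)
  set J := RingHom.ker θ with hJ
  set nn : Ideal (PS F h) := Ideal.span (Set.range fun q : Fin n × Fin n =>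
    ((Nt : Matrix (Fin n) (Fin n) (PS F h)) * Nt) q.1 q.2) with hnn
  have hnnJ : nn ≤ J := by
    rw [hnn, Ideal.span_le]
    rintro _ ⟨q, rfl⟩
    exact hNN q.1 q.2
  have hnnS : nn ≤ Ideal.span (S : Set (PS F h)) := by
    rw [hnn, Ideal.span_le]
    rintro _ ⟨q, rfl⟩
    exact (hSNN q.1 q.2 :)
  set J' : Ideal (PS F h) := J ⊔ maximalIdeal (PS F h) ^ N with hJ'
  set K : Ideal (PS F h) := maximalIdeal (PS F h) * J ⊔ maximalIdeal (PS F h) ^ N ⊔ nn with hK
  have hJm : J ≤ maximalIdeal (PS F h) := hker.trans (Ideal.pow_le_self two_ne_zero)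
  have hmNm : maximalIdeal (PS F h) ^ N ≤ maximalIdeal (PS F h) :=
    Ideal.pow_le_self (by omega)
  have hJJ' : J ≤ J' := le_sup_left
  have hJ'm : J' ≤ maximalIdeal (PS F h) := sup_le hJm hmNm
  have hNK : maximalIdeal (PS F h) ^ N ≤ K := le_sup_right.trans le_sup_left
  have hmJK : maximalIdeal (PS F h) * J ≤ K := le_sup_left.trans le_sup_left
  have hnnK : nn ≤ K := le_sup_right
  have hKJ : K ≤ J' :=
    sup_le (sup_le (Ideal.mul_le_right.trans hJJ') le_sup_right) (hnnJ.trans hJJ')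
  have hmJ : maximalIdeal (PS F h) * J' ≤ K := by
    rw [hJ', Ideal.mul_sup]
    exact sup_le hmJK (Ideal.mul_le_right.trans hNK)
  have hgen : J' ≤ J ⊔ K := sup_le le_sup_left (hNK.trans le_sup_right)
  have hfd : FiniteDimensional F (QSp J' K) := finite_QSp J' K hKJ hmJ
  -- the section
  have hsec : ∀ M : Matrix (Fin n) (Fin n) (PS F h ⧸ J'), ∃ M' : Matrix (Fin n) (Fin n) (PS F h),
      M'.map (Ideal.Quotient.mk J') = M ∧ (M = 1 → M' = 1) := by
    intro M
    by_cases hM : M = 1
    · refine ⟨1, ?_, fun _ => rfl⟩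
      rw [hM]
      ext i j
      rw [Matrix.map_apply, Matrix.one_apply, Matrix.one_apply]
      split_ifs <;> simp
    · refine ⟨fun i j => (M i j).out, ?_, fun h' => absurd h' hM⟩
      ext i j
      exact Ideal.Quotient.mk_out _
  choose sec hsec1 hsec2 using hsec
  let t : G → Matrix (Fin n) (Fin n) (PS F h) := fun g =>
    sec ((ρu g : Matrix (Fin n) (Fin n) R).map (can θ hθ hJJ'))
  have hcanker : ∀ a ∈ maximalIdeal R ^ N, can θ hθ hJJ' a = 0 := fun a ha =>
    can_pow_eq_zero θ hθ hθC hJJ' hJ'm le_sup_right a ha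
  have htlc : IsLocallyConstant t := by
    have h1 := (hu.isLift.continuous N).comp
      (fun w : Matrix (Fin n) (Fin n) (R ⧸ maximalIdeal R ^ N) =>
        sec (w.map (Ideal.Quotient.lift (maximalIdeal R ^ N) (can θ hθ hJJ') hcanker)))
    exact h1
  have ht1 : t 1 = 1 := by
    apply hsec2
    rw [map_one, Units.val_one]
    ext i j
    rw [Matrix.map_apply, Matrix.one_apply, Matrix.one_apply]
    split_ifs <;> simp
  have htred : ∀ g, (t g).map (Ideal.Quotient.mk J') =
      (ρu g : Matrix (Fin n) (Fin n) R).map (can θ hθ hJJ') := fun g => hsec1 _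
  have hNred : (1 + (Nt : Matrix (Fin n) (Fin n) (PS F h))).map (Ideal.Quotient.mk J') =
      (ρu D.c : Matrix (Fin n) (Fin n) R).map (can θ hθ hJJ') := by
    ext i j
    rw [Matrix.map_apply, Matrix.map_apply]
    symm
    apply can_apply_of_eq θ hθ hJJ'
    rw [Matrix.add_apply, map_add, hNθ i j, Matrix.sub_apply, map_sub, Matrix.one_apply,
      Matrix.one_apply]
    split_ifs <;> simp
  have hNNK : ∀ i j, ((Nt : Matrix (Fin n) (Fin n) (PS F h)) * Nt) i j ∈ K := fun i j =>
    hnnK (Ideal.subset_span ⟨(i, j), rfl⟩)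
  have hadd := add_le_h2 hρ D R hu θ hθ hθC hker hJJ' hJ'm hKJ hmJ hgen t htlc ht1 htred Nt hNm
    hNred hNNK
  have hh1 := h1_le hρ R hu θ hθ hθC hθcc
  -- generators of `J`
  set r := Module.finrank F (QSp J' K) with hr
  let bas := Module.finBasis F (QSp J' K)
  have hrep : ∀ l, ∃ x : PS F h, ∃ hx : x ∈ J, (Submodule.Quotient.mk ⟨x, hJJ' hx⟩ : QSp J' K) =
      bas l := by
    intro l
    obtain ⟨⟨x, hx⟩, hxl⟩ := Submodule.Quotient.mk_surjective _ (bas l)
    have hx' : x ∈ J ⊔ K := hgen hx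
    obtain ⟨y, hy, z, hz, hyz⟩ := Submodule.mem_sup.1 hx'
    refine ⟨y, hy, ?_⟩
    rw [← hxl, Submodule.Quotient.eq]
    change y - x ∈ K
    rw [← hyz, sub_add_cancel_left]
    exact (Ideal.neg_mem_iff _).2 hz
  choose fl hflJ hfl using hrep
  set aa : Ideal (PS F h) := Ideal.span (Set.range fl) ⊔ nn with haa
  have hJaa : J ≤ aa := by
    apply Submodule.le_of_le_smul_of_le_jacobson_bot (I := maximalIdeal (PS F h))
      (IsNoetherian.noetherian J) (IsLocalRing.maximalIdeal_le_jacobson _)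
    intro x hx
    -- write the class of `x` in the basis
    have h1 := bas.sum_repr (Submodule.Quotient.mk ⟨x, hJJ' hx⟩ : QSp J' K)
    set cf := bas.repr (Submodule.Quotient.mk ⟨x, hJJ' hx⟩ : QSp J' K) with hcf
    let flJ : Fin r → ↥(J'.restrictScalars F) := fun l => ⟨fl l, hJJ' (hflJ l)⟩
    have h2 : (Submodule.Quotient.mk (∑ l, cf l • flJ l) : QSp J' K) =
        Submodule.Quotient.mk ⟨x, hJJ' hx⟩ := by
      rw [← h1]
      rw [← Submodule.mkQ_apply, map_sum]
      apply Finset.sum_congr rfl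
      intro l _
      rw [map_smul, ← hfl l]
      rfl
    rw [Submodule.Quotient.eq] at h2
    have h3 : ((∑ l, cf l • flJ l : ↥(J'.restrictScalars F)) : PS F h) =
        ∑ l, cf l • fl l := by
      rw [Submodule.coe_sum]
      rfl
    have h4 : (∑ l, cf l • fl l) - x ∈ K := by
      rw [← h3]
      exact h2
    have h5 : (∑ l, cf l • fl l) ∈ Ideal.span (Set.range fl) := by
      apply Ideal.sum_mem
      intro l _
      rw [MvPowerSeries.smul_eq_C_mul]
      exact Ideal.mul_mem_left _ _ (Ideal.subset_span ⟨l, rfl⟩)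
    have h5J : (∑ l, cf l • fl l) ∈ J := by
      have : Ideal.span (Set.range fl) ≤ J := by
        rw [Ideal.span_le]
        rintro _ ⟨l, rfl⟩
        exact hflJ l
      exact this h5
    obtain ⟨u, hu1, v, hv, huv⟩ := Submodule.mem_sup.1 h4
    obtain ⟨a, ha, b, hb, hab⟩ := Submodule.mem_sup.1 hu1
    have hbJ : b ∈ J := by
      have : b = ((∑ l, cf l • fl l) - x) - v - a := by rw [← huv, ← hab]; ring
      rw [this]
      exact Ideal.sub_mem _ (Ideal.sub_mem _ (Ideal.sub_mem _ h5J hx) (hnnJ hv))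
        (Ideal.mul_le_right ha)
    have hbm : b ∈ maximalIdeal (PS F h) * J := hN ⟨hbJ, hb⟩
    have hxeq : x = ((∑ l, cf l • fl l) - v) - (a + b) := by
      rw [hab]
      have : (∑ l, cf l • fl l) = u + v + x := by rw [huv]; ring
      rw [this]; ring
    rw [hxeq]
    apply Submodule.sub_mem
    · apply Submodule.mem_sup_left
      apply Submodule.sub_mem
      · exact Submodule.mem_sup_left h5
      · exact Submodule.mem_sup_right hv
    · apply Submodule.mem_sup_right
      rw [smul_eq_mul]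
      exact Ideal.add_mem _ ha hbm
  let St : Finset (PS F h) := S ∪ Finset.univ.image fl
  have haaSt : aa ≤ Ideal.span (St : Set (PS F h)) := by
    apply sup_le
    · rw [Ideal.span_le]
      rintro _ ⟨l, rfl⟩
      apply Ideal.subset_span
      simp [St]
    · refine hnnS.trans (Ideal.span_mono ?_)
      intro s hs
      simp only [St, Finset.coe_union]
      exact Or.inl hs
  have hStcard : St.card + 2 ≤ n * n + r := by
    have h1 : St.card ≤ S.card + (Finset.univ.image fl).card := Finset.card_union_le _ _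
    have h2 : (Finset.univ.image fl).card ≤ r := Finset.card_image_le.trans (by simp [hr])
    omega
  have hStm : (St : Set (PS F h)) ⊆ Ring.jacobson (PS F h) := by
    rw [IsLocalRing.ringJacobson_eq_maximalIdeal]
    intro s hs
    rw [Finset.mem_coe, Finset.mem_union] at hs
    rcases hs with hs | hs
    · exact hSm s hs
    · obtain ⟨l, -, rfl⟩ := Finset.mem_image.1 hs
      exact hJm (hflJ l)
  have hdim1 := ringKrullDim_le_ringKrullDim_quotient_add_card St hStm
  have hdim2 : ringKrullDim (PS F h ⧸ Ideal.span (St : Set (PS F h))) ≤ ringKrullDim (Rp R) := by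
    refine ringKrullDim_le_of_surjective (kap θ hθ (hJaa.trans haaSt)) ?_
    intro z
    obtain ⟨x, rfl⟩ := Ideal.Quotient.mk_surjective z
    exact ⟨θ x, kap_apply θ hθ _ x⟩
  have hdim3 := le_ringKrullDim_mvPowerSeries (k := F) h
  have hd : ((h : ℕ∞) : WithBot ℕ∞) ≤ ringKrullDim (Rp R) + ((St.card : ℕ∞) : WithBot ℕ∞) := by
    have h1 := hdim3.trans (hdim1.trans (add_le_add hdim2 le_rfl))
    exact_mod_cast h1
  have hc : ((St.card : ℕ∞) : WithBot ℕ∞) + 2 ≤ ((h2 ρ : ℕ∞) : WithBot ℕ∞) := by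
    have h1 : ((St.card + 2 : ℕ) : ℕ∞) ≤ h2 ρ := by
      refine le_trans ?_ hadd
      have : (St.card + 2 : ℕ) ≤ r + n * n := by omega
      exact Nat.cast_le.2 this
    have e : (((St.card + 2 : ℕ) : ℕ∞) : WithBot ℕ∞) = ((St.card : ℕ∞) : WithBot ℕ∞) + 2 := by
      push_cast
      rfl
    rw [← e]
    exact WithBot.coe_le_coe.2 h1
  calc ((h1 ρ : ℕ∞) : WithBot ℕ∞) + 2 ≤ ((h : ℕ∞) : WithBot ℕ∞) + 2 :=
        add_le_add (WithBot.coe_le_coe.2 hh1) le_rfl
    _ ≤ (ringKrullDim (Rp R) + ((St.card : ℕ∞) : WithBot ℕ∞)) + 2 := add_le_add hd le_rfl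
    _ = ringKrullDim (Rp R) + (((St.card : ℕ∞) : WithBot ℕ∞) + 2) := add_assoc _ _ _
    _ ≤ ringKrullDim (Rp R) + ((h2 ρ : ℕ∞) : WithBot ℕ∞) := add_le_add le_rfl hc

end Pool.Agent.Helper59
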