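import Pool.Agent.Helper59.SquareRoots
import Pool.Agent.Helper59.Galois
import Pool.Agent.Helper59.MainIneq

open Topology ComplexConjugate NumberField IsDedekindDomain

namespace Pool.Agent.Helper59

/-- `G_{K,T}` -/
abbrev GalT (K : Type) [Field K] [NumberField K] (T : Set (HeightOneSpectrum (𝓞 K))) : Type :=
  Gal((maximalUnramifiedOutside K T)/K)

/-- The restriction map `Gal(K̄/K) → G_{K,T}`. -/
noncomputable abbrev resT (K : Type) [Field K] [NumberField K] (T : Set (HeightOneSpectrum (𝓞 K))) :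
    Gal(AlgebraicClosure K/K) →* GalT K T :=
  AlgEquiv.restrictNormalHom (maximalUnramifiedOutside K T)

lemma finite_above_two (K : Type) [Field K] [NumberField K] :
    {v : HeightOneSpectrum (𝓞 K) | (2 : 𝓞 K) ∈ v.asIdeal}.Finite := by
  have h : (Ideal.span {(2 : 𝓞 K)}) ≠ ⊥ := by
    rw [Ne, Ideal.span_singleton_eq_bot]
    exact two_ne_zero
  refine (Ideal.finite_factors h).subset ?_
  intro v hv
  have hv' : (2 : 𝓞 K) ∈ v.asIdeal := hv
  change v.asIdeal ∣ Ideal.span {(2 : 𝓞 K)}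
  rw [Ideal.dvd_span_singleton]
  exact hv'

theorem exists_finite_set {K : Type} [Field K] [NumberField K] {F : Type} [Field F] [Finite F]
    [CharP F 2] {n : ℕ}
    (ρ : Gal(AlgebraicClosure K/K) →* GL (Fin n) F) (hρ : IsLocallyConstant ρ)
    (ι : AlgebraicClosure K →+* ℂ) (c : Gal(AlgebraicClosure K/K))
    (hc : ∀ x, ι (c x) = conj (ι x)) (hρc : ρ c = 1) :
    ∃ T₀ : Set (HeightOneSpectrum (𝓞 K)), T₀.Finite ∧
      (∀ v : HeightOneSpectrum (𝓞 K), (2 : 𝓞 K) ∈ v.asIdeal → v ∈ T₀) ∧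
      ∀ T, T₀ ⊆ T → ∃ ρT : GalT K T →* GL (Fin n) F,
        (∀ σ, ρT (resT K T σ) = ρ σ) ∧ IsLocallyConstant ρT ∧ Nonempty (RealData ρT) := by
  obtain ⟨θ, hθ⟩ := exists_theta ρ hρ
  obtain ⟨s, hs0, hs1, hs2, hs3⟩ := exists_squareRoots ρ hρ ι c hc hρc
  set M : IntermediateField K (AlgebraicClosure K) :=
    IntermediateField.adjoin K (insert θ (Set.range s)) with hM
  have hθM : θ ∈ M := IntermediateField.subset_adjoin _ _ (Set.mem_insert _ _)
  have hsM : ∀ δ, s δ ∈ M := fun δ =>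
    IntermediateField.subset_adjoin _ _ (Set.mem_insert_of_mem _ ⟨δ, rfl⟩)
  have hMfd : FiniteDimensional K M := by
    apply IntermediateField.finiteDimensional_adjoin
    intro x _
    exact Algebra.IsIntegral.isIntegral x
  refine ⟨{v | ¬ Algebra.IsUnramifiedIn (𝓞 M) v.asIdeal} ∪ {v | (2 : 𝓞 K) ∈ v.asIdeal},
    (finite_ramified K M).union (finite_above_two K), fun v hv => Or.inr hv, fun T hT => ?_⟩
  have hMT : M ≤ maximalUnramifiedOutside K T := by
    apply le_maximalUnramifiedOutside hMfd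
    intro v hv
    by_contra hcon
    exact hv (hT (Or.inl hcon))
  have hsurj : Function.Surjective (resT K T) :=
    AlgEquiv.restrictNormalHom_surjective (AlgebraicClosure K)
  have hker : (resT K T).ker ≤ ρ.ker := by
    intro σ hσ
    rw [MonoidHom.mem_ker] at hσ ⊢
    rw [← hθ]
    have h1 := AlgEquiv.restrictNormal_commutes σ (maximalUnramifiedOutside K T) ⟨θ, hMT hθM⟩
    change algebraMap _ _ ((resT K T σ) ⟨θ, hMT hθM⟩) = _ at h1
    rw [hσ] at h1
    exact h1.symm
  let ρT : GalT K T →* GL (Fin n) F :=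
    MonoidHom.liftOfSurjective (resT K T) hsurj ⟨ρ, hker⟩
  have hρT : ∀ σ, ρT (resT K T σ) = ρ σ := fun σ =>
    MonoidHom.liftOfRightInverse_comp_apply _ _ _ ⟨ρ, hker⟩ σ
  have hres : ∀ (σ : Gal(AlgebraicClosure K/K)) (x : maximalUnramifiedOutside K T),
      ((resT K T σ x : maximalUnramifiedOutside K T) : AlgebraicClosure K) = σ x := fun σ x =>
    AlgEquiv.restrictNormal_commutes σ (maximalUnramifiedOutside K T) x
  have hlc : IsLocallyConstant ρT := by
    rw [IsLocallyConstant.iff_eventually_eq]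
    intro g0
    have h1 := (IsLocallyConstant.iff_eventually_eq _).1
      (isLocallyConstant_apply (K := K) (⟨θ, hMT hθM⟩ : maximalUnramifiedOutside K T)) g0
    filter_upwards [h1] with g hg
    obtain ⟨σ0, rfl⟩ := hsurj g0
    obtain ⟨σ, rfl⟩ := hsurj g
    rw [hρT, hρT]
    have h2 : σ θ = σ0 θ := by
      have := congrArg Subtype.val hg
      rw [hres, hres] at this
      exact this
    have h3 : (σ0⁻¹ * σ) θ = θ := by
      change σ0⁻¹ (σ θ) = θ
      rw [h2, ← AlgEquiv.mul_apply, inv_mul_cancel]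
      rfl
    rw [hθ, map_mul, map_inv, inv_mul_eq_one] at h3
    exact h3.symm
  refine ⟨ρT, hρT, hlc, ⟨realDataOfSquareRoots ρT hlc two_ne_zero
    (fun δ => ⟨s δ, hMT (hsM δ)⟩) ?_ ?_ (resT K T c) ?_ ?_ ?_ ?_⟩⟩
  · intro δ h
    exact hs0 δ (congrArg Subtype.val h)
  · intro g δ
    obtain ⟨σ, rfl⟩ := hsurj g
    apply Subtype.ext
    push_cast
    rw [hres, hρT]
    exact hs1 σ δ
  · rw [← map_mul]
    have : c * c = 1 := by
      ext x
      apply ι.injective
      change ι (c (c x)) = ι x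
      rw [hc, hc, Complex.conj_conj]
    rw [this, map_one]
  · rw [hρT, hρc]
  · apply Subtype.ext
    push_cast
    rw [hres]
    exact hs2
  · intro δ hδ
    apply Subtype.ext
    rw [hres]
    exact hs3 δ hδ

end Pool.Agent.Helper59
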