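import Pool.Agent.Helper59.Galois

open NumberField IsDedekindDomain
open scoped Pointwise

namespace Pool.Agent.Helper59

section tower

variable (K E M : Type) [Field K] [NumberField K] [Field E] [NumberField E] [Field M]
  [NumberField M] [Algebra K E] [Algebra E M] [Algebra K M] [IsScalarTower K E M]

lemma isGaloisGroup_ringOfIntegers [IsGalois K M] :
    IsGaloisGroup Gal(M/K) (𝓞 K) (𝓞 M) :=
  IsGaloisGroup.of_isFractionRing Gal(M/K) (𝓞 K) (𝓞 M) K M

lemma card_inertia [IsGalois K M] (P : Ideal (𝓞 M)) [P.IsPrime] :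
    Nat.card (P.inertia Gal(M/K)) = P.ramificationIdx (𝓞 K) := by
  have := isGaloisGroup_ringOfIntegers K M
  rw [Ideal.card_inertia_eq_ramificationIdxIn (P.under (𝓞 K)) P,
    Ideal.ramificationIdxIn_eq_ramificationIdx (P.under (𝓞 K)) P Gal(M/K)]

lemma ramificationIdx_tower_int (P : Ideal (𝓞 M)) [P.IsPrime] :
    P.ramificationIdx (𝓞 K) = (P.under (𝓞 E)).ramificationIdx (𝓞 K) * P.ramificationIdx (𝓞 E) :=
  Ideal.ramificationIdx_tower (P.under (𝓞 E)) P

/-- restriction of scalars on Galois groups -/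
def resSc : Gal(M/E) →* Gal(M/K) where
  toFun σ := σ.restrictScalars K
  map_one' := rfl
  map_mul' _ _ := rfl

lemma resSc_injective : Function.Injective (resSc K E M) := by
  intro σ τ h
  ext x
  exact DFunLike.congr_fun h x

lemma map_inertia_le (P : Ideal (𝓞 M)) :
    (P.inertia Gal(M/E)).map (resSc K E M) ≤ P.inertia Gal(M/K) := by
  rintro _ ⟨σ, hσ, rfl⟩
  intro x
  exact hσ x

lemma card_map_inertia (P : Ideal (𝓞 M)) :
    Nat.card ((P.inertia Gal(M/E)).map (resSc K E M)) = Nat.card (P.inertia Gal(M/E)) :=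
  (Nat.card_congr ((P.inertia Gal(M/E)).equivMapOfInjective _ (resSc_injective K E M)).toEquiv).symm

/-- If `P ∩ 𝓞_E` is unramified over `K`, the inertia group of `P` acts trivially on `E`. -/
lemma inertia_fixes [IsGalois K M] (P : Ideal (𝓞 M)) [P.IsPrime]
    (h : (P.under (𝓞 E)).ramificationIdx (𝓞 K) = 1) (σ : Gal(M/K)) (hσ : σ ∈ P.inertia Gal(M/K))
    (x : E) : σ (algebraMap E M x) = algebraMap E M x := by
  have : IsGalois E M := IsGalois.tower_top_of_isGalois K E M
  have hcard : Nat.card (P.inertia Gal(M/K)) ≤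
      Nat.card ((P.inertia Gal(M/E)).map (resSc K E M)) := by
    rw [card_map_inertia, card_inertia, card_inertia, ramificationIdx_tower_int K E M, h, one_mul]
  have heq := Subgroup.eq_of_le_of_card_ge (map_inertia_le K E M P) hcard
  rw [← heq] at hσ
  obtain ⟨τ, -, rfl⟩ := hσ
  exact τ.commutes x

/-- If the inertia group of `P` acts trivially on `E`, then `P ∩ 𝓞_E` is unramified over `K`. -/
lemma ramificationIdx_eq_one_of_fixes [IsGalois K M] (P : Ideal (𝓞 M)) [P.IsPrime]
    (h : ∀ σ ∈ P.inertia Gal(M/K), ∀ x : E, σ (algebraMap E M x) = algebraMap E M x) :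
    (P.under (𝓞 E)).ramificationIdx (𝓞 K) = 1 := by
  have : IsGalois E M := IsGalois.tower_top_of_isGalois K E M
  have heq : (P.inertia Gal(M/E)).map (resSc K E M) = P.inertia Gal(M/K) := by
    apply le_antisymm (map_inertia_le K E M P)
    intro σ hσ
    let τ : Gal(M/E) := { σ with commutes' := fun x => h σ hσ x }
    exact ⟨τ, fun x => hσ x, rfl⟩
  have h1 : Nat.card (P.inertia Gal(M/E)) = Nat.card (P.inertia Gal(M/K)) := by
    rw [← heq, card_map_inertia]
  rw [card_inertia, card_inertia, ramificationIdx_tower_int K E M] at h1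
  have h2 : P.ramificationIdx (𝓞 E) ≠ 0 := by
    rw [← card_inertia]
    exact Nat.card_pos.ne'
  have h3 : 1 * P.ramificationIdx (𝓞 E) =
      (P.under (𝓞 E)).ramificationIdx (𝓞 K) * P.ramificationIdx (𝓞 E) := by rw [one_mul]; exact h1
  exact (Nat.eq_of_mul_eq_mul_right (Nat.pos_of_ne_zero h2) h3).symm

end tower

end Pool.Agent.Helper59
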