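import Pool.Agent.Helper59.Inertia

open NumberField IsDedekindDomain
open scoped Pointwise

namespace Pool.Agent.Helper59

variable {K : Type} [Field K] [NumberField K]

/-- Every finite subextension of `K_S` is unramified outside `S`. -/
theorem unramifiedOutside_of_le {S : Set (HeightOneSpectrum (𝓞 K))}
    {E : IntermediateField K (AlgebraicClosure K)} [FiniteDimensional K E]
    (hE : E ≤ maximalUnramifiedOutside K S) : UnramifiedOutside K S E := by
  intro v hv
  have : NumberField E := numberField_intermediate K E
  rw [Algebra.isUnramifiedIn_iff_forall_ramificationIdx_eq_one]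
  intro P' hP' hlie
  obtain ⟨θ, hθ⟩ := Field.exists_primitive_element K E
  have hθ' : (θ : AlgebraicClosure K) ∈ ⨆ L : {L : IntermediateField K (AlgebraicClosure K) //
    FiniteDimensional K L ∧ UnramifiedOutside K S L}, L.1 := hE θ.2
  obtain ⟨t, ht⟩ := IntermediateField.exists_finset_of_mem_iSup hθ'
  set C : IntermediateField K (AlgebraicClosure K) := ⨆ i ∈ t, i.1 with hC
  have hfin : FiniteDimensional K C := by
    have : ∀ i : {L : IntermediateField K (AlgebraicClosure K) //
      FiniteDimensional K L ∧ UnramifiedOutside K S L}, FiniteDimensional K i.1 := fun i => i.2.1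
    exact IntermediateField.finiteDimensional_iSup_of_finset
  have hfin2 : FiniteDimensional K ↥(E ⊔ C) := inferInstance
  set M : IntermediateField K (AlgebraicClosure K) :=
    IntermediateField.normalClosure K ↥(E ⊔ C) (AlgebraicClosure K) with hM
  have hMfin : FiniteDimensional K M := inferInstance
  have hMnorm : Normal K M := inferInstance
  have hMgal : IsGalois K M := ⟨⟩
  have : NumberField M := numberField_intermediate K M
  have hle : E ⊔ C ≤ M := IntermediateField.le_normalClosure _
  have hEM : E ≤ M := le_sup_left.trans hle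
  have hCM : C ≤ M := le_sup_right.trans hle
  let _ : Algebra E M := (IntermediateField.inclusion hEM).toAlgebra
  have : IsScalarTower K E M := IsScalarTower.of_algebraMap_eq fun x => rfl
  obtain ⟨⟨P, hP, hPover⟩⟩ : Nonempty (Ideal.primesOver P' (𝓞 M)) := inferInstance
  have hunder : P.under (𝓞 E) = P' := (Ideal.over_def P P').symm
  have key := ramificationIdx_eq_one_of_fixes K E M P ?_
  · rw [hunder] at key
    exact key
  intro σ hσ x
  -- `σ` fixes `C`
  let Z : IntermediateField K (AlgebraicClosure K) :=
    IntermediateField.lift (IntermediateField.fixedField (Subgroup.zpowers σ))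
  have hZ : ∀ y : M, σ y = y → (y : AlgebraicClosure K) ∈ Z := by
    intro y hy
    refine (IntermediateField.mem_lift y).2 ?_
    rw [IntermediateField.mem_fixedField_iff]
    intro τ hτ
    obtain ⟨m, rfl⟩ := Subgroup.mem_zpowers_iff.1 hτ
    have h2 : σ ∈ MulAction.stabilizer Gal(M/K) y := hy
    exact (MulAction.stabilizer Gal(M/K) y).zpow_mem h2 m
  have hZ' : ∀ y : M, (y : AlgebraicClosure K) ∈ Z → σ y = y := by
    intro y hy
    have h1 := (IntermediateField.mem_lift y).1 hy
    rw [IntermediateField.mem_fixedField_iff] at h1
    exact h1 σ (Subgroup.mem_zpowers σ)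
  have hCZ : C ≤ Z := by
    rw [hC]
    apply iSup₂_le
    rintro ⟨L, hL1, hL2⟩ hi
    have hLM : L ≤ M := (le_iSup₂ (f := fun (i : {L : IntermediateField K (AlgebraicClosure K) //
      FiniteDimensional K L ∧ UnramifiedOutside K S L}) (_ : i ∈ t) => i.1) ⟨L, hL1, hL2⟩ hi).trans
      hCM
    have : NumberField L := numberField_intermediate K L
    let _ : Algebra L M := (IntermediateField.inclusion hLM).toAlgebra
    have : IsScalarTower K L M := IsScalarTower.of_algebraMap_eq fun x => rfl
    intro y hy
    refine hZ ⟨y, hLM hy⟩ ?_
    refine inertia_fixes K L M P ?_ σ hσ ⟨y, hy⟩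
    have hPv : P.LiesOver v.asIdeal := by
      have : P'.LiesOver v.asIdeal := hlie
      exact Ideal.LiesOver.trans P P' v.asIdeal
    have : (P.under (𝓞 L)).LiesOver v.asIdeal := by
      constructor
      rw [Ideal.under_under]
      exact Ideal.over_def P v.asIdeal
    exact (hL2 v hv).ramificationIdx_eq_one this
  have hEZ : E ≤ Z := by
    have h1 : IntermediateField.adjoin K {(θ : AlgebraicClosure K)} ≤ Z := by
      rw [IntermediateField.adjoin_simple_le_iff]
      exact hCZ ht
    intro y hy
    apply h1
    have h3 : IntermediateField.adjoin K {(θ : AlgebraicClosure K)} =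
          (IntermediateField.adjoin K {θ}).map E.val := by
      rw [IntermediateField.adjoin_map]; simp
    rw [h3, hθ]
    exact ⟨⟨y, hy⟩, trivial, rfl⟩
  exact hZ' _ (hEZ x.2)

end Pool.Agent.Helper59
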