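import Pool.Agent.Helper59.Deform

set_option linter.unusedSectionVars false

open IsLocalRing
open scoped MatrixGroups

namespace Pool.Agent.Helper59

variable {p : ℕ} [Fact p.Prime] {F : Type} [Field F] [CharP F p] [Finite F] {h n : ℕ}
variable {G : Type*} [Group G] [TopologicalSpace G] [IsTopologicalGroup G]
  {ρ : G →* GL (Fin n) F}

section MatAux

variable {J' K : Ideal (PS F h)}

/-- The computation showing that the corrected lift is multiplicative modulo `cIdeal`. -/
lemma T_mul_mem (hKJ : K ≤ J') (hmJ : maximalIdeal (PS F h) * J' ≤ K)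
    (hJ'm : J' ≤ maximalIdeal (PS F h))
    (t : G → Matrix (Fin n) (Fin n) (PS F h))
    (ht : ∀ g k i j, (t g * t k - t (g * k)) i j ∈ J')
    (hε : ∀ g, (t g).map MvPowerSeries.constantCoeff = (ρ g : Matrix (Fin n) (Fin n) F))
    (f : Module.Dual F (QSp J' K)) (φ : G → Matrix (Fin n) (Fin n) F)
    (hφ : ∀ g k, obsFun ρ t f g k = ad ρ g (φ k) - φ (g * k) + φ g)
    (e : PS F h) (he : e ∈ J') (hfe : fJ f e = 1)
    (T : G → Matrix (Fin n) (Fin n) (PS F h))
    (hT : ∀ g, T g = t g - e • ((φ g).map MvPowerSeries.C * t g)) (g k : G) (i j : Fin n) :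
    (T g * T k - T (g * k)) i j ∈ cIdeal f hKJ hmJ := by
  set X : Matrix (Fin n) (Fin n) (PS F h) :=
    (φ g).map MvPowerSeries.C * t g * t k + t g * ((φ k).map MvPowerSeries.C * t k) -
      (φ (g * k)).map MvPowerSeries.C * t (g * k) with hX
  set Y : Matrix (Fin n) (Fin n) (PS F h) :=
    (φ g).map MvPowerSeries.C * t g * ((φ k).map MvPowerSeries.C * t k) with hY
  have e1 : T g * T k - T (g * k) = (t g * t k - t (g * k)) - e • X + e • (e • Y) := by
    rw [hT, hT, hT, hX, hY]
    simp only [sub_mul, mul_sub, Matrix.smul_mul, Matrix.mul_smul, smul_sub, smul_add, mul_assoc]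
    abel
  have hcc : ∀ x : PS F h, fJ f (e * x) = MvPowerSeries.constantCoeff x := by
    intro x
    rw [mul_comm, fJ_mul f hKJ hmJ x he, hfe, mul_one]
  have m1 : ∀ i j, (e • X) i j ∈ J' := fun i j => by
    rw [Matrix.smul_apply, smul_eq_mul]; exact Ideal.mul_mem_right _ _ he
  have m2 : ∀ i j, (e • (e • Y)) i j ∈ J' := fun i j => by
    rw [Matrix.smul_apply, smul_eq_mul]; exact Ideal.mul_mem_right _ _ he
  have m3 : ∀ i j, ((t g * t k - t (g * k)) - e • X) i j ∈ J' := fun i j => by
    rw [Matrix.sub_apply]; exact Ideal.sub_mem _ (ht g k i j) (m1 i j)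
  have e2 : (T g * T k - T (g * k)).map (fJ f) = 0 := by
    rw [e1, map_fJ_add f _ _ m3 m2, map_fJ_sub f _ _ (ht g k) m1]
    have h1 : (e • X).map (fJ f) = X.map MvPowerSeries.constantCoeff := by
      ext i j
      rw [Matrix.map_apply, Matrix.smul_apply, smul_eq_mul, hcc]
      rfl
    have h2 : (e • (e • Y)).map (fJ f) = 0 := by
      ext i j
      rw [Matrix.map_apply, Matrix.smul_apply, smul_eq_mul, hcc, Matrix.smul_apply, smul_eq_mul,
        map_mul, (mem_maximalIdeal_iff e).1 (hJ'm he), zero_mul]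
      rfl
    have h3 : X.map MvPowerSeries.constantCoeff = φ g * (ρ g : Matrix (Fin n) (Fin n) F) *
        (ρ k : Matrix (Fin n) (Fin n) F) + (ρ g : Matrix (Fin n) (Fin n) F) * (φ k *
        (ρ k : Matrix (Fin n) (Fin n) F)) - φ (g * k) *
        (ρ (g * k) : Matrix (Fin n) (Fin n) F) := by
      have hmapC : ∀ M : Matrix (Fin n) (Fin n) F,
          (M.map (MvPowerSeries.C : F →+* PS F h)).map MvPowerSeries.constantCoeff = M := by
        intro M; ext i j; simp
      have hadd : ∀ M N : Matrix (Fin n) (Fin n) (PS F h),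
          (M + N).map MvPowerSeries.constantCoeff = M.map MvPowerSeries.constantCoeff +
            N.map MvPowerSeries.constantCoeff := fun M N => by ext i j; simp
      have hsub : ∀ M N : Matrix (Fin n) (Fin n) (PS F h),
          (M - N).map MvPowerSeries.constantCoeff = M.map MvPowerSeries.constantCoeff -
            N.map MvPowerSeries.constantCoeff := fun M N => by ext i j; simp
      rw [hX, hsub, hadd, Matrix.map_mul, Matrix.map_mul, Matrix.map_mul, Matrix.map_mul,
        Matrix.map_mul, hmapC, hmapC, hmapC, hε, hε, hε]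
    have h4 : (t g * t k - t (g * k)).map (fJ f) =
        (ad ρ g (φ k) - φ (g * k) + φ g) * (ρ (g * k) : Matrix (Fin n) (Fin n) F) := by
      rw [← hφ g k]
      unfold obsFun
      rw [mul_assoc, ← Units.val_mul, inv_mul_cancel, Units.val_one, mul_one]
    rw [h1, h2, h3, h4, add_zero]
    have h5 : (((ρ g)⁻¹ : GL (Fin n) F) : Matrix (Fin n) (Fin n) F) *
        (ρ (g * k) : Matrix (Fin n) (Fin n) F) = (ρ k : Matrix (Fin n) (Fin n) F) := by
      rw [← Units.val_mul, map_mul, inv_mul_cancel_left]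
    have h6 : (ρ (g * k) : Matrix (Fin n) (Fin n) F) =
        (ρ g : Matrix (Fin n) (Fin n) F) * (ρ k : Matrix (Fin n) (Fin n) F) := by
      rw [map_mul]; rfl
    rw [add_mul, sub_mul]
    unfold ad
    rw [mul_assoc _ _ (ρ (g * k) : Matrix (Fin n) (Fin n) F), h5, h6]
    noncomm_ring
  refine ⟨?_, ?_⟩
  · rw [e1, Matrix.add_apply]
    exact Ideal.add_mem _ (m3 i j) (m2 i j)
  · have := congrFun (congrFun e2 i) j
    exact this

end MatAux

theorem functional_eq_zero
    (R : CoeffRing p F) {ρu : G →* GL (Fin n) R} (hu : IsUniversalDeformation ρ R ρu)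
    (θ : PS F h →+* Rp R) (hθ : Function.Surjective θ)
    (hθC : ∀ c, θ (MvPowerSeries.C c) = algebraMap F (Rp R) c)
    (hker : RingHom.ker θ ≤ maximalIdeal (PS F h) ^ 2)
    {J' K : Ideal (PS F h)} (hJJ' : RingHom.ker θ ≤ J') (hJ'm : J' ≤ maximalIdeal (PS F h))
    (hKJ : K ≤ J') (hmJ : maximalIdeal (PS F h) * J' ≤ K) (hgen : J' ≤ RingHom.ker θ ⊔ K)
    (t : G → Matrix (Fin n) (Fin n) (PS F h)) (htlc : IsLocallyConstant t)
    (htred : ∀ g, (t g).map (Ideal.Quotient.mk J') =
      (ρu g : Matrix (Fin n) (Fin n) R).map (can θ hθ hJJ'))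
    (f : Module.Dual F (QSp J' K)) (φ : C1 ρ)
    (hφ : ∀ g k, obsFun ρ t f g k = ad ρ g (φ k) - φ (g * k) + φ g) : f = 0 := by
  by_contra hf0
  -- consequences of `htred`
  have htred' : ∀ g i j, can θ hθ hJJ' ((ρu g : Matrix (Fin n) (Fin n) R) i j) =
      Ideal.Quotient.mk J' (t g i j) := by
    intro g i j
    have := congrFun (congrFun (htred g) i) j
    exact this.symm
  have hε : ∀ g, (t g).map MvPowerSeries.constantCoeff = (ρ g : Matrix (Fin n) (Fin n) F) := by
    intro g
    rw [← hu.isLift.reduction g]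
    ext i j
    rw [Matrix.map_apply, Matrix.map_apply]
    exact can_residue θ hθ hθC hJJ' hJ'm _ _ (htred' g i j)
  have ht : ∀ g k i j, (t g * t k - t (g * k)) i j ∈ J' := by
    intro g k i j
    rw [← Ideal.Quotient.eq_zero_iff_mem]
    have h1 : (t g * t k - t (g * k)).map (Ideal.Quotient.mk J') = 0 := by
      have hsub : ∀ M N : Matrix (Fin n) (Fin n) (PS F h),
          (M - N).map (Ideal.Quotient.mk J') = M.map (Ideal.Quotient.mk J') -
            N.map (Ideal.Quotient.mk J') := fun M N => by ext i j; simp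
      rw [hsub, Matrix.map_mul, htred, htred, htred, ← Matrix.map_mul, map_mul ρu g k,
        Units.val_mul, sub_self]
    exact congrFun (congrFun h1 i) j
  -- an element with `f e = 1`
  obtain ⟨e, he, hfe⟩ : ∃ e ∈ J', fJ f e = 1 := by
    by_contra hne
    push Not at hne
    apply hf0
    apply LinearMap.ext
    intro q
    obtain ⟨⟨x, hx⟩, rfl⟩ := Submodule.Quotient.mk_surjective _ q
    rw [LinearMap.zero_apply]
    by_contra hfx
    have hx' : x ∈ J' := hx
    have h2 : fJ f x ≠ 0 := by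
      rw [fJ_of_mem f hx']; exact hfx
    apply hne ((fJ f x)⁻¹ • x)
    · rw [Algebra.smul_def]; exact Ideal.mul_mem_left _ _ hx'
    · rw [fJ_smul f _ hx', inv_mul_cancel₀ h2]
  set c := cIdeal f hKJ hmJ with hc
  have hcJ : c ≤ J' := fun x hx => hx.1
  have hKc : K ≤ c := fun x hx => ⟨hKJ hx, fJ_of_mem_K f hKJ hx⟩
  have hcm : c ≤ maximalIdeal (PS F h) := hcJ.trans hJ'm
  let T : G → Matrix (Fin n) (Fin n) (PS F h) :=
    fun g => t g - e • ((φ g).map MvPowerSeries.C * t g)
  have hTmul := T_mul_mem hKJ hmJ hJ'm t ht hε f φ hφ e he hfe T (fun g => rfl)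
  let B : CoeffRing p F := quotCoeff p c hcm
  let mB : PS F h →+* B := mkQ p c hcm
  let τ : G → Matrix (Fin n) (Fin n) B := fun g => (T g).map mB
  have hTcc : ∀ g, (T g).map MvPowerSeries.constantCoeff = (ρ g : Matrix (Fin n) (Fin n) F) := by
    intro g
    rw [← hε g]
    ext i j
    simp only [T, Matrix.map_apply, Matrix.sub_apply, Matrix.smul_apply, smul_eq_mul, map_sub,
      map_mul, (mem_maximalIdeal_iff e).1 (hJ'm he), zero_mul, sub_zero]
  have hτres : ∀ g, (τ g).map B.residue = (ρ g : Matrix (Fin n) (Fin n) F) := by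
    intro g
    rw [← hTcc g]
    rfl
  have hτmul : ∀ g k, τ (g * k) = τ g * τ k := by
    intro g k
    have h1 : (T g * T k).map mB = (T (g * k)).map mB := by
      ext i j
      rw [Matrix.map_apply, Matrix.map_apply]
      exact (mkQ_eq_iff hcm _ _).2 (hTmul g k i j)
    change (T (g * k)).map mB = (T g).map mB * (T k).map mB
    rw [← h1, Matrix.map_mul]
  have hτunit : IsUnit (τ 1) := by
    apply isUnit_of_residue
    rw [hτres 1]
    exact (ρ 1).isUnit
  let ρ' : G →* GL (Fin n) B := homOfMul τ hτmul hτunit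
  have hρ' : IsLift ρ B ρ' := by
    constructor
    · intro N
      have h1 : IsLocallyConstant (fun g => (t g, φ g)) := htlc.prodMk φ.isLocallyConstant
      exact h1.comp (fun w : Matrix (Fin n) (Fin n) (PS F h) × Matrix (Fin n) (Fin n) F =>
        ((w.1 - e • (w.2.map MvPowerSeries.C * w.1)).map mB).map
          (Ideal.Quotient.mk (maximalIdeal B ^ N)))
    · intro g
      exact hτres g
  obtain ⟨ψ, ⟨hψloc, Cm, hCm, hCeq⟩, -⟩ := hu.existsUnique B ρ' hρ'
  let A' : CoeffRing p F := quotCoeff p J' hJ'm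
  let mA : PS F h →+* A' := mkQ p J' hJ'm
  let κ : R →ₐ[WittVector p F] A' := canAlg θ hθ hθC hJJ' hJ'm
  let q : B →ₐ[WittVector p F] A' := facAlg hcJ hcm hJ'm
  have hqm : ∀ x, q (mB x) = mA x := facAlg_mkQ hcJ hcm hJ'm
  let ρJ : G →* GL (Fin n) A' := (Matrix.GeneralLinearGroup.map (κ : R →+* A')).comp ρu
  have hρJcoe : ∀ g, (ρJ g : Matrix (Fin n) (Fin n) A') = (t g).map mA := by
    intro g
    exact (htred g).symm
  have hρJ : IsLift ρ A' ρJ := by
    constructor
    · intro N
      have h1 := htlc.comp (fun w => (w.map mA).map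
        (Ideal.Quotient.mk (maximalIdeal A' ^ N)))
      have h2 : (fun g => (ρJ g : Matrix (Fin n) (Fin n) A').map
          (Ideal.Quotient.mk (maximalIdeal A' ^ N))) = (fun w : Matrix (Fin n) (Fin n) (PS F h) =>
          (w.map mA).map (Ideal.Quotient.mk (maximalIdeal A' ^ N))) ∘ t := by
        funext g
        rw [hρJcoe g]
        rfl
      rw [h2]
      exact h1
    · intro g
      rw [hρJcoe g, ← hε g]
      rfl
  obtain ⟨φ0, -, huniq⟩ := hu.existsUnique A' ρJ hρJ
  have hκ : κ = φ0 := by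
    apply huniq
    refine ⟨isLocalHom_canAlg θ hθ hθC hJJ' hJ'm, 1, ?_, ?_⟩
    · intro i j
      simp
    · intro g
      simp [ρJ]
  have hqψ : q.comp ψ = φ0 := by
    apply huniq
    have hql : IsLocalHom (q : B →+* A') := isLocalHom_facAlg hcJ hcm hJ'm
    refine ⟨?_, Matrix.GeneralLinearGroup.map (q : B →+* A') Cm, ?_, ?_⟩
    · have h2 : IsLocalHom (ψ : R →+* B) := hψloc
      exact RingHom.isLocalHom_comp (q : B →+* A') (ψ : R →+* B)
    · intro i j
      have h2 : ((Matrix.GeneralLinearGroup.map (q : B →+* A') Cm : Matrix (Fin n) (Fin n) A') - 1)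
          i j = q (((Cm : Matrix (Fin n) (Fin n) B) - 1) i j) := by
        rw [Matrix.sub_apply, Matrix.sub_apply, map_sub]
        congr 1
        rw [Matrix.one_apply, Matrix.one_apply]
        split_ifs <;> simp
      rw [h2]
      have h3 := hCm i j
      rw [mem_maximalIdeal, mem_nonunits_iff] at h3 ⊢
      exact fun hu' => h3 (hql.map_nonunit _ hu')
    · intro g
      have h1 : ρJ g = Matrix.GeneralLinearGroup.map (q : B →+* A') (ρ' g) := by
        apply Units.ext
        rw [hρJcoe g]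
        ext i j
        change mA (t g i j) = q (mB (T g i j))
        rw [hqm]
        apply (mkQ_eq_iff hJ'm _ _).2
        simp only [T, Matrix.sub_apply, Matrix.smul_apply, smul_eq_mul, sub_sub_cancel]
        exact Ideal.mul_mem_right _ _ he
      rw [h1, hCeq g, map_mul, map_mul, map_inv]
      rfl
  have hkey : ∀ y : R, q (ψ y) = can θ hθ hJJ' y := by
    intro y
    have h1 : q.comp ψ = κ := hqψ.trans hκ.symm
    exact DFunLike.congr_fun h1 y
  -- the map `θ1 : P → B`
  have hpB : (p : B) = 0 := by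
    have h1 : (p : PS F h) = 0 := by
      have h0 : (p : PS F h) = (MvPowerSeries.C : F →+* PS F h) (p : F) :=
        (map_natCast (MvPowerSeries.C : F →+* PS F h) p).symm
      rw [h0, CharP.cast_eq_zero, map_zero]
    have h2 : (p : B) = mB (p : PS F h) := by rw [map_natCast]
    rw [h2, h1, map_zero]
  let ψbar : Rp R →+* B := Ideal.Quotient.lift (Ideal.span {(p : R)}) (ψ : R →+* B) (by
    intro a ha
    obtain ⟨b, rfl⟩ := Ideal.mem_span_singleton'.1 ha
    rw [map_mul, map_natCast, hpB, mul_zero])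
  let θ1 : PS F h →+* B := ψbar.comp θ
  have hθ1 : ∀ x, ∃ j ∈ J', θ1 x = mB (x + j) := by
    intro x
    obtain ⟨y, hy⟩ := Ideal.Quotient.mk_surjective (θ x)
    obtain ⟨x', hx'⟩ : ∃ x', mB x' = θ1 x := mkQ_surjective hcm (θ1 x)
    have h1 : θ1 x = ψ y := by
      change ψbar (θ x) = ψ y
      rw [← hy]
      exact Ideal.Quotient.lift_mk _ _ _
    have h2 : mA x' = mA x := by
      have h3 : can θ hθ hJJ' y = mA x := can_apply_of_eq θ hθ hJJ' y x hy.symm
      rw [← h3, ← hkey y, ← h1, ← hx', hqm]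
    refine ⟨x' - x, (mkQ_eq_iff hJ'm _ _).1 h2, ?_⟩
    rw [add_sub_cancel, hx']
  have hsq : ∀ x ∈ maximalIdeal (PS F h) ^ 2, θ1 x = mB x := by
    intro x hx
    rw [pow_two] at hx
    refine Submodule.mul_induction_on hx ?_ ?_
    · intro a ha b hb
      obtain ⟨j1, hj1, h1⟩ := hθ1 a
      obtain ⟨j2, hj2, h2⟩ := hθ1 b
      have h3 : θ1 (a * b) = mB ((a + j1) * (b + j2)) := by
        rw [map_mul, map_mul, h1, h2]
      rw [h3]
      apply (mkQ_eq_iff hcm _ _).2
      have h4 : (a + j1) * (b + j2) - a * b = a * j2 + b * j1 + j1 * j2 := by ring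
      rw [h4]
      apply hKc
      apply hmJ
      refine Ideal.add_mem _ (Ideal.add_mem _ ?_ ?_) ?_
      · exact Ideal.mul_mem_mul ha hj2
      · exact Ideal.mul_mem_mul hb hj1
      · exact Ideal.mul_mem_mul (hJ'm hj1) hj2
    · intro a b ha hb
      rw [map_add, map_add, ha, hb]
  have hkerc : RingHom.ker θ ≤ c := by
    intro x hx
    have h1 := hsq x (hker hx)
    have h2 : θ1 x = 0 := by
      change ψbar (θ x) = 0
      rw [(RingHom.mem_ker).1 hx, map_zero]
    rw [h2] at h1
    exact (mkQ_eq_zero_iff hcm x).1 h1.symm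
  have hec : e ∈ c := (hgen.trans (sup_le hkerc hKc)) he
  have hfe0 : fJ f e = 0 := hec.2
  rw [hfe] at hfe0
  exact one_ne_zero hfe0

end Pool.Agent.Helper59
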