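import Pool.Agent.Helper59.KS

open NumberField IsDedekindDomain nonZeroDivisors

namespace Pool.Agent.Helper59

/-- `H` is finite modulo squares -/
def FinSq {G : Type*} [CommGroup G] (H : Set G) : Prop :=
  ∃ F : Set G, F.Finite ∧ ∀ a ∈ H, ∃ f ∈ F, IsSquare (a * f)

lemma FinSq.of_fun {G : Type*} [CommGroup G] {H H' : Set G} {Y : Type*} [Finite Y] (f : G → Y)
    (hf : ∀ a ∈ H, ∀ b ∈ H, f a = f b → a * b ∈ H') (h' : FinSq H') : FinSq H := by
  classical
  obtain ⟨F, hF, hFa⟩ := h'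
  let r : Y → G := fun y => if h : ∃ a ∈ H, f a = y then h.choose else 1
  refine ⟨Set.image2 (fun a b => a * b) (Set.range r) F, (Set.finite_range r).image2 _ hF, ?_⟩
  intro a ha
  have h : ∃ b ∈ H, f b = f a := ⟨a, ha, rfl⟩
  have hr : r (f a) = h.choose := dif_pos h
  have h1 : a * r (f a) ∈ H' := by
    rw [hr]
    exact hf a ha _ h.choose_spec.1 h.choose_spec.2.symm
  obtain ⟨g, hg, hsq⟩ := hFa _ h1
  refine ⟨r (f a) * g, ⟨_, ⟨f a, rfl⟩, g, hg, rfl⟩, ?_⟩
  rw [← mul_assoc]
  exact hsq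

lemma isSquare_units {L : Type*} [Field L] (a : Lˣ) (h : IsSquare (a : L)) : IsSquare a := by
  obtain ⟨b, hb⟩ := h
  have hb0 : b ≠ 0 := by
    rintro rfl
    simp at hb
  exact ⟨Units.mk0 b hb0, Units.ext (by simpa using hb)⟩

lemma exists_sq_mul_squarefree {R : Type*} [CommMonoidWithZero R] [IsCancelMulZero R]
    [WfDvdMonoid R] (I : R) (hI : I ≠ 0) :
    ∃ B C : R, I = B ^ 2 * C ∧ Squarefree C := by
  induction I using (IsWellFounded.wf (r := DvdNotUnit (α := R))).induction with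
  | _ I ih =>
    by_cases hs : Squarefree I
    · exact ⟨1, I, by simp, hs⟩
    · rw [Squarefree] at hs
      push Not at hs
      obtain ⟨x, ⟨J, hJ⟩, hx⟩ := hs
      have hJ0 : J ≠ 0 := by
        rintro rfl
        exact hI (by rw [hJ, mul_zero])
      obtain ⟨B, C, hBC, hC⟩ := ih J ⟨hJ0, x * x, fun hu => hx (isUnit_of_mul_isUnit_left hu),
        by rw [hJ, mul_comm]⟩ hJ0
      refine ⟨x * B, C, ?_, hC⟩
      rw [hJ, hBC, mul_pow, sq x, ← mul_assoc]

section NF

variable {L : Type*} [Field L] [NumberField L]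

lemma isSquare_ofAdd_iff (n : ℤ) : IsSquare (Multiplicative.ofAdd n) ↔ Even n := by
  constructor
  · rintro ⟨m, hm⟩
    exact ⟨m.toAdd, by rw [← toAdd_mul, ← hm]; rfl⟩
  · rintro ⟨m, hm⟩
    exact ⟨Multiplicative.ofAdd m, by rw [hm]; rfl⟩

lemma valuationOfNeZero_int (w : HeightOneSpectrum (𝓞 L)) (x : 𝓞 L) (hx : x ≠ 0) (a : Lˣ)
    (ha : (a : L) = algebraMap (𝓞 L) L x) :
    w.valuationOfNeZero a =
      Multiplicative.ofAdd (-(multiplicity w.asIdeal (Ideal.span {x}) : ℤ)) := by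
  rw [← WithZero.coe_inj, HeightOneSpectrum.valuationOfNeZero_eq, ha,
    HeightOneSpectrum.valuation_of_algebraMap,
    HeightOneSpectrum.intValuation_eq_exp_neg_multiplicity w hx]
  rfl

lemma exists_num_den (a : Lˣ) : ∃ x y : 𝓞 L, x ≠ 0 ∧ y ≠ 0 ∧
    (a : L) = algebraMap (𝓞 L) L x / algebraMap (𝓞 L) L y := by
  obtain ⟨x, y, hy, h⟩ := IsFractionRing.div_surjective (A := 𝓞 L) (a : L)
  refine ⟨x, y, ?_, nonZeroDivisors.ne_zero hy, h.symm⟩
  rintro rfl
  rw [map_zero, zero_div] at h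
  exact a.ne_zero h.symm

/-- If all valuations of `a` are even then `(a)` is the square of a fractional ideal. -/
lemma exists_ideal (a : Lˣ) (ha : ∀ w : HeightOneSpectrum (𝓞 L), IsSquare (w.valuationOfNeZero a)) :
    ∃ (x y : 𝓞 L) (B : (Ideal (𝓞 L))⁰), x ≠ 0 ∧ y ≠ 0 ∧
      (a : L) = algebraMap (𝓞 L) L x / algebraMap (𝓞 L) L y ∧
      Ideal.span {x * y} = (B : Ideal (𝓞 L)) ^ 2 := by
  obtain ⟨x, y, hx, hy, hxy⟩ := exists_num_den a
  have hne : Ideal.span {x * y} ≠ 0 := by
    rw [Ne, Submodule.zero_eq_bot, Ideal.span_singleton_eq_bot]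
    exact mul_ne_zero hx hy
  obtain ⟨B, C, hBC, hC⟩ := exists_sq_mul_squarefree (Ideal.span {x * y}) hne
  have hB0 : B ≠ 0 := by
    rintro rfl
    exact hne (by rw [hBC]; simp)
  have hC0 : C ≠ 0 := by
    rintro rfl
    exact hne (by rw [hBC]; simp)
  have hyL : algebraMap (𝓞 L) L y ≠ 0 := by
    simpa using hy
  have hC1 : IsUnit C := by
    by_contra hcon
    obtain ⟨P, hP, hPC⟩ := WfDvdMonoid.exists_irreducible_factor hcon hC0
    have hPp : Prime P := hP.prime
    let w : HeightOneSpectrum (𝓞 L) := ⟨P, Ideal.isPrime_of_prime hPp, hPp.ne_zero⟩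
    let b : Lˣ := Units.mk0 (algebraMap (𝓞 L) L y) hyL
    have h1 : IsSquare (w.valuationOfNeZero (a * b ^ 2)) := by
      rw [map_mul, map_pow]
      exact (ha w).mul (IsSquare.sq _)
    rw [valuationOfNeZero_int w (x * y) (mul_ne_zero hx hy) (a * b ^ 2) ?_, isSquare_ofAdd_iff,
      even_neg, Int.even_coe_nat] at h1
    · have h2 : emultiplicity P (Ideal.span {x * y}) = 2 * emultiplicity P B + emultiplicity P C := by
        rw [hBC, sq, emultiplicity_mul hPp, emultiplicity_mul hPp, two_mul]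
      have h3 : emultiplicity P C = 1 := by
        apply le_antisymm
        · rcases (squarefree_iff_emultiplicity_le_one C).1 hC P with h | h
          · exact h
          · exact absurd h hPp.not_isUnit
        · have := le_emultiplicity_of_pow_dvd (k := 1) (a := P) (b := C) (by simpa using hPC)
          simpa using this
      have h4 : FiniteMultiplicity P (Ideal.span {x * y}) :=
        FiniteMultiplicity.of_prime_left hPp hne
      have h5 : FiniteMultiplicity P B := FiniteMultiplicity.of_prime_left hPp hB0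
      rw [h4.emultiplicity_eq_multiplicity, h5.emultiplicity_eq_multiplicity, h3] at h2
      have h6 : multiplicity P (Ideal.span {x * y}) = 2 * multiplicity P B + 1 := by
        exact_mod_cast h2
      change Even (multiplicity P (Ideal.span {x * y})) at h1
      rw [h6] at h1
      exact absurd h1 (by simp [parity_simps])
    · push_cast
      rw [hxy]
      change _ * (algebraMap (𝓞 L) L y) ^ 2 = _
      field_simp
  refine ⟨x, y, ⟨B, mem_nonZeroDivisors_of_ne_zero hB0⟩, hx, hy, hxy, ?_⟩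
  rw [hBC, Ideal.isUnit_iff.1 hC1, ← Ideal.one_eq_top, mul_one]

/-- the elements with even valuation outside `T` -/
def evenOutside (T : Set (HeightOneSpectrum (𝓞 L))) : Set Lˣ :=
  {a | ∀ w ∉ T, IsSquare (w.valuationOfNeZero a)}

/-- The Selmer group is finite. -/
theorem finSq_evenOutside (T : Set (HeightOneSpectrum (𝓞 L))) (hT : T.Finite) :
    FinSq (evenOutside T) := by
  classical
  have : Finite T := hT
  -- squares
  have h0 : FinSq {a : Lˣ | IsSquare a} := ⟨{1}, Set.finite_singleton 1, fun a ha =>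
    ⟨1, rfl, by rw [mul_one]; exact ha⟩⟩
  -- units times squares
  have h1 : FinSq {a : Lˣ | ∃ u : (𝓞 L)ˣ, IsSquare (a * Units.map (algebraMap (𝓞 L) L : 𝓞 L →* L) u)} := by
    have : Group.FG (𝓞 L)ˣ := Group.fg_iff_monoid_fg.2 inferInstance
    have hfi := Subgroup.finiteIndex_range_powMonoidHom_of_fg (𝓞 L)ˣ (n := 2) two_ne_zero
    have : Finite ((𝓞 L)ˣ ⧸ (powMonoidHom (α := (𝓞 L)ˣ) 2).range) := inferInstance
    let f : Lˣ → (𝓞 L)ˣ ⧸ (powMonoidHom (α := (𝓞 L)ˣ) 2).range := fun a =>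
      if h : ∃ u : (𝓞 L)ˣ, IsSquare (a * Units.map (algebraMap (𝓞 L) L : 𝓞 L →* L) u) then
        QuotientGroup.mk h.choose else 1
    refine FinSq.of_fun f ?_ h0
    intro a ha b hb hab
    have ha' : f a = QuotientGroup.mk (Exists.choose ha) := dif_pos ha
    have hb' : f b = QuotientGroup.mk (Exists.choose hb) := dif_pos hb
    rw [ha', hb', QuotientGroup.eq] at hab
    obtain ⟨v, hv⟩ := hab
    have hA := Exists.choose_spec ha
    have hB := Exists.choose_spec hb
    set ua := Exists.choose ha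
    set ub := Exists.choose hb
    have hv' : ub = ua * v ^ 2 := by
      change v ^ 2 = ua⁻¹ * ub at hv
      rw [hv, mul_inv_cancel_left]
    have h2 := hA.mul hB
    rw [hv', map_mul, map_pow] at h2
    set φ := Units.map (algebraMap (𝓞 L) L : 𝓞 L →* L) with hφ
    have h3 : a * φ ua * (b * (φ ua * φ v ^ 2)) = (a * b) * (φ ua * φ v) ^ 2 := by
      simp only [mul_pow, sq]
      rw [mul_mul_mul_comm, mul_assoc (φ ua)]
      simp only [mul_assoc, mul_comm, mul_left_comm]
    rw [h3] at h2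
    have h4 := h2.mul ((IsSquare.sq (φ ua * φ v)).inv)
    rw [mul_inv_cancel_right] at h4
    exact h4
  -- all valuations even
  have h2 : FinSq (evenOutside (∅ : Set (HeightOneSpectrum (𝓞 L)))) := by
    have hch : ∀ a : Lˣ, ∃ q : 𝓞 L × 𝓞 L × (Ideal (𝓞 L))⁰,
        a ∈ evenOutside (∅ : Set (HeightOneSpectrum (𝓞 L))) → q.1 ≠ 0 ∧ q.2.1 ≠ 0 ∧
          (a : L) = algebraMap (𝓞 L) L q.1 / algebraMap (𝓞 L) L q.2.1 ∧
          Ideal.span {q.1 * q.2.1} = (q.2.2 : Ideal (𝓞 L)) ^ 2 := by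
      intro a
      by_cases h : a ∈ evenOutside (∅ : Set (HeightOneSpectrum (𝓞 L)))
      · obtain ⟨x, y, B, h1, h2, h3, h4⟩ := exists_ideal a (fun w => h w (Set.notMem_empty w))
        exact ⟨⟨x, y, B⟩, fun _ => ⟨h1, h2, h3, h4⟩⟩
      · exact ⟨⟨0, 0, 1⟩, fun h' => absurd h' h⟩
    choose q hq using hch
    refine FinSq.of_fun (fun a => ClassGroup.mk0 (q a).2.2) ?_ h1
    intro a ha b hb hab
    obtain ⟨hx, hy, hxy, hB⟩ := hq a ha
    obtain ⟨hx', hy', hxy', hB'⟩ := hq b hb
    generalize q a = qa at *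
    generalize q b = qb at *
    obtain ⟨x, y, B⟩ := qa
    obtain ⟨x', y', B'⟩ := qb
    dsimp only at hx hy hxy hB hx' hy' hxy' hB' hab
    rw [ClassGroup.mk0_eq_mk0_iff] at hab
    obtain ⟨s, t, hs, ht, hst⟩ := hab
    have h3 : Ideal.span {s ^ 2 * (x * y)} = Ideal.span {t ^ 2 * (x' * y')} := by
      rw [← Ideal.span_singleton_mul_span_singleton (s ^ 2),
        ← Ideal.span_singleton_mul_span_singleton (t ^ 2), hB, hB',
        ← Ideal.span_singleton_pow, ← Ideal.span_singleton_pow, ← mul_pow, ← mul_pow, hst]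
    rw [Ideal.span_singleton_eq_span_singleton] at h3
    obtain ⟨u, hu⟩ := h3
    refine ⟨u, isSquare_units _ ?_⟩
    have hu' := congrArg (algebraMap (𝓞 L) L) hu
    simp only [map_mul, map_pow] at hu'
    push_cast
    change IsSquare ((a : L) * (b : L) * algebraMap (𝓞 L) L u)
    rw [hxy, hxy']
    have n1 : algebraMap (𝓞 L) L y ≠ 0 := by simpa using hy
    have n2 : algebraMap (𝓞 L) L y' ≠ 0 := by simpa using hy'
    have n3 : algebraMap (𝓞 L) L s ≠ 0 := by simpa using hs
    refine ⟨algebraMap (𝓞 L) L t * algebraMap (𝓞 L) L x' /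
      (algebraMap (𝓞 L) L s * algebraMap (𝓞 L) L y), ?_⟩
    field_simp
    linear_combination (algebraMap (𝓞 L) L x') * hu'
  -- general case
  let f : Lˣ → (T → Prop) := fun a w => IsSquare (w.1.valuationOfNeZero a)
  refine FinSq.of_fun f ?_ h2
  intro a ha b hb hab w _
  rw [map_mul]
  by_cases hw : w ∈ T
  · have h3 : IsSquare (w.valuationOfNeZero a) = IsSquare (w.valuationOfNeZero b) :=
      congrFun hab ⟨w, hw⟩
    by_cases h4 : IsSquare (w.valuationOfNeZero a)
    · exact h4.mul (h3 ▸ h4)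
    · have h5 : ¬ IsSquare (w.valuationOfNeZero b) := h3 ▸ h4
      have e1 : w.valuationOfNeZero a = Multiplicative.ofAdd (w.valuationOfNeZero a).toAdd := rfl
      have e2 : w.valuationOfNeZero b = Multiplicative.ofAdd (w.valuationOfNeZero b).toAdd := rfl
      rw [e1, isSquare_ofAdd_iff, Int.not_even_iff_odd] at h4
      rw [e2, isSquare_ofAdd_iff, Int.not_even_iff_odd] at h5
      rw [e1, e2, ← ofAdd_add, isSquare_ofAdd_iff]
      exact h4.add_odd h5
  · exact (ha w hw).mul (hb w hw)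

end NF

end Pool.Agent.Helper59
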