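import Pool.Agent.Helper59.PreLift

set_option linter.unusedSectionVars false

open IsLocalRing Topology
open scoped MatrixGroups

namespace Pool.Agent.Helper59

variable {p : ℕ} [Fact p.Prime] {F : Type} [Field F] [CharP F p] [Finite F]
variable {G : Type} [Group G] [TopologicalSpace G] {m : ℕ}

section complete

variable {P : CoeffRing p F}

/-- completeness in terms of sequences -/
lemma exists_limit_seq (c : ℕ → P) (hc : ∀ n, c (n + 1) - c n ∈ maximalIdeal P ^ (n + 1)) :
    ∃ L, ∀ n, L - c n ∈ maximalIdeal P ^ (n + 1) := by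
  have h1 : ∀ a b, a ≤ b → c b - c a ∈ maximalIdeal P ^ (a + 1) := by
    intro a b hab
    induction b, hab using Nat.le_induction with
    | base => rw [sub_self]; exact Ideal.zero_mem _
    | succ b hb ih =>
      have e : c (b + 1) - c a = (c (b + 1) - c b) + (c b - c a) := by ring
      rw [e]
      exact Ideal.add_mem _ (Ideal.pow_le_pow_right (by omega) (hc b)) ih
  obtain ⟨L, hL⟩ := IsPrecomplete.prec' (I := maximalIdeal P) (M := P) c (by
    intro a b hab
    rw [SModEq.sub_mem, smul_eq_mul, Ideal.mul_top, ← neg_sub]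
    exact (Ideal.neg_mem_iff _).2 (Ideal.pow_le_pow_right (Nat.le_succ a) (h1 a b hab)))
  refine ⟨L, fun n => ?_⟩
  have h2 := hL (n + 1)
  rw [SModEq.sub_mem, smul_eq_mul, Ideal.mul_top] at h2
  have e : L - c n = (c (n + 1) - c n) - (c (n + 1) - L) := by ring
  rw [e]
  exact Ideal.sub_mem _ (hc n) h2

lemma exists_limit_seq_mod (J : Ideal P) (c : ℕ → P)
    (hc : ∀ n, c (n + 1) - c n ∈ J ⊔ maximalIdeal P ^ (n + 1)) :
    ∃ L, ∀ n, L - c n ∈ J ⊔ maximalIdeal P ^ (n + 1) := by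
  choose a ha b hb hab using fun n => Submodule.mem_sup.1 (hc n)
  let c' : ℕ → P := fun n => c n - ∑ k ∈ Finset.range n, a k
  obtain ⟨L, hL⟩ := exists_limit_seq c' (by
    intro n
    have e : c' (n + 1) - c' n = b n := by
      change c (n + 1) - ∑ k ∈ Finset.range (n + 1), a k - (c n - ∑ k ∈ Finset.range n, a k) = b n
      rw [Finset.sum_range_succ]
      linear_combination -(hab n)
    rw [e]
    exact hb n)
  refine ⟨L, fun n => ?_⟩
  have e : L - c n = (L - c' n) - ∑ k ∈ Finset.range n, a k := by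
    change _ = (L - (c n - ∑ k ∈ Finset.range n, a k)) - _
    ring
  rw [e]
  exact Ideal.sub_mem _ (Ideal.mem_sup_right (hL n))
    (Ideal.mem_sup_left (Ideal.sum_mem _ fun k _ => ha k))

/-- Chevalley's theorem for a filtration of the kind considered here. -/
lemma chevalley (J : ℕ → Ideal P) (hanti : ∀ n, J (n + 1) ≤ J n)
    (hpow : ∀ n, maximalIdeal P ^ (n + 1) ≤ J n)
    (hstep : ∀ n, J n ≤ J (n + 1) ⊔ maximalIdeal P ^ (n + 1)) (N : ℕ) :
    J N ≤ (⨅ n, J n) ⊔ maximalIdeal P ^ (N + 1) := by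
  have hanti' : Antitone J := antitone_nat_of_succ_le hanti
  intro x hx
  have hch : ∀ k (y : P), y ∈ J (N + k) → ∃ z, z ∈ J (N + (k + 1)) ∧
      z - y ∈ maximalIdeal P ^ (N + k + 1) := by
    intro k y hy
    obtain ⟨a, ha, b, hb, hab⟩ := Submodule.mem_sup.1 (hstep (N + k) hy)
    refine ⟨a, ha, ?_⟩
    have e : a - y = -b := by rw [← hab]; ring
    rw [e]
    exact (Ideal.neg_mem_iff _).2 hb
  choose f hf1 hf2 using hch
  let y : (k : ℕ) → {z : P // z ∈ J (N + k)} := fun k =>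
    Nat.rec ⟨x, hx⟩ (fun k y => ⟨f k y.1 y.2, hf1 k y.1 y.2⟩) k
  have hy : ∀ k, (y (k + 1)).1 - (y k).1 ∈ maximalIdeal P ^ (N + k + 1) := fun k =>
    hf2 k (y k).1 (y k).2
  have hy0 : (y 0).1 = x := rfl
  obtain ⟨L, hL⟩ := exists_limit_seq (fun k => (y k).1)
    (fun k => Ideal.pow_le_pow_right (by omega) (hy k))
  have h1 : ∀ k, (y k).1 - x ∈ maximalIdeal P ^ (N + 1) := by
    intro k
    induction k with
    | zero => rw [hy0, sub_self]; exact Ideal.zero_mem _
    | succ k ih =>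
      have e : (y (k + 1)).1 - x = ((y (k + 1)).1 - (y k).1) + ((y k).1 - x) := by ring
      rw [e]
      exact Ideal.add_mem _ (Ideal.pow_le_pow_right (by omega) (hy k)) ih
  have hLJ : L ∈ ⨅ n, J n := by
    rw [Submodule.mem_iInf]
    intro M
    have e : L = (y M).1 + (L - (y M).1) := by ring
    rw [e]
    exact Ideal.add_mem _ (hanti' (by omega) (y M).2) (hpow M (hL M))
  have e : x = L - ((L - (y N).1) + ((y N).1 - x)) := by ring
  rw [e]
  exact Ideal.sub_mem _ (Ideal.mem_sup_left hLJ)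
    (Ideal.mem_sup_right (Ideal.add_mem _ (hL N) (h1 N)))

lemma finite_quotient_pow (N : ℕ) : Finite (P ⧸ maximalIdeal P ^ N) := by
  have h1 : Finite (P ⧸ maximalIdeal P) := by
    rw [← P.ker_residue]
    exact Finite.of_equiv F (RingHom.quotientKerEquivOfSurjective P.residue_surjective).symm.toEquiv
  exact Ideal.finite_quotient_pow (IsNoetherian.noetherian _) N

lemma finite_ideals (N : ℕ) : {𝔞 : Ideal P | maximalIdeal P ^ N ≤ 𝔞}.Finite := by
  have h1 := finite_quotient_pow (P := P) N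
  have h2 : Finite (Ideal (P ⧸ maximalIdeal P ^ N)) :=
    Finite.of_injective (SetLike.coe : Ideal (P ⧸ maximalIdeal P ^ N) →
      Set (P ⧸ maximalIdeal P ^ N)) SetLike.coe_injective
  refine (Set.finite_range (Ideal.comap (Ideal.Quotient.mk (maximalIdeal P ^ N)))).subset ?_
  intro 𝔞 h𝔞
  refine ⟨𝔞.map (Ideal.Quotient.mk (maximalIdeal P ^ N)), ?_⟩
  rw [Ideal.comap_map_of_surjective _ Ideal.Quotient.mk_surjective]
  have h3 : Ideal.comap (Ideal.Quotient.mk (maximalIdeal P ^ N)) ⊥ = maximalIdeal P ^ N := by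
    rw [← RingHom.ker_eq_comap_bot, Ideal.mk_ker]
  rw [h3]
  exact sup_eq_left.2 h𝔞

end complete

variable {ρ : G →* GL (Fin (m + 1)) F} {P : CoeffRing p F}
  {w : Fin (m + 1) → (G →₀ WittVector p F)} {κ : Type} {γ : κ → G}
  {x : κ → Matrix (Fin (m + 1)) (Fin (m + 1)) P}

/-- the residual gauge condition -/
def ResGauge (ρ : G →* GL (Fin (m + 1)) F) (w : Fin (m + 1) → (G →₀ WittVector p F)) : Prop :=
  ∀ i a b, ((w i).sum fun g c => WittVector.constantCoeff c *
    (ρ g : Matrix (Fin (m + 1)) (Fin (m + 1)) F) a b) =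
      if a = i ∧ b = 0 then (1 : F) else 0

lemma residue_gaugeX (A : CoeffRing p F) (w : G →₀ WittVector p F)
    (r : G → Matrix (Fin (m + 1)) (Fin (m + 1)) A)
    (hr : ∀ g, (r g).map A.residue = (ρ g : Matrix (Fin (m + 1)) (Fin (m + 1)) F)) (a b) :
    A.residue (gaugeX w r a b) = w.sum fun g c => WittVector.constantCoeff c *
      (ρ g : Matrix (Fin (m + 1)) (Fin (m + 1)) F) a b := by
  rw [gaugeX_apply, Finsupp.sum, Finsupp.sum, map_sum]
  apply Finset.sum_congr rfl
  intro g _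
  rw [Algebra.smul_def, map_mul, A.residue_algebraMap, ← hr g]
  rfl

lemma PreLift.base (hρ : IsLocallyConstant ρ)
    (hx : ∀ k, (x k).map P.residue = (ρ (γ k) : Matrix (Fin (m + 1)) (Fin (m + 1)) F))
    (hw : ResGauge ρ w) : ∃ r, PreLift ρ P w γ x (maximalIdeal P) r := by
  choose τ hτ using fun c : F => WittVector.constantCoeff_surjective p c
  let r : G → Matrix (Fin (m + 1)) (Fin (m + 1)) P := fun g i j =>
    algebraMap (WittVector p F) P (τ ((ρ g : Matrix (Fin (m + 1)) (Fin (m + 1)) F) i j))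
  have hred : ∀ g, (r g).map P.residue = (ρ g : Matrix (Fin (m + 1)) (Fin (m + 1)) F) := by
    intro g
    ext i j
    change P.residue (algebraMap _ _ _) = _
    rw [P.residue_algebraMap, hτ]
  refine ⟨r, ⟨?_, hred, ?_, ?_, ?_⟩⟩
  · intro g h i j
    rw [← P.residue_eq_zero_iff]
    have h1 : ((r (g * h) - r g * r h).map P.residue) i j = 0 := by
      have h2 : (r (g * h) - r g * r h).map P.residue =
          (r (g * h)).map P.residue - (r g).map P.residue * (r h).map P.residue := by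
        have := (P.residue.mapMatrix (m := Fin (m + 1))).map_sub (r (g * h)) (r g * r h)
        rw [map_mul] at this
        exact this
      rw [h2, hred, hred, hred, map_mul, Units.val_mul, sub_self]
      rfl
    exact h1
  · intro N g₀
    have h1 := (IsLocallyConstant.iff_eventually_eq _).1 hρ g₀
    filter_upwards [h1] with g hg i j
    have : r g = r g₀ := by
      funext i j
      change algebraMap _ _ (τ ((ρ g : Matrix (Fin (m + 1)) (Fin (m + 1)) F) i j)) = _
      rw [hg]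
    rw [this, sub_self]
    exact Ideal.zero_mem _
  · intro k i j
    rw [← P.residue_eq_zero_iff, map_sub]
    have h1 : P.residue (r (γ k) i j) =
        (ρ (γ k) : Matrix (Fin (m + 1)) (Fin (m + 1)) F) i j := by rw [← hred]; rfl
    have h2 : P.residue (x k i j) =
        (ρ (γ k) : Matrix (Fin (m + 1)) (Fin (m + 1)) F) i j := by rw [← hx]; rfl
    rw [h1, h2, sub_self]
  · intro i j _
    rw [← P.residue_eq_zero_iff, map_sub, residue_gaugeX P (w i) r hred, hw i j 0,
      Matrix.one_apply]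
    by_cases hij : i = j
    · subst hij; simp
    · rw [if_neg (fun h => hij h.1.symm), if_neg hij, map_zero, sub_zero]

/-- the least good ideal containing a power of the maximal ideal -/
lemma exists_least (hρ : IsLocallyConstant ρ) (hγ : TestPoints ρ γ)
    (hx : ∀ k, (x k).map P.residue = (ρ (γ k) : Matrix (Fin (m + 1)) (Fin (m + 1)) F))
    (hw : ResGauge ρ w) (N : ℕ) :
    ∃ 𝔞 : Ideal P, (∃ r, PreLift ρ P w γ x 𝔞 r) ∧ 𝔞 ≤ maximalIdeal P ∧
      maximalIdeal P ^ (N + 1) ≤ 𝔞 ∧ ∀ 𝔟 : Ideal P, (∃ r, PreLift ρ P w γ x 𝔟 r) →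
        𝔟 ≤ maximalIdeal P → maximalIdeal P ^ (N + 1) ≤ 𝔟 → 𝔞 ≤ 𝔟 := by
  let S : Set (Ideal P) := {𝔞 | (∃ r, PreLift ρ P w γ x 𝔞 r) ∧ 𝔞 ≤ maximalIdeal P ∧
    maximalIdeal P ^ (N + 1) ≤ 𝔞}
  have hSfin : S.Finite := (finite_ideals (P := P) (N + 1)).subset (fun 𝔞 h => h.2.2)
  have hSne : S.Nonempty := ⟨maximalIdeal P, PreLift.base hρ hx hw, le_rfl,
    Ideal.pow_le_self (Nat.succ_ne_zero N)⟩
  obtain ⟨𝔞, h𝔞⟩ := hSfin.exists_minimal hSne
  obtain ⟨⟨⟨r, hr⟩, h2, h3⟩, hmin⟩ := h𝔞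
  refine ⟨𝔞, ⟨r, hr⟩, h2, h3, ?_⟩
  rintro 𝔟 ⟨r', hr'⟩ hb1 hb2
  have h4 : 𝔞 ⊓ 𝔟 ∈ S := ⟨PreLift.inf hρ hγ h2 h3 hb2 hr hr', inf_le_left.trans h2,
    le_inf h3 hb2⟩
  exact (hmin h4 inf_le_left).trans inf_le_right

lemma PreLift.congr {𝔠 : Ideal P} (h𝔠 : 𝔠 ≤ maximalIdeal P)
    {s t : G → Matrix (Fin (m + 1)) (Fin (m + 1)) P} (ht : PreLift ρ P w γ x 𝔠 t)
    (hst : ∀ g i j, s g i j - t g i j ∈ 𝔠) : PreLift ρ P w γ x 𝔠 s := by
  refine ⟨?_, ?_, ?_, ?_, ?_⟩
  · intro g h i j
    have e : (s (g * h) - s g * s h) i j = (s (g * h) i j - t (g * h) i j) +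
        (t (g * h) - t g * t h) i j -
        ∑ k, ((s g i k - t g i k) * s h k j + t g i k * (s h k j - t h k j)) := by
      have e1 : ∑ k, ((s g i k - t g i k) * s h k j + t g i k * (s h k j - t h k j)) =
          (∑ k, s g i k * s h k j) - ∑ k, t g i k * t h k j := by
        rw [← Finset.sum_sub_distrib]
        apply Finset.sum_congr rfl
        intro k _
        ring
      rw [e1]
      simp only [Matrix.sub_apply, Matrix.mul_apply]
      ring
    rw [e]
    apply Ideal.sub_mem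
    · exact Ideal.add_mem _ (hst _ i j) (ht.mul g h i j)
    · apply Ideal.sum_mem
      intro k _
      exact Ideal.add_mem _ (Ideal.mul_mem_right _ _ (hst g i k))
        (Ideal.mul_mem_left _ _ (hst h k j))
  · intro g
    rw [← ht.red g]
    ext i j
    simp only [Matrix.map_apply]
    rw [← sub_eq_zero, ← map_sub, P.residue_eq_zero_iff]
    exact h𝔠 (hst g i j)
  · intro N g₀
    filter_upwards [ht.cont N g₀] with g hg i j
    have e : s g i j - s g₀ i j = (s g i j - t g i j) + (t g i j - t g₀ i j) -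
        (s g₀ i j - t g₀ i j) := by ring
    rw [e]
    exact Ideal.sub_mem _ (Ideal.add_mem _ (Ideal.mem_sup_left (hst g i j)) (hg i j))
      (Ideal.mem_sup_left (hst g₀ i j))
  · intro k i j
    have e : s (γ k) i j - x k i j = (s (γ k) i j - t (γ k) i j) + (t (γ k) i j - x k i j) := by
      ring
    rw [e]
    exact Ideal.add_mem _ (hst _ i j) (ht.test k i j)
  · exact Gauge.congr (r := t) (fun g i j => by
      rw [← neg_sub]; exact (Ideal.neg_mem_iff _).2 (hst g i j)) ht.gauge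

/-- The universal pre-lift. -/
theorem exists_universal_preLift (hρ : IsLocallyConstant ρ) (hγ : TestPoints ρ γ)
    (hx : ∀ k, (x k).map P.residue = (ρ (γ k) : Matrix (Fin (m + 1)) (Fin (m + 1)) F))
    (hw : ResGauge ρ w) :
    ∃ (J : Ideal P) (s : G → Matrix (Fin (m + 1)) (Fin (m + 1)) P), J ≤ maximalIdeal P ∧
      PreLift ρ P w γ x J s ∧ ∀ (𝔟 : Ideal P) (N : ℕ), (∃ r, PreLift ρ P w γ x 𝔟 r) →
        𝔟 ≤ maximalIdeal P → maximalIdeal P ^ N ≤ 𝔟 → J ≤ 𝔟 := by
  choose J hJr hJm hJp hJmin using exists_least hρ hγ hx hw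
  choose r hr using hJr
  have hanti : ∀ n, J (n + 1) ≤ J n := fun n =>
    hJmin (n + 1) (J n) ⟨r n, hr n⟩ (hJm n) ((Ideal.pow_le_pow_right (Nat.le_succ _)).trans (hJp n))
  have hstep : ∀ n, J n ≤ J (n + 1) ⊔ maximalIdeal P ^ (n + 1) := fun n =>
    hJmin n _ ⟨r (n + 1), (hr (n + 1)).mono le_sup_left⟩
      (sup_le (hJm _) (Ideal.pow_le_self (Nat.succ_ne_zero n))) le_sup_right
  have hchev := chevalley J hanti hJp hstep
  have hlim : ∀ g i j, ∃ L, ∀ n, L - r n g i j ∈ (⨅ n, J n) ⊔ maximalIdeal P ^ (n + 1) := by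
    intro g i j
    apply exists_limit_seq_mod
    intro n
    apply hchev n
    exact PreLift.unique hρ hγ ((hr (n + 1)).mono (hanti n)) (hr n) g i j
  choose s hs using hlim
  have hle : ∀ n, (⨅ n, J n) ⊔ maximalIdeal P ^ (n + 1) ≤ J n := fun n =>
    sup_le (iInf_le _ n) (hJp n)
  have hsn : ∀ n, PreLift ρ P w γ x (J n) s := fun n =>
    (hr n).congr (hJm n) (fun g i j => hle n (hs g i j n))
  refine ⟨⨅ n, J n, s, (iInf_le _ 0).trans (hJm 0), ⟨?_, (hsn 0).red, ?_, ?_, ?_⟩, ?_⟩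
  · intro g h i j
    rw [Submodule.mem_iInf]
    exact fun n => (hsn n).mul g h i j
  · intro N g₀
    filter_upwards [(hsn N).cont (N + 1) g₀] with g hg i j
    have h1 := hg i j
    rw [sup_eq_left.2 (hJp N)] at h1
    have h2 : (⨅ n, J n) ⊔ maximalIdeal P ^ (N + 1) ≤ (⨅ n, J n) ⊔ maximalIdeal P ^ N :=
      sup_le_sup_left (Ideal.pow_le_pow_right (Nat.le_succ N)) _
    exact h2 (hchev N h1)
  · intro k i j
    rw [Submodule.mem_iInf]
    exact fun n => (hsn n).test k i j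
  · intro i j hij
    rw [Submodule.mem_iInf]
    exact fun n => (hsn n).gauge i j hij
  · intro 𝔟 N hb1 hb2 hb3
    exact (iInf_le _ N).trans (hJmin N 𝔟 hb1 hb2
      ((Ideal.pow_le_pow_right (Nat.le_succ N)).trans hb3))

end Pool.Agent.Helper59
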