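import Pool.Agent.Helper59.Tangent

set_option linter.unusedSectionVars false

open IsLocalRing
open scoped MatrixGroups

namespace Pool.Agent.Helper59

section Alg

variable {F : Type} [Field F] {h : ℕ}

lemma exists_artin_rees (J : Ideal (PS F h)) :
    ∃ N : ℕ, 1 ≤ N ∧ J ⊓ maximalIdeal (PS F h) ^ N ≤ maximalIdeal (PS F h) * J := by
  obtain ⟨k, hk⟩ := Ideal.exists_pow_inf_eq_pow_smul (maximalIdeal (PS F h)) J
  refine ⟨k + 1, by omega, ?_⟩
  have h1 := hk (k + 1) (by omega)
  rw [smul_eq_mul, Ideal.mul_top, Nat.add_sub_cancel_left, pow_one, smul_eq_mul,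
    smul_eq_mul, Ideal.mul_top] at h1
  rw [inf_comm, h1]
  exact Ideal.mul_mono_right inf_le_right

lemma finite_QSp (J' K : Ideal (PS F h)) (hKJ : K ≤ J')
    (hmJ : maximalIdeal (PS F h) * J' ≤ K) : FiniteDimensional F (QSp J' K) := by
  classical
  obtain ⟨m, S, hS⟩ := Submodule.fg_iff_exists_fin_generating_family.1
    (IsNoetherian.noetherian J' : J'.FG)
  have hSJ : ∀ s, S s ∈ J' := fun s => hS ▸ Submodule.subset_span ⟨s, rfl⟩
  let bJ : Fin m → ↥(J'.restrictScalars F) := fun s => ⟨S s, hSJ s⟩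
  let b : Fin m → QSp J' K := fun s => Submodule.Quotient.mk (bJ s)
  refine ⟨⟨(Finset.univ : Finset (Fin m)).image b, ?_⟩⟩
  rw [eq_top_iff]
  rintro q -
  obtain ⟨⟨x, hx⟩, rfl⟩ := Submodule.Quotient.mk_surjective _ q
  have hx' : x ∈ Ideal.span (Set.range S) := by
    have : x ∈ J' := hx
    rw [← hS] at this
    exact this
  rw [Ideal.mem_span_range_iff_exists_fun] at hx'
  obtain ⟨a, ha⟩ := hx'
  have key : (Submodule.Quotient.mk ⟨x, hx⟩ : QSp J' K) =
      ∑ s, MvPowerSeries.constantCoeff (a s) • b s := by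
    have h1 : ∑ s, MvPowerSeries.constantCoeff (a s) • b s =
        Submodule.Quotient.mk (∑ s, MvPowerSeries.constantCoeff (a s) • bJ s) := by
      rw [← Submodule.mkQ_apply, map_sum]
      rfl
    rw [h1, Submodule.Quotient.eq]
    have h2 : ((∑ s, MvPowerSeries.constantCoeff (a s) • bJ s : ↥(J'.restrictScalars F)) :
        PS F h) = ∑ s, MvPowerSeries.constantCoeff (a s) • S s := by
      rw [Submodule.coe_sum]
      rfl
    change x - ((∑ s, MvPowerSeries.constantCoeff (a s) • bJ s : ↥(J'.restrictScalars F)) :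
        PS F h) ∈ K
    rw [h2, ← ha, ← Finset.sum_sub_distrib]
    apply Ideal.sum_mem
    intro s _
    have : a s * S s - MvPowerSeries.constantCoeff (a s) • S s =
        (a s - MvPowerSeries.C (MvPowerSeries.constantCoeff (a s))) * S s := by
      rw [MvPowerSeries.smul_eq_C_mul]; ring
    rw [this]
    exact hmJ (Ideal.mul_mem_mul (sub_C_mem _) (hSJ s))
  rw [key]
  apply Submodule.sum_mem
  intro s _
  apply Submodule.smul_mem
  apply Submodule.subset_span
  simp

end Alg

variable {F : Type} [Field F] [CharP F 2] [Finite F] {h n : ℕ}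
variable {G : Type} [Group G] [TopologicalSpace G] [IsTopologicalGroup G]
  {ρ : G →* GL (Fin n) F}

lemma two_PS : (2 : PS F h) = 0 := by
  have h0 : ((2 : ℕ) : PS F h) = (MvPowerSeries.C : F →+* PS F h) ((2 : ℕ) : F) :=
    (map_natCast (MvPowerSeries.C : F →+* PS F h) 2).symm
  rw [CharP.cast_eq_zero F 2, map_zero] at h0
  exact_mod_cast h0

lemma obsFun_add_left {J' K : Ideal (PS F h)} (t : G → Matrix (Fin n) (Fin n) (PS F h))
    (f f' : Module.Dual F (QSp J' K)) (g k : G) :
    obsFun ρ t (f + f') g k = obsFun ρ t f g k + obsFun ρ t f' g k := by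
  unfold obsFun
  rw [← add_mul]
  congr 1
  ext i j
  simp only [Matrix.map_apply, Matrix.add_apply]
  unfold fJ
  split_ifs <;> simp

lemma obsFun_smul_left {J' K : Ideal (PS F h)} (t : G → Matrix (Fin n) (Fin n) (PS F h))
    (a : F) (f : Module.Dual F (QSp J' K)) (g k : G) :
    obsFun ρ t (a • f) g k = a • obsFun ρ t f g k := by
  unfold obsFun
  rw [← Matrix.smul_mul]
  congr 1
  ext i j
  simp only [Matrix.map_apply, Matrix.smul_apply]
  unfold fJ
  split_ifs <;> simp

/-- the obstruction map to cocycles -/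
noncomputable def obsZ {J' K : Ideal (PS F h)} (hKJ : K ≤ J')
    (hmJ : maximalIdeal (PS F h) * J' ≤ K)
    (t : G → Matrix (Fin n) (Fin n) (PS F h)) (htlc : IsLocallyConstant t)
    (ht : ∀ g k i j, (t g * t k - t (g * k)) i j ∈ J')
    (hε : ∀ g, (t g).map MvPowerSeries.constantCoeff = (ρ g : Matrix (Fin n) (Fin n) F))
    (hρ : IsLocallyConstant ρ) :
    Module.Dual F (QSp J' K) →ₗ[F] Z2 ρ where
  toFun f := ⟨⟨fun q => obsFun ρ t f q.1 q.2, by
    have h1 : IsLocallyConstant (fun q : G × G => ((t q.1, t q.2), (t (q.1 * q.2),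
        ρ (q.1 * q.2)))) :=
      ((htlc.comp_continuous continuous_fst).prodMk (htlc.comp_continuous continuous_snd)).prodMk
        ((htlc.comp_continuous continuous_mul).prodMk (hρ.comp_continuous continuous_mul))
    exact h1.comp (fun w : (Matrix (Fin n) (Fin n) (PS F h) × Matrix (Fin n) (Fin n) (PS F h)) ×
        (Matrix (Fin n) (Fin n) (PS F h) × GL (Fin n) F) =>
      (w.1.1 * w.1.2 - w.2.1).map (fJ f) * (((w.2.2)⁻¹ : GL (Fin n) F) : Matrix _ _ F))⟩,
    fun a b c => obsFun_cocycle hKJ hmJ t ht hε f a b c⟩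
  map_add' f f' := Subtype.ext (LocallyConstant.ext fun q => obsFun_add_left t f f' q.1 q.2)
  map_smul' a f := Subtype.ext (LocallyConstant.ext fun q => obsFun_smul_left t a f q.1 q.2)

theorem add_le_h2 (hρ : IsLocallyConstant ρ) (D : RealData ρ) (R : CoeffRing 2 F)
    {ρu : G →* GL (Fin n) R} (hu : IsUniversalDeformation ρ R ρu)
    (θ : PS F h →+* Rp R) (hθ : Function.Surjective θ)
    (hθC : ∀ c, θ (MvPowerSeries.C c) = algebraMap F (Rp R) c)
    (hker : RingHom.ker θ ≤ maximalIdeal (PS F h) ^ 2)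
    {J' K : Ideal (PS F h)} (hJJ' : RingHom.ker θ ≤ J') (hJ'm : J' ≤ maximalIdeal (PS F h))
    (hKJ : K ≤ J') (hmJ : maximalIdeal (PS F h) * J' ≤ K) (hgen : J' ≤ RingHom.ker θ ⊔ K)
    (t : G → Matrix (Fin n) (Fin n) (PS F h)) (htlc : IsLocallyConstant t) (ht1 : t 1 = 1)
    (htred : ∀ g, (t g).map (Ideal.Quotient.mk J') =
      (ρu g : Matrix (Fin n) (Fin n) R).map (can θ hθ hJJ'))
    (Nt : Matrix (Fin n) (Fin n) (PS F h)) (hNm : ∀ i j, Nt i j ∈ maximalIdeal (PS F h))
    (hNred : (1 + Nt).map (Ideal.Quotient.mk J') =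
      (ρu D.c : Matrix (Fin n) (Fin n) R).map (can θ hθ hJJ'))
    (hNN : ∀ i j, (Nt * Nt) i j ∈ K) :
    ((Module.finrank F (QSp J' K) + n * n : ℕ) : ℕ∞) ≤ h2 ρ := by
  classical
  have : Fintype F := Fintype.ofFinite F
  have hfd : FiniteDimensional F (QSp J' K) := finite_QSp J' K hKJ hmJ
  have htred' : ∀ g i j, can θ hθ hJJ' ((ρu g : Matrix (Fin n) (Fin n) R) i j) =
      Ideal.Quotient.mk J' (t g i j) := by
    intro g i j
    have := congrFun (congrFun (htred g) i) j
    exact this.symm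
  have hε : ∀ g, (t g).map MvPowerSeries.constantCoeff = (ρ g : Matrix (Fin n) (Fin n) F) := by
    intro g
    rw [← hu.isLift.reduction g]
    ext i j
    rw [Matrix.map_apply, Matrix.map_apply]
    exact can_residue θ hθ hθC hJJ' hJ'm _ _ (htred' g i j)
  have hsub : ∀ M N : Matrix (Fin n) (Fin n) (PS F h),
      (M - N).map (Ideal.Quotient.mk J') = M.map (Ideal.Quotient.mk J') -
        N.map (Ideal.Quotient.mk J') := fun M N => by ext i j; simp
  have ht : ∀ g k i j, (t g * t k - t (g * k)) i j ∈ J' := by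
    intro g k i j
    rw [← Ideal.Quotient.eq_zero_iff_mem]
    have h1 : (t g * t k - t (g * k)).map (Ideal.Quotient.mk J') = 0 := by
      rw [hsub, Matrix.map_mul, htred, htred, htred, ← Matrix.map_mul, map_mul ρu g k,
        Units.val_mul, sub_self]
    exact congrFun (congrFun h1 i) j
  let Φ0 : (Module.Dual F (QSp J' K)) × Matrix (Fin n) (Fin n) F →ₗ[F] Z2 ρ :=
    (obsZ hKJ hmJ t htlc ht hε hρ).coprod (D.z hρ)
  let Φ : (Module.Dual F (QSp J' K)) × Matrix (Fin n) (Fin n) F →ₗ[F] H2 ρ :=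
    (Submodule.mkQ _).comp Φ0
  have hcc : ∀ f : Module.Dual F (QSp J' K), obsFun ρ t f D.c D.c = 0 := by
    intro f
    have hj : ∀ i j, (t D.c - (1 + Nt)) i j ∈ J' := by
      intro i j
      rw [← Ideal.Quotient.eq_zero_iff_mem]
      have h1 : (t D.c - (1 + Nt)).map (Ideal.Quotient.mk J') = 0 := by
        rw [hsub, htred, hNred, sub_self]
      exact congrFun (congrFun h1 i) j
    set j := t D.c - (1 + Nt) with hjdef
    have h2 : t D.c = 1 + Nt + j := by rw [hjdef]; abel
    have h2x : ∀ M : Matrix (Fin n) (Fin n) (PS F h), M + M = 0 := by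
      intro M
      ext a b
      rw [Matrix.add_apply, ← two_mul, two_PS, zero_mul]
      rfl
    have h3 : t D.c * t D.c - t (D.c * D.c) = Nt * Nt + Nt * j + j * Nt + j * j := by
      rw [D.c_mul_c, ht1, h2]
      have : (1 + Nt + j) * (1 + Nt + j) - 1 = (Nt + Nt) + (j + j) +
          (Nt * Nt + Nt * j + j * Nt + j * j) := by noncomm_ring
      rw [this, h2x, h2x, zero_add, zero_add]
    have h4 : ∀ a b, (Nt * Nt + Nt * j + j * Nt + j * j) a b ∈ K := by
      intro a b
      simp only [Matrix.add_apply]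
      refine Ideal.add_mem _ (Ideal.add_mem _ (Ideal.add_mem _ (hNN a b) ?_) ?_) ?_
      · rw [Matrix.mul_apply]
        exact Ideal.sum_mem _ (fun k _ => hmJ (Ideal.mul_mem_mul (hNm a k) (hj k b)))
      · rw [Matrix.mul_apply]
        refine Ideal.sum_mem _ (fun k _ => hmJ ?_)
        rw [mul_comm (j a k)]
        exact Ideal.mul_mem_mul (hNm k b) (hj a k)
      · rw [Matrix.mul_apply]
        exact Ideal.sum_mem _ (fun k _ => hmJ (Ideal.mul_mem_mul (hJ'm (hj a k)) (hj k b)))
    unfold obsFun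
    rw [h3]
    have h5 : (Nt * Nt + Nt * j + j * Nt + j * j).map (fJ f) = 0 := by
      ext a b
      exact fJ_of_mem_K f hKJ (h4 a b)
    rw [h5, zero_mul]
  have h11 : ∀ f : Module.Dual F (QSp J' K), obsFun ρ t f 1 1 = 0 := by
    intro f
    unfold obsFun
    rw [mul_one, ht1, mul_one, sub_self]
    have : (0 : Matrix (Fin n) (Fin n) (PS F h)).map (fJ f) = 0 := by
      ext a b
      exact fJ_zero f
    rw [this, zero_mul]
  have hinj : Function.Injective Φ := by
    rw [← LinearMap.ker_eq_bot, LinearMap.ker_eq_bot']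
    rintro ⟨f, X⟩ hfX
    have h1 : ((Φ0 (f, X) : Z2 ρ) : C2 ρ) ∈ B2 ρ := by
      have : (Submodule.Quotient.mk (Φ0 (f, X)) : H2 ρ) = 0 := hfX
      rw [Submodule.Quotient.mk_eq_zero] at this
      exact this
    have hval : ∀ g k, ((Φ0 (f, X) : Z2 ρ) : C2 ρ) (g, k) = obsFun ρ t f g k + D.zFun X g k :=
      fun g k => rfl
    have h2 := coboundary_apply_c _ h1 D.c D.c_mul_c D.map_c
    rw [hval, hval, hcc, h11, D.zFun_c_c, D.zFun_one_one, zero_add, zero_add] at h2
    subst h2
    obtain ⟨φ, hφ⟩ := h1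
    have h3 : f = 0 := by
      apply functional_eq_zero R hu θ hθ hθC hker hJJ' hJ'm hKJ hmJ hgen t htlc htred f φ
      intro g k
      rw [← hφ g k, hval]
      have : D.zFun 0 g k = 0 := by
        have := D.zFun_smul 0 0 g k
        simpa using this
      rw [this, add_zero]
    rw [h3]
    rfl
  have hrank := LinearMap.rank_le_of_injective Φ hinj
  unfold h2
  rw [Cardinal.natCast_le_toENat]
  refine le_trans ?_ hrank
  rw [← Module.finrank_eq_rank, Module.finrank_prod, Subspace.dual_finrank_eq,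
    Module.finrank_matrix, Module.finrank_self, Fintype.card_fin, mul_one]

end Pool.Agent.Helper59
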