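import Mathlib

open IsLocalRing

namespace Pool.Agent.Helper59

section PowerSeries

open MvPowerSeries in
lemma mem_span_X_of_constantCoeff {k : Type*} [CommRing k] {h : ℕ} (p : MvPowerSeries (Fin h) k)
    (hp : constantCoeff p = 0) : p ∈ Ideal.span (Set.range (X : Fin h → MvPowerSeries (Fin h) k)) := by
  classical
  let q : Fin h → MvPowerSeries (Fin h) k := fun i m =>
    if m i ≠ 0 ∧ ∀ j < i, m j = 0 then coeff m p else 0
  have hq : ∀ i, q i ∈ Ideal.span (Set.range (X : Fin h → MvPowerSeries (Fin h) k)) := by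
    intro i
    have : (X i : MvPowerSeries (Fin h) k) ∣ q i := by
      rw [X_dvd_iff]
      intro m hm
      change (if m i ≠ 0 ∧ ∀ j < i, m j = 0 then coeff m p else 0) = 0
      rw [if_neg]
      exact fun hh => hh.1 hm
    obtain ⟨r, hr⟩ := this
    rw [hr]
    exact Ideal.mul_mem_right _ _ (Ideal.subset_span ⟨i, rfl⟩)
  have hsum : p = ∑ i, q i := by
    ext m
    rw [map_sum]
    by_cases hm : m = 0
    · subst hm
      have : (coeff (0 : Fin h →₀ ℕ)) p = 0 := by simpa using hp
      rw [this]
      symm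
      apply Finset.sum_eq_zero
      intro i _
      change (if (0 : Fin h →₀ ℕ) i ≠ 0 ∧ ∀ j < i, (0 : Fin h →₀ ℕ) j = 0 then coeff 0 p else 0) = 0
      rw [if_neg]
      exact fun hh => hh.1 rfl
    · have hne : m.support.Nonempty := by
        rw [Finsupp.support_nonempty_iff]; exact hm
      set i₀ := m.support.min' hne with hi₀
      have hi₀mem : m i₀ ≠ 0 := by
        have := m.support.min'_mem hne
        simpa using this
      have hi₀min : ∀ j < i₀, m j = 0 := by
        intro j hj
        by_contra hjm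
        have := m.support.min'_le j (by simpa using hjm)
        exact absurd hj (not_lt.mpr this)
      rw [Finset.sum_eq_single i₀]
      · change _ = (if m i₀ ≠ 0 ∧ ∀ j < i₀, m j = 0 then coeff m p else 0)
        rw [if_pos ⟨hi₀mem, hi₀min⟩]
      · intro i _ hi
        change (if m i ≠ 0 ∧ ∀ j < i, m j = 0 then coeff m p else 0) = 0
        rw [if_neg]
        rintro ⟨h1, h2⟩
        rcases lt_trichotomy i i₀ with hlt | heq | hgt
        · exact h1 (hi₀min i hlt)
        · exact hi heq
        · exact hi₀mem (h2 i₀ hgt)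
      · intro hh; exact absurd (Finset.mem_univ _) hh
  rw [hsum]
  exact Ideal.sum_mem _ (fun i _ => hq i)

variable {k : Type*} [Field k]

open MvPowerSeries in
lemma mem_maximalIdeal_iff {h : ℕ} (p : MvPowerSeries (Fin h) k) :
    p ∈ maximalIdeal (MvPowerSeries (Fin h) k) ↔ constantCoeff p = 0 := by
  rw [IsLocalRing.mem_maximalIdeal, mem_nonunits_iff, isUnit_iff_constantCoeff,
    isUnit_iff_ne_zero, not_not]

open MvPowerSeries in
lemma maximalIdeal_eq_span_X {h : ℕ} :
    maximalIdeal (MvPowerSeries (Fin h) k) =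
      Ideal.span (Set.range (X : Fin h → MvPowerSeries (Fin h) k)) := by
  apply le_antisymm
  · intro p hp
    exact mem_span_X_of_constantCoeff p ((mem_maximalIdeal_iff p).1 hp)
  · rw [Ideal.span_le]
    rintro _ ⟨i, rfl⟩
    rw [SetLike.mem_coe, mem_maximalIdeal_iff]
    simp

lemma le_ringKrullDim_mvPowerSeries (h : ℕ) :
    (h : WithBot ℕ∞) ≤ ringKrullDim (MvPowerSeries (Fin h) k) := by
  induction h with
  | zero =>
    have : Nontrivial (MvPowerSeries (Fin 0) k) := inferInstance
    exact_mod_cast ringKrullDim_nonneg_of_nontrivial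
  | succ n ih =>
    rw [ringKrullDim_eq_of_ringEquiv (MvPowerSeries.finSuccEquiv k n).toRingEquiv]
    refine le_trans ?_ (ringKrullDim_succ_le_ringKrullDim_powerseries)
    push_cast
    gcongr

end PowerSeries

section Presentation

variable {k : Type*} [CommRing k] {A : Type*} [CommRing A] [IsLocalRing A] [Algebra k A]

lemma idealOfVars_pow_le_comap {h : ℕ} (a : Fin h → A) (ha : ∀ i, a i ∈ maximalIdeal A) (n : ℕ) :
    MvPolynomial.idealOfVars (Fin h) k ^ n ≤
      (maximalIdeal A ^ n).comap (MvPolynomial.aeval (R := k) a).toRingHom := by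
  have h1 : MvPolynomial.idealOfVars (Fin h) k ≤
      (maximalIdeal A).comap (MvPolynomial.aeval (R := k) a).toRingHom := by
    unfold MvPolynomial.idealOfVars
    rw [Ideal.span_le]
    rintro _ ⟨i, rfl⟩
    simp [ha i]
  calc MvPolynomial.idealOfVars (Fin h) k ^ n
      ≤ ((maximalIdeal A).comap (MvPolynomial.aeval (R := k) a).toRingHom) ^ n :=
        Ideal.pow_right_mono h1 n
    _ ≤ _ := Ideal.le_comap_pow _ n

/-- the maps from power series to the quotients `A / m ^ n` -/
noncomputable def evalFam {h : ℕ} (a : Fin h → A) (ha : ∀ i, a i ∈ maximalIdeal A) (n : ℕ) :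
    MvPowerSeries (Fin h) k →+* A ⧸ maximalIdeal A ^ n :=
  (Ideal.quotientMap (maximalIdeal A ^ n) (MvPolynomial.aeval (R := k) a).toRingHom
      (idealOfVars_pow_le_comap a ha n)).comp
        (MvPowerSeries.truncTotalAlgHom (Fin h) k n).toRingHom

lemma evalFam_compat {h : ℕ} (a : Fin h → A) (ha : ∀ i, a i ∈ maximalIdeal A) {m n : ℕ}
    (hmn : m ≤ n) : (Ideal.Quotient.factorPow (maximalIdeal A) hmn).comp (evalFam (k := k) a ha n) =
      evalFam (k := k) a ha m := by
  ext p
  simp only [RingHom.coe_comp, Function.comp_apply]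
  change (Ideal.Quotient.mk (maximalIdeal A ^ m)) (MvPolynomial.aeval a
    (MvPowerSeries.truncTotal n p)) =
    (Ideal.Quotient.mk (maximalIdeal A ^ m)) (MvPolynomial.aeval a (MvPowerSeries.truncTotal m p))
  rw [Ideal.Quotient.eq, ← map_sub]
  exact idealOfVars_pow_le_comap a ha m
    (MvPowerSeries.truncTotal_sub_truncTotal_mem_pow_idealOfVars hmn le_rfl p)

/-- evaluation of power series at elements of the maximal ideal -/
noncomputable def evalHom [IsAdicComplete (maximalIdeal A) A] {h : ℕ} (a : Fin h → A)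
    (ha : ∀ i, a i ∈ maximalIdeal A) : MvPowerSeries (Fin h) k →+* A :=
  IsAdicComplete.liftRingHom (maximalIdeal A) (evalFam a ha) (evalFam_compat a ha)

variable [IsAdicComplete (maximalIdeal A) A]

lemma mk_evalHom {h : ℕ} (a : Fin h → A) (ha : ∀ i, a i ∈ maximalIdeal A) (n : ℕ)
    (p : MvPowerSeries (Fin h) k) :
    Ideal.Quotient.mk (maximalIdeal A ^ n) (evalHom a ha p) =
      Ideal.Quotient.mk (maximalIdeal A ^ n) (MvPolynomial.aeval a (MvPowerSeries.truncTotal n p)) :=
  IsAdicComplete.mk_liftRingHom (maximalIdeal A) (evalFam a ha) (evalFam_compat a ha) n p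

lemma evalHom_coe {h : ℕ} (a : Fin h → A) (ha : ∀ i, a i ∈ maximalIdeal A)
    (p : MvPolynomial (Fin h) k) :
    evalHom a ha (p : MvPowerSeries (Fin h) k) = MvPolynomial.aeval a p := by
  apply IsHausdorff.eq_iff_smodEq (I := maximalIdeal A) |>.2
  intro n
  rw [SModEq.sub_mem, smul_eq_mul, Ideal.mul_top, ← Ideal.Quotient.eq, mk_evalHom, Ideal.Quotient.eq,
    ← map_sub]
  apply idealOfVars_pow_le_comap a ha n
  refine (MvPolynomial.mem_pow_idealOfVars_iff' ..).mpr fun x hx ↦ ?_
  simp [MvPowerSeries.coeff_truncTotal _ hx]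

lemma evalHom_X {h : ℕ} (a : Fin h → A) (ha : ∀ i, a i ∈ maximalIdeal A) (i : Fin h) :
    evalHom a ha (MvPowerSeries.X i : MvPowerSeries (Fin h) k) = a i := by
  have := evalHom_coe (k := k) a ha (MvPolynomial.X i)
  simpa using this

lemma evalHom_C {h : ℕ} (a : Fin h → A) (ha : ∀ i, a i ∈ maximalIdeal A) (c : k) :
    evalHom a ha (MvPowerSeries.C c : MvPowerSeries (Fin h) k) = algebraMap k A c := by
  have := evalHom_coe (k := k) a ha (MvPolynomial.C c)
  simpa using this

lemma evalHom_sub_algebraMap_mem {h : ℕ} (a : Fin h → A) (ha : ∀ i, a i ∈ maximalIdeal A)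
    (p : MvPowerSeries (Fin h) k) :
    evalHom a ha p - algebraMap k A (MvPowerSeries.constantCoeff p) ∈ maximalIdeal A := by
  have h0 : p - MvPowerSeries.C (MvPowerSeries.constantCoeff p) ∈
      Ideal.span (Set.range (MvPowerSeries.X : Fin h → MvPowerSeries (Fin h) k)) := by
    apply mem_span_X_of_constantCoeff
    simp
  have h1 : Ideal.span (Set.range (MvPowerSeries.X : Fin h → MvPowerSeries (Fin h) k)) ≤
      (maximalIdeal A).comap (evalHom a ha) := by
    rw [Ideal.span_le]
    rintro _ ⟨i, rfl⟩
    rw [SetLike.mem_coe, Ideal.mem_comap, evalHom_X]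
    exact ha i
  have h2 := h1 h0
  rwa [Ideal.mem_comap, map_sub, evalHom_C] at h2

/-- If the `a i` generate the maximal ideal and the residue field of `A` is `k`, then
`evalHom` is surjective. -/
lemma evalHom_surjective {h : ℕ} (a : Fin h → A) (ha : ∀ i, a i ∈ maximalIdeal A)
    (hspan : Ideal.span (Set.range a) = maximalIdeal A)
    (hres : ∀ x : A, ∃ c : k, x - algebraMap k A c ∈ maximalIdeal A) :
    Function.Surjective (evalHom (k := k) a ha) := by
  have hmap : Ideal.map (evalHom (k := k) a ha)
      (Ideal.span (Set.range (MvPowerSeries.X : Fin h → MvPowerSeries (Fin h) k))) =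
      maximalIdeal A := by
    rw [Ideal.map_span, ← Set.range_comp, ← hspan]
    congr 2
    ext1 i
    simp [evalHom_X]
  have : IsHausdorff (Ideal.map (evalHom (k := k) a ha)
      (Ideal.span (Set.range (MvPowerSeries.X : Fin h → MvPowerSeries (Fin h) k)))) A := by
    rw [hmap]; infer_instance
  apply surjective_of_mk_map_comp_surjective (evalHom (k := k) a ha)
    (I := Ideal.span (Set.range (MvPowerSeries.X : Fin h → MvPowerSeries (Fin h) k)))
  intro y
  obtain ⟨x, rfl⟩ := Ideal.Quotient.mk_surjective y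
  obtain ⟨c, hc⟩ := hres x
  refine ⟨MvPowerSeries.C c, ?_⟩
  rw [RingHom.comp_apply, evalHom_C, Ideal.Quotient.eq, hmap]
  rw [← neg_sub]
  exact (Ideal.neg_mem_iff _).2 hc

omit [Algebra k A] in
/-- Two evaluations agreeing on the constants and the variables are equal. -/
lemma eval_ext {h : ℕ} (f₁ f₂ : MvPowerSeries (Fin h) k →+* A)
    (hC : ∀ c, f₁ (MvPowerSeries.C c) = f₂ (MvPowerSeries.C c))
    (hX : ∀ i, f₁ (MvPowerSeries.X i) = f₂ (MvPowerSeries.X i))
    (hm : ∀ i, f₁ (MvPowerSeries.X i) ∈ maximalIdeal A) : f₁ = f₂ := by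
  have key : ∀ (N : ℕ) (x : MvPowerSeries (Fin h) k), f₁ x - f₂ x ∈ maximalIdeal A ^ N := by
    intro N
    induction N with
    | zero => intro x; simp
    | succ N ih =>
      intro x
      have h0 : x - MvPowerSeries.C (MvPowerSeries.constantCoeff x) ∈
          Ideal.span (Set.range (MvPowerSeries.X : Fin h → MvPowerSeries (Fin h) k)) := by
        apply mem_span_X_of_constantCoeff
        simp
      obtain ⟨q, hq⟩ := (Ideal.mem_span_range_iff_exists_fun).1 h0
      have h1 : x = MvPowerSeries.C (MvPowerSeries.constantCoeff x) +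
          ∑ i, q i * MvPowerSeries.X i := by rw [hq]; ring
      have h2 : f₁ x - f₂ x = ∑ i, f₁ (MvPowerSeries.X i) * (f₁ (q i) - f₂ (q i)) := by
        rw [h1]
        simp only [map_add, map_sum, map_mul, hC, ← hX, mul_sub, Finset.sum_sub_distrib]
        simp only [mul_comm]
        ring
      rw [h2, pow_succ']
      exact Ideal.sum_mem _ fun i _ => Ideal.mul_mem_mul (hm i) (ih _)
  ext x
  have h3 := (IsHausdorff.haus' (I := maximalIdeal A) (f₁ x - f₂ x)) (by
    intro n
    rw [SModEq.zero, smul_eq_mul, Ideal.mul_top]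
    exact key n x)
  exact sub_eq_zero.1 h3

end Presentation

section Presentation'

variable {k : Type*} [Field k] {A : Type*} [CommRing A] [IsLocalRing A] [Algebra k A]
  [IsAdicComplete (maximalIdeal A) A]

/-- If moreover the `a i` are linearly independent modulo `m_A ^ 2`, the kernel of
`evalHom` lies in `m ^ 2`. -/
lemma ker_evalHom_le {h : ℕ} (a : Fin h → A) (ha : ∀ i, a i ∈ maximalIdeal A)
    (hind : ∀ b : Fin h → A, ∑ i, b i * a i ∈ maximalIdeal A ^ 2 → ∀ i, b i ∈ maximalIdeal A) :
    RingHom.ker (evalHom (k := k) a ha) ≤ maximalIdeal (MvPowerSeries (Fin h) k) ^ 2 := by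
  intro p hp
  rw [RingHom.mem_ker] at hp
  have hp0 : p ∈ maximalIdeal (MvPowerSeries (Fin h) k) := by
    rw [mem_maximalIdeal_iff]
    by_contra hne
    have h1 := evalHom_sub_algebraMap_mem a ha p
    rw [hp, zero_sub, Ideal.neg_mem_iff] at h1
    have : IsUnit (algebraMap k A (MvPowerSeries.constantCoeff p)) :=
      (IsUnit.mk0 _ hne).map _
    exact (IsLocalRing.mem_maximalIdeal _).1 h1 this
  rw [maximalIdeal_eq_span_X] at hp0
  obtain ⟨q, hq⟩ := (Ideal.mem_span_range_iff_exists_fun).1 hp0
  have h2 : ∑ i, evalHom a ha (q i) * a i = 0 := by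
    rw [← hp, ← hq, map_sum]
    simp [evalHom_X]
  have h3 := hind (fun i => evalHom a ha (q i)) (by rw [h2]; exact Ideal.zero_mem _)
  have h4 : ∀ i, q i ∈ maximalIdeal (MvPowerSeries (Fin h) k) := by
    intro i
    rw [mem_maximalIdeal_iff]
    by_contra hne
    have h5 := evalHom_sub_algebraMap_mem a ha (q i)
    have h6 := Ideal.sub_mem _ (h3 i) h5
    rw [sub_sub_cancel] at h6
    exact (IsLocalRing.mem_maximalIdeal _).1 h6 ((IsUnit.mk0 _ hne).map _)
  rw [← hq, pow_two]
  apply Ideal.sum_mem
  intro i _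
  apply Ideal.mul_mem_mul (h4 i)
  rw [maximalIdeal_eq_span_X]
  exact Ideal.subset_span ⟨i, rfl⟩

end Presentation'

section Exists

variable {k : Type*} [Field k] {A : Type*} [CommRing A] [IsLocalRing A] [Algebra k A]
  [IsNoetherianRing A] [IsAdicComplete (maximalIdeal A) A]

/-- Existence of a minimal presentation of a complete Noetherian local `k`-algebra with
residue field `k`, by a power series ring in `dim m/m^2` variables. -/
theorem exists_presentation (hres : ∀ x : A, ∃ c : k, x - algebraMap k A c ∈ maximalIdeal A) :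
    ∃ (h : ℕ) (θ : MvPowerSeries (Fin h) k →+* A), Function.Surjective θ ∧
      (∀ p, θ p - algebraMap k A (MvPowerSeries.constantCoeff p) ∈ maximalIdeal A) ∧
      (∀ c : k, θ (MvPowerSeries.C c) = algebraMap k A c) ∧
      RingHom.ker θ ≤ maximalIdeal (MvPowerSeries (Fin h) k) ^ 2 ∧
      h = Module.finrank (ResidueField A) (CotangentSpace A) := by
  classical
  set h := Module.finrank (ResidueField A) (CotangentSpace A) with hh
  let bas := Module.finBasis (ResidueField A) (CotangentSpace A)
  have hsurj := (maximalIdeal A).toCotangent_surjective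
  choose a' ha' using fun i => hsurj (bas i)
  let a : Fin h → A := fun i => a' i
  have ha : ∀ i, a i ∈ maximalIdeal A := fun i => (a' i).2
  have hspan : Ideal.span (Set.range a) = maximalIdeal A := by
    have h1 : Submodule.span (ResidueField A)
        ((maximalIdeal A).toCotangent '' (Set.range a')) = ⊤ := by
      rw [← Set.range_comp]
      have : (maximalIdeal A).toCotangent ∘ a' = bas := by
        ext1 i; exact ha' i
      rw [this]
      exact bas.span_eq
    rw [CotangentSpace.span_image_eq_top_iff] at h1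
    have h2 := congrArg (Submodule.map (maximalIdeal A).subtype) h1
    rw [Submodule.map_span, Submodule.map_top, Submodule.range_subtype, ← Set.range_comp] at h2
    exact h2
  have hind : ∀ b : Fin h → A, ∑ i, b i * a i ∈ maximalIdeal A ^ 2 →
      ∀ i, b i ∈ maximalIdeal A := by
    intro b hb
    have h1 : (maximalIdeal A).toCotangent (∑ i, b i • a' i) = 0 := by
      rw [Ideal.toCotangent_eq_zero]
      simpa using hb
    rw [map_sum] at h1
    have h2 : ∑ i, (IsLocalRing.residue A (b i)) • bas i = 0 := by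
      rw [← h1]
      apply Finset.sum_congr rfl
      intro i _
      rw [map_smul, ha' i]
      rfl
    have h3 := Fintype.linearIndependent_iff.1 bas.linearIndependent _ h2
    intro i
    have := h3 i
    rwa [IsLocalRing.residue_eq_zero_iff] at this
  exact ⟨h, evalHom a ha, evalHom_surjective a ha hspan hres,
    evalHom_sub_algebraMap_mem a ha, evalHom_C a ha, ker_evalHom_le a ha hind, rfl⟩

end Exists

end Pool.Agent.Helper59
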