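import Pool.Agent.Helper59.Cocycles
import Pool.Agent.Helper59.Presentation
import Pool.Agent.Helper59.Complete

set_option linter.unusedSectionVars false

open IsLocalRing
open scoped MatrixGroups

namespace Pool.Agent.Helper59

/-- power series in `h` variables over `F` -/
abbrev PS (F : Type) [Field F] (h : ℕ) : Type := MvPowerSeries (Fin h) F

section Functional

variable {F : Type} [Field F] {h : ℕ}

instance isAdicComplete_PS : IsAdicComplete (maximalIdeal (PS F h)) (PS F h) := by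
  rw [maximalIdeal_eq_span_X]
  infer_instance

/-- `J' / K` as a vector space over `F` -/
abbrev QSp (J' K : Ideal (PS F h)) : Type :=
  ↥(J'.restrictScalars F) ⧸ ((K.restrictScalars F).submoduleOf (J'.restrictScalars F))

open Classical in
/-- a functional on `J' / K` viewed as a function on power series -/
noncomputable def fJ {J' K : Ideal (PS F h)} (f : Module.Dual F (QSp J' K)) (x : PS F h) : F :=
  if hx : x ∈ J' then f (Submodule.Quotient.mk ⟨x, hx⟩) else 0

variable {J' K : Ideal (PS F h)} (f : Module.Dual F (QSp J' K))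

lemma fJ_of_mem {x : PS F h} (hx : x ∈ J') :
    fJ f x = f (Submodule.Quotient.mk ⟨x, hx⟩) := by
  unfold fJ
  rw [dif_pos hx]

lemma fJ_add {x y : PS F h} (hx : x ∈ J') (hy : y ∈ J') :
    fJ f (x + y) = fJ f x + fJ f y := by
  rw [fJ_of_mem f hx, fJ_of_mem f hy, fJ_of_mem f (Ideal.add_mem _ hx hy), ← map_add]
  rfl

lemma fJ_smul (c : F) {x : PS F h} (hx : x ∈ J') :
    fJ f (c • x) = c * fJ f x := by
  have hcx : c • x ∈ J' := by
    rw [Algebra.smul_def]; exact Ideal.mul_mem_left _ _ hx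
  rw [fJ_of_mem f hx, fJ_of_mem f hcx, ← smul_eq_mul, ← map_smul]
  rfl

lemma fJ_of_mem_K (hKJ : K ≤ J') {x : PS F h} (hx : x ∈ K) : fJ f x = 0 := by
  rw [fJ_of_mem f (hKJ hx)]
  have : (Submodule.Quotient.mk ⟨x, hKJ hx⟩ : QSp J' K) = 0 := by
    rw [Submodule.Quotient.mk_eq_zero]
    exact hx
  rw [this, map_zero]

lemma fJ_zero : fJ f 0 = 0 := by
  rw [fJ_of_mem f (Ideal.zero_mem _)]
  have : (Submodule.Quotient.mk ⟨0, Ideal.zero_mem _⟩ : QSp J' K) = 0 := rfl
  rw [this, map_zero]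

lemma fJ_neg {x : PS F h} (hx : x ∈ J') : fJ f (-x) = -fJ f x := by
  have := fJ_add f hx (Ideal.neg_mem_iff _ |>.2 hx)
  rw [add_neg_cancel, fJ_zero] at this
  exact (neg_eq_of_add_eq_zero_right this.symm).symm

lemma fJ_sub {x y : PS F h} (hx : x ∈ J') (hy : y ∈ J') :
    fJ f (x - y) = fJ f x - fJ f y := by
  rw [sub_eq_add_neg, fJ_add f hx (Ideal.neg_mem_iff _ |>.2 hy), fJ_neg f hy, sub_eq_add_neg]

lemma fJ_sum {ι : Type*} (s : Finset ι) (x : ι → PS F h) (hx : ∀ i ∈ s, x i ∈ J') :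
    fJ f (∑ i ∈ s, x i) = ∑ i ∈ s, fJ f (x i) := by
  classical
  induction s using Finset.induction_on with
  | empty => simp [fJ_zero]
  | insert a s has ih =>
    rw [Finset.sum_insert has, Finset.sum_insert has, fJ_add f (hx a (Finset.mem_insert_self _ _)),
      ih (fun i hi => hx i (Finset.mem_insert_of_mem hi))]
    exact Ideal.sum_mem _ (fun i hi => hx i (Finset.mem_insert_of_mem hi))

lemma sub_C_mem (x : PS F h) :
    x - MvPowerSeries.C (MvPowerSeries.constantCoeff x) ∈ maximalIdeal (PS F h) := by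
  rw [mem_maximalIdeal_iff]; simp

lemma fJ_mul (hKJ : K ≤ J') (hmJ : maximalIdeal (PS F h) * J' ≤ K) (x : PS F h) {y : PS F h}
    (hy : y ∈ J') : fJ f (x * y) = MvPowerSeries.constantCoeff x * fJ f y := by
  have h1 : x * y = MvPowerSeries.constantCoeff x • y +
      (x - MvPowerSeries.C (MvPowerSeries.constantCoeff x)) * y := by
    rw [MvPowerSeries.smul_eq_C_mul]; ring
  have h2 : (x - MvPowerSeries.C (MvPowerSeries.constantCoeff x)) * y ∈ K :=
    hmJ (Ideal.mul_mem_mul (sub_C_mem x) hy)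
  have h3 : MvPowerSeries.constantCoeff x • y ∈ J' := by
    rw [Algebra.smul_def]; exact Ideal.mul_mem_left _ _ hy
  rw [h1, fJ_add f h3 (hKJ h2), fJ_of_mem_K f hKJ h2, add_zero, fJ_smul f _ hy]

variable {n : ℕ}

lemma map_fJ_mul_left (hKJ : K ≤ J') (hmJ : maximalIdeal (PS F h) * J' ≤ K)
    (M D : Matrix (Fin n) (Fin n) (PS F h)) (hD : ∀ i j, D i j ∈ J') :
    (M * D).map (fJ f) = M.map MvPowerSeries.constantCoeff * D.map (fJ f) := by
  ext i j
  simp only [Matrix.map_apply, Matrix.mul_apply]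
  rw [fJ_sum f _ _ (fun k _ => Ideal.mul_mem_left _ _ (hD k j))]
  apply Finset.sum_congr rfl
  intro k _
  rw [fJ_mul f hKJ hmJ _ (hD k j)]

lemma map_fJ_mul_right (hKJ : K ≤ J') (hmJ : maximalIdeal (PS F h) * J' ≤ K)
    (M D : Matrix (Fin n) (Fin n) (PS F h)) (hD : ∀ i j, D i j ∈ J') :
    (D * M).map (fJ f) = D.map (fJ f) * M.map MvPowerSeries.constantCoeff := by
  ext i j
  simp only [Matrix.map_apply, Matrix.mul_apply]
  rw [fJ_sum f _ _ (fun k _ => Ideal.mul_mem_right _ _ (hD i k))]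
  apply Finset.sum_congr rfl
  intro k _
  rw [mul_comm, fJ_mul f hKJ hmJ _ (hD i k), mul_comm]

lemma map_fJ_add (D E : Matrix (Fin n) (Fin n) (PS F h)) (hD : ∀ i j, D i j ∈ J')
    (hE : ∀ i j, E i j ∈ J') : (D + E).map (fJ f) = D.map (fJ f) + E.map (fJ f) := by
  ext i j
  simp only [Matrix.map_apply, Matrix.add_apply]
  rw [fJ_add f (hD i j) (hE i j)]

lemma map_fJ_sub (D E : Matrix (Fin n) (Fin n) (PS F h)) (hD : ∀ i j, D i j ∈ J')
    (hE : ∀ i j, E i j ∈ J') : (D - E).map (fJ f) = D.map (fJ f) - E.map (fJ f) := by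
  ext i j
  simp only [Matrix.map_apply, Matrix.sub_apply]
  rw [fJ_sub f (hD i j) (hE i j)]

/-- The ideal of elements of `J'` killed by the functional. -/
def cIdeal (f : Module.Dual F (QSp J' K)) (hKJ : K ≤ J')
    (hmJ : maximalIdeal (PS F h) * J' ≤ K) : Ideal (PS F h) where
  carrier := {x | x ∈ J' ∧ fJ f x = 0}
  add_mem' := by
    rintro a b ⟨ha, ha'⟩ ⟨hb, hb'⟩
    exact ⟨Ideal.add_mem _ ha hb, by rw [fJ_add f ha hb, ha', hb', add_zero]⟩
  zero_mem' := ⟨Ideal.zero_mem _, fJ_zero f⟩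
  smul_mem' := by
    rintro c a ⟨ha, ha'⟩
    exact ⟨Ideal.mul_mem_left _ _ ha, by rw [smul_eq_mul, fJ_mul f hKJ hmJ c ha, ha', mul_zero]⟩

end Functional

section Cocycle

variable {F : Type} [Field F] {h : ℕ} {J' K : Ideal (PS F h)} {n : ℕ}
variable {G : Type*} [Group G] [TopologicalSpace G] [IsTopologicalGroup G]
  {ρ : G →* GL (Fin n) F}

/-- The obstruction cocycle attached to a functional on `J' / K`. -/
noncomputable def obsFun (ρ : G →* GL (Fin n) F) (t : G → Matrix (Fin n) (Fin n) (PS F h))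
    (f : Module.Dual F (QSp J' K)) (g k : G) : Matrix (Fin n) (Fin n) F :=
  (t g * t k - t (g * k)).map (fJ f) * (((ρ (g * k))⁻¹ : GL (Fin n) F) : Matrix _ _ F)

lemma obsFun_cocycle (hKJ : K ≤ J') (hmJ : maximalIdeal (PS F h) * J' ≤ K)
    (t : G → Matrix (Fin n) (Fin n) (PS F h))
    (ht : ∀ g k i j, (t g * t k - t (g * k)) i j ∈ J')
    (hε : ∀ g, (t g).map MvPowerSeries.constantCoeff = (ρ g : Matrix (Fin n) (Fin n) F))
    (f : Module.Dual F (QSp J' K)) (a b c : G) :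
    ad ρ a (obsFun ρ t f b c) - obsFun ρ t f (a * b) c + obsFun ρ t f a (b * c) -
      obsFun ρ t f a b = 0 := by
  have e1 : (t a * t b - t (a * b)) * t c + (t (a * b) * t c - t (a * b * c)) =
      t a * (t b * t c - t (b * c)) + (t a * t (b * c) - t (a * (b * c))) := by
    rw [mul_assoc a b c]
    noncomm_ring
  have e2 := congrArg (fun M : Matrix (Fin n) (Fin n) (PS F h) => M.map (fJ f)) e1
  beta_reduce at e2
  have hL : ∀ i j, ((t a * t b - t (a * b)) * t c) i j ∈ J' := by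
    intro i j
    rw [Matrix.mul_apply]
    exact Ideal.sum_mem _ (fun k _ => Ideal.mul_mem_right _ _ (ht a b i k))
  have hR : ∀ i j, (t a * (t b * t c - t (b * c))) i j ∈ J' := by
    intro i j
    rw [Matrix.mul_apply]
    exact Ideal.sum_mem _ (fun k _ => Ideal.mul_mem_left _ _ (ht b c k j))
  rw [map_fJ_add f _ _ hL (ht (a * b) c), map_fJ_add f _ _ hR (ht a (b * c)),
    map_fJ_mul_right f hKJ hmJ _ _ (ht a b), map_fJ_mul_left f hKJ hmJ _ _ (ht b c),
    hε a, hε c] at e2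
  unfold obsFun ad
  have i1 : (((ρ (b * c))⁻¹ : GL (Fin n) F) : Matrix (Fin n) (Fin n) F) *
      (((ρ a)⁻¹ : GL (Fin n) F) : Matrix (Fin n) (Fin n) F) =
      (((ρ (a * b * c))⁻¹ : GL (Fin n) F) : Matrix (Fin n) (Fin n) F) := by
    rw [← Units.val_mul, ← mul_inv_rev, ← map_mul, mul_assoc a b c]
  have i2 : (ρ c : Matrix (Fin n) (Fin n) F) *
      (((ρ (a * b * c))⁻¹ : GL (Fin n) F) : Matrix (Fin n) (Fin n) F) =
      (((ρ (a * b))⁻¹ : GL (Fin n) F) : Matrix (Fin n) (Fin n) F) := by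
    rw [← Units.val_mul, map_mul ρ (a * b) c, mul_inv_rev, mul_inv_cancel_left]
  have e3 := congrArg (fun M : Matrix (Fin n) (Fin n) F =>
    M * (((ρ (a * b * c))⁻¹ : GL (Fin n) F) : Matrix (Fin n) (Fin n) F)) e2
  simp only [add_mul] at e3
  rw [mul_assoc _ (ρ c : Matrix (Fin n) (Fin n) F), i2] at e3
  rw [← mul_assoc a b c]
  rw [mul_assoc (ρ a : Matrix (Fin n) (Fin n) F), mul_assoc _ _ (((ρ a)⁻¹ : GL (Fin n) F) : Matrix (Fin n) (Fin n) F), i1]
  rw [mul_assoc (ρ a : Matrix (Fin n) (Fin n) F)] at e3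
  rw [mul_assoc a b c] at e3 ⊢
  rw [sub_eq_zero, sub_add_eq_add_sub, sub_eq_iff_eq_add]
  rw [← e3]

end Cocycle

end Pool.Agent.Helper59
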