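import Pool.Agent.Helper59.Coeff

set_option linter.unusedSectionVars false

open IsLocalRing

namespace Pool.Agent.Helper59

/-- A quotient of a Noetherian ring complete for an ideal `𝔮` is complete if the image of `𝔮` is
the maximal ideal. -/
lemma isAdicComplete_quotient' {R : Type*} [CommRing R] [IsNoetherianRing R] {𝔮 : Ideal R}
    [IsAdicComplete 𝔮 R] {I : Ideal R} [IsLocalRing (R ⧸ I)]
    (hI : maximalIdeal (R ⧸ I) = 𝔮.map (Ideal.Quotient.mk I)) :
    IsAdicComplete (maximalIdeal (R ⧸ I)) (R ⧸ I) := by
  have h1 : IsPrecomplete 𝔮 (R ⧸ I) := by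
    rw [← AdicCompletion.of_surjective_iff]
    have hsurj : Function.Surjective
        (AdicCompletion.map 𝔮 (Submodule.mkQ (I : Submodule R R))) :=
      AdicCompletion.map_surjective _ (Submodule.mkQ_surjective _)
    have h2 : Function.Surjective (AdicCompletion.of 𝔮 R) :=
      AdicCompletion.of_surjective _ _
    intro y
    obtain ⟨x, rfl⟩ := hsurj y
    obtain ⟨r, rfl⟩ := h2 x
    exact ⟨Submodule.mkQ (I : Submodule R R) r, by
      rw [AdicCompletion.map_of]⟩
  have h3 : IsPrecomplete (maximalIdeal (R ⧸ I)) (R ⧸ I) := by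
    rw [hI]
    exact IsPrecomplete.map_algebraMap_iff.2 h1
  exact { toIsHausdorff := inferInstance, toIsPrecomplete := h3 }

section PW

variable (p : ℕ) [Fact p.Prime] (F : Type) [Field F] [CharP F p] [Finite F] (s : ℕ)

/-- power series over `W(F)` -/
abbrev QW : Type := MvPowerSeries (Fin (s + 1)) (WittVector p F)

/-- the ideal `(X_0 - p)` -/
noncomputable def pId : Ideal (QW p F s) :=
  Ideal.span {MvPowerSeries.X 0 - MvPowerSeries.C (p : WittVector p F)}

/-- reduction of the constant coefficient -/
noncomputable def resQ : QW p F s →+* F :=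
  (WittVector.constantCoeff).comp (MvPowerSeries.constantCoeff)

lemma pId_le_ker : ∀ a ∈ pId p F s, resQ p F s a = 0 := by
  intro a ha
  obtain ⟨b, rfl⟩ := Ideal.mem_span_singleton'.1 ha
  rw [map_mul]
  have : resQ p F s (MvPowerSeries.X 0 - MvPowerSeries.C (p : WittVector p F)) = 0 := by
    rw [map_sub]
    simp only [resQ, RingHom.comp_apply, MvPowerSeries.constantCoeff_X,
      MvPowerSeries.constantCoeff_C, map_zero, map_natCast, CharP.cast_eq_zero, sub_zero]
  rw [this, mul_zero]

lemma resQ_surjective : Function.Surjective (resQ p F s) := by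
  intro x
  obtain ⟨w, hw⟩ := WittVector.constantCoeff_surjective p x
  exact ⟨MvPowerSeries.C w, by simp [resQ, hw]⟩

lemma ker_resQ : RingHom.ker (resQ p F s) = maximalIdeal (QW p F s) := by
  have : (RingHom.ker (resQ p F s)).IsMaximal :=
    RingHom.ker_isMaximal_of_surjective _ (resQ_surjective p F s)
  exact IsLocalRing.eq_maximalIdeal this

lemma pId_ne_top : pId p F s ≠ ⊤ := by
  intro h
  have h1 := pId_le_ker p F s 1 (by rw [h]; trivial)
  rw [map_one] at h1
  exact one_ne_zero h1

instance : IsLocalRing (QW p F s ⧸ pId p F s) := isLocalRing_quotient (pId_ne_top p F s)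

lemma maximalIdeal_PW : maximalIdeal (QW p F s ⧸ pId p F s) =
    (Ideal.span (Set.range (MvPowerSeries.X : Fin (s + 1) → QW p F s))).map
      (Ideal.Quotient.mk (pId p F s)) := by
  rw [maximalIdeal_quotient]
  apply le_antisymm
  · rw [Ideal.map_le_iff_le_comap]
    intro x hx
    rw [← ker_resQ, RingHom.mem_ker] at hx
    have h0 : x - MvPowerSeries.C (MvPowerSeries.constantCoeff x) ∈
        Ideal.span (Set.range (MvPowerSeries.X : Fin (s + 1) → QW p F s)) := by
      apply mem_span_X_of_constantCoeff
      simp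
    have h1 : MvPowerSeries.constantCoeff x ∈ Ideal.span {(p : WittVector p F)} := by
      rw [← WittVector.ker_constantCoeff, RingHom.mem_ker]
      exact hx
    obtain ⟨w, hw⟩ := Ideal.mem_span_singleton'.1 h1
    rw [Ideal.mem_comap]
    have h2 : x = (x - MvPowerSeries.C (MvPowerSeries.constantCoeff x)) +
        MvPowerSeries.C w * (MvPowerSeries.X 0) -
        MvPowerSeries.C w * (MvPowerSeries.X 0 - MvPowerSeries.C (p : WittVector p F)) := by
      rw [← hw, map_mul]
      ring
    rw [h2, map_sub, map_add]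
    apply Ideal.sub_mem
    · apply Ideal.add_mem
      · exact Ideal.mem_map_of_mem _ h0
      · exact Ideal.mem_map_of_mem _ (Ideal.mul_mem_left _ _ (Ideal.subset_span ⟨0, rfl⟩))
    · have h3 : Ideal.Quotient.mk (pId p F s) (MvPowerSeries.C w *
          (MvPowerSeries.X 0 - MvPowerSeries.C (p : WittVector p F))) = 0 := by
        rw [Ideal.Quotient.eq_zero_iff_mem]
        exact Ideal.mul_mem_left _ _ (Ideal.subset_span rfl)
      rw [h3]
      exact Ideal.zero_mem _
  · apply Ideal.map_mono
    rw [Ideal.span_le]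
    rintro _ ⟨i, rfl⟩
    rw [SetLike.mem_coe, ← ker_resQ, RingHom.mem_ker]
    simp [resQ]

/-- the power series ring `W(F)[[X_1, …, X_s]]`, realised as `W(F)[[X_0, …, X_s]]/(X_0 - p)` -/
noncomputable def PW : CoeffRing p F where
  carrier := QW p F s ⧸ pId p F s
  isAdicComplete := isAdicComplete_quotient' (maximalIdeal_PW p F s)
  residue := Ideal.Quotient.lift (pId p F s) (resQ p F s) (pId_le_ker p F s)
  residue_algebraMap := by
    intro w
    change Ideal.Quotient.lift (pId p F s) (resQ p F s) (pId_le_ker p F s)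
      (Ideal.Quotient.mk (pId p F s) (MvPowerSeries.C w)) = _
    rw [Ideal.Quotient.lift_mk]
    simp [resQ]

/-- the quotient map `W(F)[[X_0, …, X_s]] → P` -/
noncomputable def mkP : QW p F s →+* PW p F s := Ideal.Quotient.mk (pId p F s)

lemma mkP_surjective : Function.Surjective (mkP p F s) := Ideal.Quotient.mk_surjective

lemma mkP_C (w : WittVector p F) :
    mkP p F s (MvPowerSeries.C w) = algebraMap (WittVector p F) (PW p F s) w := rfl

/-- the variables of `P` -/
noncomputable def xP (i : Fin s) : PW p F s := mkP p F s (MvPowerSeries.X i.succ)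

lemma mkP_X_zero : mkP p F s (MvPowerSeries.X 0) = (p : PW p F s) := by
  have h1 : mkP p F s (MvPowerSeries.X 0 - MvPowerSeries.C (p : WittVector p F)) = 0 := by
    refine Ideal.Quotient.eq_zero_iff_mem.2 ?_
    exact Ideal.subset_span rfl
  rw [map_sub, sub_eq_zero, mkP_C, map_natCast] at h1
  exact h1

lemma residue_mkP (x : QW p F s) : (PW p F s).residue (mkP p F s x) = resQ p F s x := rfl

lemma residue_xP (i : Fin s) : (PW p F s).residue (xP p F s i) = 0 := by
  rw [xP, residue_mkP]
  simp [resQ]

variable {p F s}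

/-- evaluation maps out of `P` -/
theorem exists_evalP (A : CoeffRing p F) (a : Fin s → A) (ha : ∀ i, a i ∈ maximalIdeal A) :
    ∃ ψ : PW p F s →ₐ[WittVector p F] A, IsLocalHom (ψ : PW p F s →+* A) ∧
      ∀ i, ψ (xP p F s i) = a i := by
  let a' : Fin (s + 1) → A := Fin.cons (p : A) a
  have ha' : ∀ i, a' i ∈ maximalIdeal A := by
    intro i
    refine Fin.cases ?_ ?_ i
    · exact natCast_p_mem A
    · intro j; exact ha j
  let f : QW p F s →+* A := evalHom a' ha'
  have hf : ∀ x ∈ pId p F s, f x = 0 := by
    intro x hx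
    obtain ⟨b, rfl⟩ := Ideal.mem_span_singleton'.1 hx
    rw [map_mul, map_sub]
    have h1 : f (MvPowerSeries.X 0) = (p : A) := evalHom_X a' ha' 0
    have h2 : f (MvPowerSeries.C (p : WittVector p F)) = (p : A) := by
      rw [show f (MvPowerSeries.C (p : WittVector p F)) = algebraMap _ A _ from
        evalHom_C a' ha' _, map_natCast]
    rw [h1, h2, sub_self, mul_zero]
  let ψ : PW p F s →+* A := Ideal.Quotient.lift (pId p F s) f hf
  have hψ : ∀ x, ψ (mkP p F s x) = f x := fun x => rfl
  have hres : ∀ x, A.residue (ψ x) = (PW p F s).residue x := by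
    intro x
    obtain ⟨y, rfl⟩ := mkP_surjective p F s x
    rw [hψ, residue_mkP]
    have h1 := evalHom_sub_algebraMap_mem a' ha' y
    rw [← A.residue_eq_zero_iff, map_sub, A.residue_algebraMap, sub_eq_zero] at h1
    exact h1
  refine ⟨{ ψ with commutes' := fun w => ?_ }, ?_, fun i => ?_⟩
  · exact evalHom_C a' ha' w
  · exact CoeffRing.isLocalHom_of_residue ψ hres
  · exact evalHom_X a' ha' i.succ

/-- maps out of `P` are determined by the images of the variables -/
theorem evalP_ext {A : CoeffRing p F} (f₁ f₂ : PW p F s →+* A)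
    (hC : ∀ w, f₁ (algebraMap (WittVector p F) _ w) = f₂ (algebraMap (WittVector p F) _ w))
    (hX : ∀ i, f₁ (xP p F s i) = f₂ (xP p F s i)) (hloc : IsLocalHom f₁) : f₁ = f₂ := by
  have h1 : f₁.comp (mkP p F s) = f₂.comp (mkP p F s) := by
    apply eval_ext
    · intro c
      exact hC c
    · intro i
      refine Fin.cases ?_ ?_ i
      · rw [RingHom.comp_apply, RingHom.comp_apply, mkP_X_zero, map_natCast, map_natCast]
      · intro j
        exact hX j
    · intro i
      rw [RingHom.comp_apply, mem_maximalIdeal, mem_nonunits_iff]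
      intro hu
      have h2 := hloc.map_nonunit _ hu
      have h3 : (PW p F s).residue (mkP p F s (MvPowerSeries.X i)) = 0 := by
        rw [residue_mkP]; simp [resQ]
      exact (h2.map (PW p F s).residue).ne_zero h3
  ext x
  obtain ⟨y, rfl⟩ := mkP_surjective p F s x
  exact RingHom.congr_fun h1 y

end PW

end Pool.Agent.Helper59
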