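import Pool.Agent.Helper59.Descent

set_option linter.unusedSectionVars false

open IsLocalRing Topology
open scoped MatrixGroups

namespace Pool.Agent.Helper59

variable {p : ℕ} [Fact p.Prime] {F : Type} [Field F] [CharP F p] [Finite F]
variable {G : Type} [Group G] [TopologicalSpace G] {m : ℕ}

section gauge

variable {A : Type} [CommRing A] [Algebra (WittVector p F) A]

/-- the combination `∑ c_g r(g)` -/
noncomputable def gaugeX (w : G →₀ WittVector p F) (r : G → Matrix (Fin (m + 1)) (Fin (m + 1)) A) :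
    Matrix (Fin (m + 1)) (Fin (m + 1)) A := w.sum fun g c => c • r g

/-- the gauge condition modulo the ideal `𝔞` -/
def Gauge (w : Fin (m + 1) → (G →₀ WittVector p F)) (𝔞 : Ideal A)
    (r : G → Matrix (Fin (m + 1)) (Fin (m + 1)) A) : Prop :=
  ∀ i j, ¬ (i = 0 ∧ j = 0) →
    gaugeX (w i) r j 0 - (1 : Matrix (Fin (m + 1)) (Fin (m + 1)) A) i j ∈ 𝔞

lemma gaugeX_apply (w : G →₀ WittVector p F) (r : G → Matrix (Fin (m + 1)) (Fin (m + 1)) A)
    (i j : Fin (m + 1)) : gaugeX w r i j = w.sum fun g c => c • r g i j := by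
  unfold gaugeX Finsupp.sum
  rw [Matrix.sum_apply]
  rfl

lemma Gauge.mono {w : Fin (m + 1) → (G →₀ WittVector p F)} {𝔞 𝔟 : Ideal A} (h : 𝔞 ≤ 𝔟)
    {r : G → Matrix (Fin (m + 1)) (Fin (m + 1)) A} (hr : Gauge w 𝔞 r) : Gauge w 𝔟 r :=
  fun i j hij => h (hr i j hij)

lemma gaugeX_sub_mem (w : G →₀ WittVector p F) {𝔞 : Ideal A}
    {r r' : G → Matrix (Fin (m + 1)) (Fin (m + 1)) A} (h : ∀ g i j, r g i j - r' g i j ∈ 𝔞)
    (i j : Fin (m + 1)) : gaugeX w r i j - gaugeX w r' i j ∈ 𝔞 := by
  rw [gaugeX_apply, gaugeX_apply, Finsupp.sum, Finsupp.sum, ← Finset.sum_sub_distrib]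
  apply Ideal.sum_mem
  intro g _
  rw [← smul_sub, Algebra.smul_def]
  exact Ideal.mul_mem_left _ _ (h g i j)

lemma Gauge.congr {w : Fin (m + 1) → (G →₀ WittVector p F)} {𝔞 : Ideal A}
    {r r' : G → Matrix (Fin (m + 1)) (Fin (m + 1)) A} (h : ∀ g i j, r g i j - r' g i j ∈ 𝔞)
    (hr : Gauge w 𝔞 r) : Gauge w 𝔞 r' := by
  intro i j hij
  have h1 := hr i j hij
  have h2 := gaugeX_sub_mem (w i) h j 0
  have : gaugeX (w i) r' j 0 - (1 : Matrix (Fin (m + 1)) (Fin (m + 1)) A) i j =
      (gaugeX (w i) r j 0 - (1 : Matrix (Fin (m + 1)) (Fin (m + 1)) A) i j) -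
      (gaugeX (w i) r j 0 - gaugeX (w i) r' j 0) := by ring
  rw [this]
  exact Ideal.sub_mem _ h1 h2

lemma gaugeX_map {B : Type} [CommRing B] [Algebra (WittVector p F) B]
    (f : A →ₐ[WittVector p F] B) (w : G →₀ WittVector p F)
    (r : G → Matrix (Fin (m + 1)) (Fin (m + 1)) A) (i j : Fin (m + 1)) :
    gaugeX w (fun g => (r g).map f) i j = f (gaugeX w r i j) := by
  rw [gaugeX_apply, gaugeX_apply, Finsupp.sum, Finsupp.sum, map_sum]
  apply Finset.sum_congr rfl
  intro g _
  rw [map_smul]
  rfl

end gauge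

/-- A function `r : G → M_n(P)` which is a lift of `ρ` modulo the ideal `𝔞`. -/
structure PreLift (ρ : G →* GL (Fin (m + 1)) F) (P : CoeffRing p F)
    (w : Fin (m + 1) → (G →₀ WittVector p F)) {κ : Type} (γ : κ → G)
    (x : κ → Matrix (Fin (m + 1)) (Fin (m + 1)) P) (𝔞 : Ideal P)
    (r : G → Matrix (Fin (m + 1)) (Fin (m + 1)) P) : Prop where
  mul : ∀ g h i j, (r (g * h) - r g * r h) i j ∈ 𝔞
  red : ∀ g, (r g).map P.residue = (ρ g : Matrix (Fin (m + 1)) (Fin (m + 1)) F)
  cont : ∀ N g₀, ∀ᶠ g in 𝓝 g₀, ∀ i j, r g i j - r g₀ i j ∈ 𝔞 ⊔ maximalIdeal P ^ N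
  test : ∀ k i j, r (γ k) i j - x k i j ∈ 𝔞
  gauge : Gauge w 𝔞 r

variable {ρ : G →* GL (Fin (m + 1)) F} {P : CoeffRing p F}
  {w : Fin (m + 1) → (G →₀ WittVector p F)} {κ : Type} {γ : κ → G}
  {x : κ → Matrix (Fin (m + 1)) (Fin (m + 1)) P} {𝔞 𝔟 : Ideal P}
  {r r' : G → Matrix (Fin (m + 1)) (Fin (m + 1)) P}

lemma PreLift.mono (h : 𝔞 ≤ 𝔟) (hr : PreLift ρ P w γ x 𝔞 r) : PreLift ρ P w γ x 𝔟 r where
  mul g k i j := h (hr.mul g k i j)
  red := hr.red
  cont N g₀ := by
    filter_upwards [hr.cont N g₀] with g hg i j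
    exact sup_le_sup_right h _ (hg i j)
  test k i j := h (hr.test k i j)
  gauge := hr.gauge.mono h

lemma mem_of_forall_mem_sup (𝔞 : Ideal P) (x : P) (h : ∀ N, x ∈ 𝔞 ⊔ maximalIdeal P ^ N) :
    x ∈ 𝔞 := by
  have h1 : (Ideal.Quotient.mk 𝔞 x) = 0 := by
    apply IsHausdorff.haus' (I := maximalIdeal P) (M := P ⧸ 𝔞)
    intro N
    rw [SModEq.zero]
    obtain ⟨a, ha, b, hb, hab⟩ := Submodule.mem_sup.1 (h N)
    have h2 : Ideal.Quotient.mk 𝔞 x = b • (1 : P ⧸ 𝔞) := by
      rw [← hab, map_add, Ideal.Quotient.eq_zero_iff_mem.2 ha, zero_add, Algebra.smul_def, mul_one]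
      rfl
    rw [h2]
    exact Submodule.smul_mem_smul hb trivial
  exact Ideal.Quotient.eq_zero_iff_mem.1 h1

lemma mul_mem_step {𝔠 : Ideal P} {N : ℕ} {a b : P} (ha : a ∈ maximalIdeal P)
    (hb : b ∈ 𝔠 ⊔ maximalIdeal P ^ N) : a * b ∈ 𝔠 ⊔ maximalIdeal P ^ (N + 1) := by
  obtain ⟨c, hc, d, hd, rfl⟩ := Submodule.mem_sup.1 hb
  rw [mul_add]
  apply Ideal.add_mem
  · exact Ideal.mem_sup_left (Ideal.mul_mem_left _ _ hc)
  · apply Ideal.mem_sup_right
    rw [pow_succ']
    exact Ideal.mul_mem_mul ha hd

/-- Uniqueness of lifts with given values at the test points. -/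
theorem PreLift.unique (hρ : IsLocallyConstant ρ) (hγ : TestPoints ρ γ)
    (hr : PreLift ρ P w γ x 𝔞 r) (hr' : PreLift ρ P w γ x 𝔞 r') :
    ∀ g i j, r g i j - r' g i j ∈ 𝔞 := by
  choose τ hτ using fun c : F => WittVector.constantCoeff_surjective p c
  have hτres : ∀ {r : G → Matrix (Fin (m + 1)) (Fin (m + 1)) P}, PreLift ρ P w γ x 𝔞 r →
      ∀ g i j, r g i j - algebraMap (WittVector p F) P
        (τ ((ρ g : Matrix (Fin (m + 1)) (Fin (m + 1)) F) i j)) ∈ maximalIdeal P := by
    intro r hr g i j
    rw [← P.residue_eq_zero_iff, map_sub, P.residue_algebraMap, hτ, ← hr.red g]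
    exact sub_self _
  have key : ∀ N g i j, r g i j - r' g i j ∈ 𝔞 ⊔ maximalIdeal P ^ N := by
    intro N
    induction N with
    | zero => intro g i j; simp
    | succ N ih =>
      rcases Nat.eq_zero_or_pos N with rfl | hN
      · intro g i j
        apply Ideal.mem_sup_right
        rw [zero_add, pow_one, ← P.residue_eq_zero_iff, map_sub]
        have h1 : P.residue (r g i j) = (ρ g : Matrix (Fin (m + 1)) (Fin (m + 1)) F) i j := by
          rw [← hr.red g]; rfl
        have h2 : P.residue (r' g i j) = (ρ g : Matrix (Fin (m + 1)) (Fin (m + 1)) F) i j := by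
          rw [← hr'.red g]; rfl
        rw [h1, h2, sub_self]
      · have := descent hρ hγ (A := P)
          ((𝔞 ⊔ maximalIdeal P ^ (N + 1)).restrictScalars (WittVector p F))
          ((𝔞 ⊔ maximalIdeal P ^ N).restrictScalars (WittVector p F))
          (by
            intro y hy
            rw [Algebra.smul_def, map_natCast]
            exact mul_mem_step (natCast_p_mem P) hy)
          (fun g => r g - r' g) (fun g i j => ih g i j)
          (by
            intro g₀
            filter_upwards [hr.cont (N + 1) g₀, hr'.cont (N + 1) g₀] with g h1 h2 i j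
            have e : (r g - r' g) i j - (r g₀ - r' g₀) i j =
                (r g i j - r g₀ i j) - (r' g i j - r' g₀ i j) := by
              simp only [Matrix.sub_apply]; ring
            rw [e]
            exact Ideal.sub_mem _ (h1 i j) (h2 i j))
          τ hτ
          (by
            intro g h i j
            have e : (r (g * h) - r' (g * h)) i j - ∑ k,
                (τ ((ρ g : Matrix (Fin (m + 1)) (Fin (m + 1)) F) i k) • (r h - r' h) k j +
                τ ((ρ h : Matrix (Fin (m + 1)) (Fin (m + 1)) F) k j) • (r g - r' g) i k) =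
                (r (g * h) - r g * r h) i j - (r' (g * h) - r' g * r' h) i j +
                ∑ k, ((r g i k - algebraMap (WittVector p F) P
                    (τ ((ρ g : Matrix (Fin (m + 1)) (Fin (m + 1)) F) i k))) *
                    (r h k j - r' h k j) +
                  (r' h k j - algebraMap (WittVector p F) P
                    (τ ((ρ h : Matrix (Fin (m + 1)) (Fin (m + 1)) F) k j))) *
                    (r g i k - r' g i k)) := by
              have e1 : ∑ k, ((r g i k - algebraMap (WittVector p F) P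
                    (τ ((ρ g : Matrix (Fin (m + 1)) (Fin (m + 1)) F) i k))) *
                    (r h k j - r' h k j) +
                  (r' h k j - algebraMap (WittVector p F) P
                    (τ ((ρ h : Matrix (Fin (m + 1)) (Fin (m + 1)) F) k j))) *
                    (r g i k - r' g i k)) =
                  (∑ k, r g i k * r h k j) - (∑ k, r' g i k * r' h k j) - ∑ k,
                (τ ((ρ g : Matrix (Fin (m + 1)) (Fin (m + 1)) F) i k) • (r h - r' h) k j +
                τ ((ρ h : Matrix (Fin (m + 1)) (Fin (m + 1)) F) k j) • (r g - r' g) i k) := by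
                rw [← Finset.sum_sub_distrib, ← Finset.sum_sub_distrib]
                apply Finset.sum_congr rfl
                intro k _
                simp only [Algebra.smul_def, Matrix.sub_apply]
                ring
              rw [e1]
              simp only [Matrix.sub_apply, Matrix.mul_apply]
              ring
            have goal : (r (g * h) - r' (g * h)) i j - ∑ k,
                (τ ((ρ g : Matrix (Fin (m + 1)) (Fin (m + 1)) F) i k) • (r h - r' h) k j +
                τ ((ρ h : Matrix (Fin (m + 1)) (Fin (m + 1)) F) k j) • (r g - r' g) i k) ∈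
                𝔞 ⊔ maximalIdeal P ^ (N + 1) := by
              rw [e]
              apply Ideal.add_mem
              · exact Ideal.mem_sup_left (Ideal.sub_mem _ (hr.mul g h i j) (hr'.mul g h i j))
              · apply Ideal.sum_mem
                intro k _
                exact Ideal.add_mem _ (mul_mem_step (hτres hr g i k) (ih h k j))
                  (mul_mem_step (hτres hr' h k j) (ih g i k))
            exact goal)
          (by
            intro k i j
            have e : (r (γ k) - r' (γ k)) i j =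
                (r (γ k) i j - x k i j) - (r' (γ k) i j - x k i j) := by
              simp only [Matrix.sub_apply]; ring
            have goal : (r (γ k) - r' (γ k)) i j ∈ 𝔞 ⊔ maximalIdeal P ^ (N + 1) := by
              rw [e]
              exact Ideal.mem_sup_left (Ideal.sub_mem _ (hr.test k i j) (hr'.test k i j))
            exact goal)
        exact this
  intro g i j
  exact mem_of_forall_mem_sup 𝔞 _ (fun N => key N g i j)

/-- The good open ideals are closed under intersection. -/
theorem PreLift.inf (hρ : IsLocallyConstant ρ) (hγ : TestPoints ρ γ)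
    (ha : 𝔞 ≤ maximalIdeal P) {M : ℕ} (haM : maximalIdeal P ^ M ≤ 𝔞)
    (hbM : maximalIdeal P ^ M ≤ 𝔟)
    (hr : PreLift ρ P w γ x 𝔞 r) (hr' : PreLift ρ P w γ x 𝔟 r') :
    ∃ s, PreLift ρ P w γ x (𝔞 ⊓ 𝔟) s := by
  have h1 : ∀ g i j, r g i j - r' g i j ∈ 𝔞 ⊔ 𝔟 :=
    PreLift.unique hρ hγ (hr.mono le_sup_left) (hr'.mono le_sup_right)
  choose a ha' b hb' hab using fun g i j => Submodule.mem_sup.1 (h1 g i j)
  let s : G → Matrix (Fin (m + 1)) (Fin (m + 1)) P := fun g i j => r g i j - a g i j
  have hsr : ∀ g i j, s g i j - r g i j ∈ 𝔞 := by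
    intro g i j
    change r g i j - a g i j - r g i j ∈ 𝔞
    have : r g i j - a g i j - r g i j = - a g i j := by ring
    rw [this]
    exact (Ideal.neg_mem_iff _).2 (ha' g i j)
  have hsr' : ∀ g i j, s g i j - r' g i j ∈ 𝔟 := by
    intro g i j
    change r g i j - a g i j - r' g i j ∈ 𝔟
    have : r g i j - a g i j - r' g i j = b g i j := by linear_combination -(hab g i j)
    rw [this]
    exact hb' g i j
  have hmul : ∀ {𝔠 : Ideal P} {t : G → Matrix (Fin (m + 1)) (Fin (m + 1)) P},
      PreLift ρ P w γ x 𝔠 t → (∀ g i j, s g i j - t g i j ∈ 𝔠) →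
      ∀ g h i j, (s (g * h) - s g * s h) i j ∈ 𝔠 := by
    intro 𝔠 t ht hst g h i j
    have e : (s (g * h) - s g * s h) i j = (s (g * h) i j - t (g * h) i j) +
        (t (g * h) - t g * t h) i j -
        ∑ k, ((s g i k - t g i k) * s h k j + t g i k * (s h k j - t h k j)) := by
      have e1 : ∑ k, ((s g i k - t g i k) * s h k j + t g i k * (s h k j - t h k j)) =
          (∑ k, s g i k * s h k j) - ∑ k, t g i k * t h k j := by
        rw [← Finset.sum_sub_distrib]
        apply Finset.sum_congr rfl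
        intro k _
        ring
      rw [e1]
      simp only [Matrix.sub_apply, Matrix.mul_apply]
      ring
    rw [e]
    apply Ideal.sub_mem
    · exact Ideal.add_mem _ (hst _ i j) (ht.mul g h i j)
    · apply Ideal.sum_mem
      intro k _
      exact Ideal.add_mem _ (Ideal.mul_mem_right _ _ (hst g i k))
        (Ideal.mul_mem_left _ _ (hst h k j))
  refine ⟨s, ⟨?_, ?_, ?_, ?_, ?_⟩⟩
  · intro g h i j
    exact ⟨hmul hr hsr g h i j, hmul hr' hsr' g h i j⟩
  · intro g
    rw [← hr.red g]
    ext i j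
    simp only [Matrix.map_apply]
    rw [← sub_eq_zero, ← map_sub, P.residue_eq_zero_iff]
    exact ha (hsr g i j)
  · intro N g₀
    filter_upwards [hr.cont M g₀, hr'.cont M g₀] with g h2 h3 i j
    apply Ideal.mem_sup_left
    constructor
    · have h4 : r g i j - r g₀ i j ∈ 𝔞 := by
        have := h2 i j
        rwa [sup_eq_left.2 haM] at this
      have e : s g i j - s g₀ i j = (s g i j - r g i j) + (r g i j - r g₀ i j) -
          (s g₀ i j - r g₀ i j) := by ring
      rw [e]
      exact Ideal.sub_mem _ (Ideal.add_mem _ (hsr g i j) h4) (hsr g₀ i j)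
    · have h4 : r' g i j - r' g₀ i j ∈ 𝔟 := by
        have := h3 i j
        rwa [sup_eq_left.2 hbM] at this
      have e : s g i j - s g₀ i j = (s g i j - r' g i j) + (r' g i j - r' g₀ i j) -
          (s g₀ i j - r' g₀ i j) := by ring
      rw [e]
      exact Ideal.sub_mem _ (Ideal.add_mem _ (hsr' g i j) h4) (hsr' g₀ i j)
  · intro k i j
    constructor
    · have e : s (γ k) i j - x k i j = (s (γ k) i j - r (γ k) i j) + (r (γ k) i j - x k i j) := by
        ring
      rw [e]
      exact Ideal.add_mem _ (hsr _ i j) (hr.test k i j)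
    · have e : s (γ k) i j - x k i j = (s (γ k) i j - r' (γ k) i j) +
          (r' (γ k) i j - x k i j) := by ring
      rw [e]
      exact Ideal.add_mem _ (hsr' _ i j) (hr'.test k i j)
  · intro i j hij
    constructor
    · exact Gauge.congr (r := r) (fun g i j => by
        rw [← neg_sub]; exact (Ideal.neg_mem_iff _).2 (hsr g i j)) hr.gauge i j hij
    · exact Gauge.congr (r := r') (fun g i j => by
        rw [← neg_sub]; exact (Ideal.neg_mem_iff _).2 (hsr' g i j)) hr'.gauge i j hij

end Pool.Agent.Helper59
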