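import Pool.Agent.Helper59.Defs

open NumberField IsDedekindDomain

namespace Pool.Agent.Helper59

variable (K : Type) [Field K] [NumberField K]

lemma numberField_intermediate (M : IntermediateField K (AlgebraicClosure K))
    [FiniteDimensional K M] : NumberField M := by
  have : FiniteDimensional ℚ M := FiniteDimensional.trans ℚ K M
  exact { to_charZero := charZero_of_injective_algebraMap (algebraMap K M).injective
          to_finiteDimensional := this }

lemma finite_ramified (M : IntermediateField K (AlgebraicClosure K)) [FiniteDimensional K M] :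
    {v : HeightOneSpectrum (𝓞 K) | ¬ Algebra.IsUnramifiedIn (𝓞 M) v.asIdeal}.Finite := by
  have : NumberField M := numberField_intermediate K M
  set D := differentIdeal (𝓞 K) (𝓞 M) with hD
  have hD0 : D ≠ ⊥ := differentIdeal_ne_bot
  have hfin : {P : HeightOneSpectrum (𝓞 M) | P.asIdeal ∣ D}.Finite :=
    Ideal.finite_factors hD0
  have hsub : {v : HeightOneSpectrum (𝓞 K) | ¬ Algebra.IsUnramifiedIn (𝓞 M) v.asIdeal} ⊆
      (fun v : HeightOneSpectrum (𝓞 K) => v.asIdeal) ⁻¹'
        ((fun P : HeightOneSpectrum (𝓞 M) => P.asIdeal.under (𝓞 K)) ''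
          {P : HeightOneSpectrum (𝓞 M) | P.asIdeal ∣ D}) := by
    intro v hv
    rw [Set.mem_setOf_eq, Algebra.IsUnramifiedIn] at hv
    push Not at hv
    obtain ⟨P, hP, hlie, hram⟩ := hv
    have hPbot : P ≠ ⊥ := Ideal.ne_bot_of_liesOver_of_ne_bot v.ne_bot P
    refine ⟨⟨P, hP, hPbot⟩, ?_, ?_⟩
    · exact dvd_differentIdeal_iff.2 hram
    · exact (Ideal.over_def P v.asIdeal).symm
  refine Set.Finite.subset (Set.Finite.preimage ?_ (hfin.image _)) hsub
  intro v _ w _ hvw
  exact HeightOneSpectrum.ext hvw

end Pool.Agent.Helper59
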