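import Pool.Agent.Helper59.Cocycles

open Topology

namespace Pool.Agent.Helper59

section

variable {K Ω : Type*} [Field K] [Field Ω] [Algebra K Ω] [Algebra.IsAlgebraic K Ω]

lemma isLocallyConstant_apply (x : Ω) : IsLocallyConstant fun g : Gal(Ω/K) => g x := by
  rw [IsLocallyConstant.iff_eventually_eq]
  intro g0
  have hfd : FiniteDimensional K (IntermediateField.adjoin K {x}) :=
    IntermediateField.adjoin.finiteDimensional (Algebra.IsIntegral.isIntegral x)
  have hopen := IntermediateField.fixingSubgroup_isOpen (IntermediateField.adjoin K {x})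
  have h1 : {g : Gal(Ω/K) | g0⁻¹ * g ∈ (IntermediateField.adjoin K {x}).fixingSubgroup} ∈ 𝓝 g0 := by
    apply IsOpen.mem_nhds
    · exact hopen.preimage (continuous_const_mul g0⁻¹)
    · change g0⁻¹ * g0 ∈ (IntermediateField.adjoin K {x}).fixingSubgroup
      simp
  filter_upwards [h1] with g hg
  have h2 : (g0⁻¹ * g) x = x := by
    have := (IntermediateField.mem_fixingSubgroup_iff _ _).1 hg x
      (IntermediateField.mem_adjoin_simple_self K x)
    exact this
  have h3 : g0 ((g0⁻¹ * g) x) = g0 x := by rw [h2]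
  rw [← h3, ← AlgEquiv.mul_apply, mul_inv_cancel_left]

lemma isLocallyConstant_apply_pi {ι : Type*} [Finite ι] (s : ι → Ω) :
    IsLocallyConstant fun g : Gal(Ω/K) => fun i => g (s i) := by
  rw [IsLocallyConstant.iff_eventually_eq]
  intro g0
  have : ∀ i, ∀ᶠ g in 𝓝 g0, g (s i) = g0 (s i) := fun i =>
    (IsLocallyConstant.iff_eventually_eq _).1 (isLocallyConstant_apply (K := K) (s i)) g0
  filter_upwards [Filter.eventually_all.2 this] with g hg
  funext i
  exact hg i

open Classical in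
/-- Construction of `RealData` from square roots. -/
noncomputable def realDataOfSquareRoots {F : Type*} [Field F] [CharP F 2] [Finite F] {n : ℕ}
    (ρ : Gal(Ω/K) →* GL (Fin n) F) (hρ : IsLocallyConstant ρ) (h2 : (2 : Ω) ≠ 0)
    (s : GL (Fin n) F → Ω) (hs0 : ∀ δ, s δ ≠ 0)
    (hs : ∀ g δ, (g (s δ)) ^ 2 = (s (ρ g * δ)) ^ 2)
    (c : Gal(Ω/K)) (hc : c * c = 1) (hρc : ρ c = 1) (hc1 : c (s 1) = - s 1)
    (hcδ : ∀ δ, δ ≠ 1 → c (s δ) = s δ) : RealData ρ where
  c := c
  u g δ := if g (s ((ρ g)⁻¹ * δ)) = s δ then 0 else 1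
  c_mul_c := hc
  map_c := hρc
  u_mul := by
    have key : ∀ (g : Gal(Ω/K)) (δ : GL (Fin n) F), g (s ((ρ g)⁻¹ * δ)) = s δ ∨
        g (s ((ρ g)⁻¹ * δ)) = - s δ := by
      intro g δ
      have h := hs g ((ρ g)⁻¹ * δ)
      rw [mul_inv_cancel_left] at h
      exact sq_eq_sq_iff_eq_or_eq_neg.1 h
    have hne : ∀ δ, s δ ≠ - s δ := by
      intro δ h
      have : (2 : Ω) * s δ = 0 := by linear_combination h
      rcases mul_eq_zero.1 this with h' | h'
      · exact h2 h'
      · exact hs0 δ h'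
    have h11 : (1 : F) + 1 = 0 := CharTwo.add_self_eq_zero 1
    intro g h δ
    have e1 : (g * h) (s ((ρ (g * h))⁻¹ * δ)) = g (h (s ((ρ h)⁻¹ * ((ρ g)⁻¹ * δ)))) := by
      rw [map_mul, mul_inv_rev, mul_assoc]
      rfl
    rw [e1]
    rcases key h ((ρ g)⁻¹ * δ) with hh | hh <;> rcases key g δ with hg | hg
    · simp [hh, hg]
    · simp [hh, hg]
    · simp [hh, hg, (hne δ).symm, (hne ((ρ g)⁻¹ * δ)).symm]
    · simp [hh, hg, (hne δ).symm, (hne ((ρ g)⁻¹ * δ)).symm, h11]
  u_c_one := by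
    have hne : - s 1 ≠ s 1 := by
      intro h
      have : (2 : Ω) * s 1 = 0 := by linear_combination -h
      rcases mul_eq_zero.1 this with h' | h'
      · exact h2 h'
      · exact hs0 1 h'
    simp [hρc, hc1, hne]
  u_c := by
    intro δ hδ
    simp [hρc, hcδ δ hδ]
  u_lc := by
    have h1 := hρ.prodMk (isLocallyConstant_apply_pi (K := K) s)
    exact h1.comp (fun w : GL (Fin n) F × (GL (Fin n) F → Ω) =>
      fun δ => if w.2 (w.1⁻¹ * δ) = s δ then (0 : F) else 1)

end

end Pool.Agent.Helper59
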