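import Pool.Agent.Helper59.Key

set_option linter.unusedSectionVars false

open IsLocalRing
open scoped MatrixGroups

namespace Pool.Agent.Helper59

variable {p : ℕ} [Fact p.Prime] {F : Type} [Field F] [Finite F] {h n : ℕ}
variable {G : Type} [Group G] [TopologicalSpace G] [IsTopologicalGroup G]
  {ρ : G →* GL (Fin n) F}

instance : Finite (DualNumber F) := inferInstanceAs (Finite (F × F))

/-- the dual numbers as a coefficient ring -/
noncomputable def dualCoeff (p : ℕ) [Fact p.Prime] (F : Type) [Field F] [Finite F] :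
    CoeffRing p F where
  carrier := DualNumber F
  algebra := ((TrivSqZeroExt.inlHom F F).comp WittVector.constantCoeff).toAlgebra
  residue := (TrivSqZeroExt.fstHom F F F).toRingHom
  residue_algebraMap := by
    intro w
    rfl

/-- the matrix `A + ε B` -/
def dualMat (A B : Matrix (Fin n) (Fin n) F) : Matrix (Fin n) (Fin n) (dualCoeff p F) :=
  fun i j => (TrivSqZeroExt.inl (A i j) + TrivSqZeroExt.inr (B i j) : DualNumber F)

/-- the `ε`-part -/
def epsPart (x : dualCoeff p F) : F := TrivSqZeroExt.snd (x : DualNumber F)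

/-- the constant part -/
def fstPart (x : dualCoeff p F) : F := TrivSqZeroExt.fst (x : DualNumber F)

lemma dual_ext {x y : dualCoeff p F} (h1 : fstPart x = fstPart y) (h2 : epsPart x = epsPart y) :
    x = y := TrivSqZeroExt.ext h1 h2

lemma fstPart_eq_residue (x : dualCoeff p F) : fstPart x = (dualCoeff p F).residue x := rfl

lemma fstPart_add (x y : dualCoeff p F) : fstPart (x + y) = fstPart x + fstPart y := rfl
lemma epsPart_add (x y : dualCoeff p F) : epsPart (x + y) = epsPart x + epsPart y := rfl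
lemma fstPart_sub (x y : dualCoeff p F) : fstPart (x - y) = fstPart x - fstPart y := rfl
lemma epsPart_sub (x y : dualCoeff p F) : epsPart (x - y) = epsPart x - epsPart y := rfl
lemma fstPart_zero : fstPart (0 : dualCoeff p F) = 0 := rfl
lemma epsPart_zero : epsPart (0 : dualCoeff p F) = 0 := rfl

lemma fstPart_mul (x y : dualCoeff p F) : fstPart (x * y) = fstPart x * fstPart y := rfl

lemma epsPart_mul (x y : dualCoeff p F) :
    epsPart (x * y) = fstPart x * epsPart y + epsPart x * fstPart y := by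
  exact TrivSqZeroExt.snd_mul (R := F) (M := F) (x : DualNumber F) (y : DualNumber F)

lemma epsPart_sum {ι : Type*} (s : Finset ι) (x : ι → dualCoeff p F) :
    epsPart (∑ i ∈ s, x i) = ∑ i ∈ s, epsPart (x i) := by
  classical
  induction s using Finset.induction_on with
  | empty => simp [epsPart_zero]
  | insert a s has ih => rw [Finset.sum_insert has, Finset.sum_insert has, epsPart_add, ih]

lemma fstPart_sum {ι : Type*} (s : Finset ι) (x : ι → dualCoeff p F) :
    fstPart (∑ i ∈ s, x i) = ∑ i ∈ s, fstPart (x i) := by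
  classical
  induction s using Finset.induction_on with
  | empty => simp [fstPart_zero]
  | insert a s has ih => rw [Finset.sum_insert has, Finset.sum_insert has, fstPart_add, ih]

lemma map_fst_mul (M N : Matrix (Fin n) (Fin n) (dualCoeff p F)) :
    (M * N).map fstPart = M.map fstPart * N.map fstPart := by
  ext i j
  simp only [Matrix.map_apply, Matrix.mul_apply, fstPart_sum, fstPart_mul]

lemma map_eps_mul (M N : Matrix (Fin n) (Fin n) (dualCoeff p F)) :
    (M * N).map epsPart = M.map fstPart * N.map epsPart + M.map epsPart * N.map fstPart := by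
  ext i j
  simp only [Matrix.map_apply, Matrix.mul_apply, epsPart_sum, epsPart_mul, Matrix.add_apply,
    Finset.sum_add_distrib]

lemma map_fst_dualMat (A B : Matrix (Fin n) (Fin n) F) :
    (dualMat (p := p) A B).map fstPart = A := by
  ext i j
  simp [dualMat, fstPart]

lemma map_eps_dualMat (A B : Matrix (Fin n) (Fin n) F) :
    (dualMat (p := p) A B).map epsPart = B := by
  ext i j
  simp [dualMat, epsPart]

lemma dualMat_ext {M N : Matrix (Fin n) (Fin n) (dualCoeff p F)}
    (h1 : M.map fstPart = N.map fstPart) (h2 : M.map epsPart = N.map epsPart) : M = N := by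
  ext i j
  exact dual_ext (congrFun (congrFun h1 i) j) (congrFun (congrFun h2 i) j)

/-- the lift to the dual numbers attached to a cocycle -/
noncomputable def cocycleLift (p : ℕ) [Fact p.Prime] (ρ : G →* GL (Fin n) F) (φ : Z1 ρ) :
    G →* GL (Fin n) (dualCoeff p F) :=
  homOfMul (fun g => dualMat (p := p) (ρ g : Matrix (Fin n) (Fin n) F)
    ((φ : C1 ρ) g * (ρ g : Matrix (Fin n) (Fin n) F)))
    (by
      intro g k
      apply dualMat_ext
      · rw [map_fst_mul, map_fst_dualMat, map_fst_dualMat, map_fst_dualMat, map_mul]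
        rfl
      · rw [map_eps_mul, map_eps_dualMat, map_fst_dualMat, map_fst_dualMat, map_eps_dualMat,
          map_eps_dualMat, φ.2 g k]
        unfold ad
        have h5 : (((ρ g)⁻¹ : GL (Fin n) F) : Matrix (Fin n) (Fin n) F) *
            (ρ (g * k) : Matrix (Fin n) (Fin n) F) = (ρ k : Matrix (Fin n) (Fin n) F) := by
          rw [← Units.val_mul, map_mul, inv_mul_cancel_left]
        have h6 : (ρ (g * k) : Matrix (Fin n) (Fin n) F) =
            (ρ g : Matrix (Fin n) (Fin n) F) * (ρ k : Matrix (Fin n) (Fin n) F) := by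
          rw [map_mul]; rfl
        rw [add_mul, mul_assoc _ _ (ρ (g * k) : Matrix (Fin n) (Fin n) F), h5, h6]
        noncomm_ring)
    (by
      apply isUnit_of_residue
      have : (dualMat (p := p) (ρ 1 : Matrix (Fin n) (Fin n) F)
        ((φ : C1 ρ) 1 * (ρ 1 : Matrix (Fin n) (Fin n) F))).map (dualCoeff p F).residue =
        (ρ 1 : Matrix (Fin n) (Fin n) F) := map_fst_dualMat _ _
      rw [this]
      exact (ρ 1).isUnit)

lemma coe_cocycleLift (φ : Z1 ρ) (g : G) :
    (cocycleLift p ρ φ g : Matrix (Fin n) (Fin n) (dualCoeff p F)) =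
      dualMat (p := p) (ρ g : Matrix (Fin n) (Fin n) F)
        ((φ : C1 ρ) g * (ρ g : Matrix (Fin n) (Fin n) F)) := rfl

lemma isLift_cocycleLift (hρ : IsLocallyConstant ρ) (φ : Z1 ρ) :
    IsLift ρ (dualCoeff p F) (cocycleLift p ρ φ) := by
  constructor
  · intro N
    have h1 : IsLocallyConstant (fun g => (ρ g, (φ : C1 ρ) g)) :=
      hρ.prodMk (φ : C1 ρ).isLocallyConstant
    exact h1.comp (fun w : GL (Fin n) F × Matrix (Fin n) (Fin n) F =>
      (dualMat (p := p) (w.1 : Matrix (Fin n) (Fin n) F)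
        (w.2 * (w.1 : Matrix (Fin n) (Fin n) F))).map
          (Ideal.Quotient.mk (maximalIdeal (dualCoeff p F) ^ N)))
  · intro g
    rw [coe_cocycleLift]
    exact map_fst_dualMat _ _

/-- If two cocycle lifts are conjugates of the same homomorphism then the cocycles differ by a
coboundary. -/
lemma sub_mem_B1 (φ φ' : Z1 ρ) (σ : G →* GL (Fin n) (dualCoeff p F))
    (h1 : StrictlyEquivalent (cocycleLift p ρ φ) σ)
    (h2 : StrictlyEquivalent (cocycleLift p ρ φ') σ) :
    (φ : C1 ρ) - (φ' : C1 ρ) ∈ B1 ρ := by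
  obtain ⟨C, hC, hC'⟩ := h1
  obtain ⟨D, hD, hD'⟩ := h2
  have e0 : ∀ g, cocycleLift p ρ φ g * (C * D⁻¹) = (C * D⁻¹) * cocycleLift p ρ φ' g := by
    intro g
    rw [hC' g, hD' g]
    group
  have fstC : (C : Matrix (Fin n) (Fin n) (dualCoeff p F)).map fstPart = 1 := by
    ext i j
    have := ((dualCoeff p F).residue_eq_zero_iff _).2 (hC i j)
    rw [Matrix.sub_apply, map_sub, sub_eq_zero] at this
    rw [Matrix.map_apply, fstPart_eq_residue, this, Matrix.one_apply, Matrix.one_apply]
    split_ifs <;> simp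
  have fstD : (D : Matrix (Fin n) (Fin n) (dualCoeff p F)).map fstPart = 1 := by
    ext i j
    have := ((dualCoeff p F).residue_eq_zero_iff _).2 (hD i j)
    rw [Matrix.sub_apply, map_sub, sub_eq_zero] at this
    rw [Matrix.map_apply, fstPart_eq_residue, this, Matrix.one_apply, Matrix.one_apply]
    split_ifs <;> simp
  have fstDinv : ((D⁻¹ : GL (Fin n) (dualCoeff p F)) :
      Matrix (Fin n) (Fin n) (dualCoeff p F)).map fstPart = 1 := by
    have h3 : ((D⁻¹ : GL (Fin n) (dualCoeff p F)) : Matrix (Fin n) (Fin n) (dualCoeff p F)) *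
        (D : Matrix (Fin n) (Fin n) (dualCoeff p F)) = 1 := by
      rw [← Units.val_mul, inv_mul_cancel, Units.val_one]
    have h4 := congrArg (fun M : Matrix (Fin n) (Fin n) (dualCoeff p F) => M.map fstPart) h3
    beta_reduce at h4
    rw [map_fst_mul, fstD, mul_one] at h4
    rw [h4]
    ext i j
    rw [Matrix.map_apply, Matrix.one_apply, Matrix.one_apply]
    split_ifs <;> rfl
  set E : Matrix (Fin n) (Fin n) (dualCoeff p F) :=
    ((C * D⁻¹ : GL (Fin n) (dualCoeff p F)) : Matrix (Fin n) (Fin n) (dualCoeff p F)) with hE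
  have fstE : E.map fstPart = 1 := by
    rw [hE, Units.val_mul, map_fst_mul, fstC, fstDinv, one_mul]
  refine ⟨-(E.map epsPart), fun g => ?_⟩
  have e1 : (cocycleLift p ρ φ g : Matrix (Fin n) (Fin n) (dualCoeff p F)) * E =
      E * (cocycleLift p ρ φ' g : Matrix (Fin n) (Fin n) (dualCoeff p F)) := by
    rw [hE, ← Units.val_mul, ← Units.val_mul, e0 g]
  have e2 := congrArg (fun M : Matrix (Fin n) (Fin n) (dualCoeff p F) => M.map epsPart) e1
  beta_reduce at e2
  rw [map_eps_mul, map_eps_mul, coe_cocycleLift, coe_cocycleLift, map_fst_dualMat,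
    map_eps_dualMat, map_fst_dualMat, map_eps_dualMat, fstE, mul_one, one_mul] at e2
  have e3 := congrArg (fun M : Matrix (Fin n) (Fin n) F =>
    M * (((ρ g)⁻¹ : GL (Fin n) F) : Matrix (Fin n) (Fin n) F)) e2
  beta_reduce at e3
  have h7 : (ρ g : Matrix (Fin n) (Fin n) F) *
      (((ρ g)⁻¹ : GL (Fin n) F) : Matrix (Fin n) (Fin n) F) = 1 := by
    rw [← Units.val_mul, mul_inv_cancel, Units.val_one]
  rw [add_mul, add_mul, mul_assoc _ _ (((ρ g)⁻¹ : GL (Fin n) F) : Matrix (Fin n) (Fin n) F),
    mul_assoc ((φ : C1 ρ) g), mul_assoc ((φ' : C1 ρ) g),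
    mul_assoc (E.map epsPart) (ρ g : Matrix (Fin n) (Fin n) F), h7, mul_one, mul_one, mul_one,
    ← mul_assoc] at e3
  change (φ : C1 ρ) g - (φ' : C1 ρ) g = ad ρ g (-(E.map epsPart)) - -(E.map epsPart)
  rw [ad_neg]
  unfold ad
  rw [sub_eq_iff_eq_add]
  have e4 : (φ : C1 ρ) g = (φ' : C1 ρ) g + E.map epsPart -
      (ρ g : Matrix (Fin n) (Fin n) F) * E.map epsPart *
        (((ρ g)⁻¹ : GL (Fin n) F) : Matrix (Fin n) (Fin n) F) := by
    rw [← e3]
    abel
  rw [e4]
  abel

section Bound

variable [CharP F p]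

/-- The induced map on `R / p`. -/
noncomputable def psiBar {R : CoeffRing p F} (ψ : R →ₐ[WittVector p F] dualCoeff p F) :
    Rp R →+* dualCoeff p F :=
  Ideal.Quotient.lift (Ideal.span {(p : R)}) (ψ : R →+* dualCoeff p F) (by
    intro a ha
    obtain ⟨b, rfl⟩ := Ideal.mem_span_singleton'.1 ha
    have hp : (p : dualCoeff p F) = 0 := by
      apply dual_ext
      · rw [fstPart_eq_residue, map_natCast, CharP.cast_eq_zero]
        rfl
      · change TrivSqZeroExt.snd ((p : ℕ) : DualNumber F) = 0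
        exact TrivSqZeroExt.snd_natCast p
    rw [map_mul, map_natCast, hp, mul_zero])

lemma psiBar_mk {R : CoeffRing p F} (ψ : R →ₐ[WittVector p F] dualCoeff p F) (y : R) :
    psiBar ψ (Ideal.Quotient.mk _ y) = ψ y := Ideal.Quotient.lift_mk _ _ _

lemma psiBar_algebraMap {R : CoeffRing p F} (ψ : R →ₐ[WittVector p F] dualCoeff p F) (c : F) :
    epsPart (psiBar ψ (algebraMap F (Rp R) c)) = 0 := by
  obtain ⟨w, rfl⟩ := WittVector.constantCoeff_surjective p c
  have h1 : algebraMap F (Rp R) (WittVector.constantCoeff w) =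
      Ideal.Quotient.mk _ (algebraMap (WittVector p F) R w) := (fToRp_spec R w).symm
  rw [h1, psiBar_mk, ψ.commutes]
  rfl

lemma fstPart_psiBar {R : CoeffRing p F} (ψ : R →ₐ[WittVector p F] dualCoeff p F)
    (hψ : IsLocalHom (ψ : R →+* dualCoeff p F))
    (θ : PS F h →+* Rp R)
    (hθcc : ∀ x, θ x - algebraMap F (Rp R) (MvPowerSeries.constantCoeff x) ∈
      maximalIdeal (Rp R)) (x : PS F h) :
    fstPart (psiBar ψ (θ x)) = MvPowerSeries.constantCoeff x := by
  obtain ⟨y, hy⟩ := Ideal.Quotient.mk_surjective (θ x)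
  rw [← hy, psiBar_mk, fstPart_eq_residue, CoeffRing.residue_comp ψ hψ]
  obtain ⟨w, hw⟩ := WittVector.constantCoeff_surjective p (MvPowerSeries.constantCoeff x)
  have h1 := hθcc x
  rw [← hy, ← hw] at h1
  have h2 : algebraMap F (Rp R) (WittVector.constantCoeff w) =
      Ideal.Quotient.mk _ (algebraMap (WittVector p F) R w) := (fToRp_spec R w).symm
  rw [h2, ← map_sub, mk_mem_maximalIdeal_Rp_iff, ← R.residue_eq_zero_iff, map_sub,
    R.residue_algebraMap, hw, sub_eq_zero] at h1
  exact h1

lemma psi_ext {R : CoeffRing p F} (ψ ψ' : R →ₐ[WittVector p F] dualCoeff p F)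
    (hψ : IsLocalHom (ψ : R →+* dualCoeff p F)) (hψ' : IsLocalHom (ψ' : R →+* dualCoeff p F))
    (θ : PS F h →+* Rp R) (hθ : Function.Surjective θ)
    (hθC : ∀ c, θ (MvPowerSeries.C c) = algebraMap F (Rp R) c)
    (hθcc : ∀ x, θ x - algebraMap F (Rp R) (MvPowerSeries.constantCoeff x) ∈
      maximalIdeal (Rp R))
    (hv : ∀ i, epsPart (psiBar ψ (θ (MvPowerSeries.X i))) =
      epsPart (psiBar ψ' (θ (MvPowerSeries.X i)))) : ψ = ψ' := by
  apply AlgHom.ext
  intro y
  obtain ⟨x, hx⟩ := hθ (Ideal.Quotient.mk _ y)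
  rw [← psiBar_mk ψ y, ← psiBar_mk ψ' y, ← hx]
  apply dual_ext
  · rw [fstPart_psiBar ψ hψ θ hθcc, fstPart_psiBar ψ' hψ' θ hθcc]
  · obtain ⟨q, hq⟩ := (Ideal.mem_span_range_iff_exists_fun).1
      (mem_span_X_of_constantCoeff (x - MvPowerSeries.C (MvPowerSeries.constantCoeff x))
        (by simp))
    have hx2 : x = MvPowerSeries.C (MvPowerSeries.constantCoeff x) +
        ∑ i, q i * MvPowerSeries.X i := by rw [hq]; ring
    have key : ∀ (χ : R →ₐ[WittVector p F] dualCoeff p F)
        (_ : IsLocalHom (χ : R →+* dualCoeff p F)),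
        epsPart (psiBar χ (θ x)) = ∑ i, MvPowerSeries.constantCoeff (q i) *
          epsPart (psiBar χ (θ (MvPowerSeries.X i))) := by
      intro χ hχ
      rw [hx2, map_add, map_add, epsPart_add, hθC, psiBar_algebraMap, zero_add, map_sum, map_sum,
        epsPart_sum]
      apply Finset.sum_congr rfl
      intro i _
      rw [map_mul, map_mul, epsPart_mul, fstPart_psiBar χ hχ θ hθcc, fstPart_psiBar χ hχ θ hθcc,
        MvPowerSeries.constantCoeff_X, mul_zero, add_zero]
    rw [key ψ hψ, key ψ' hψ']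
    apply Finset.sum_congr rfl
    intro i _
    rw [hv i]

theorem h1_le (hρ : IsLocallyConstant ρ) (R : CoeffRing p F) {ρu : G →* GL (Fin n) R}
    (hu : IsUniversalDeformation ρ R ρu)
    (θ : PS F h →+* Rp R) (hθ : Function.Surjective θ)
    (hθC : ∀ c, θ (MvPowerSeries.C c) = algebraMap F (Rp R) c)
    (hθcc : ∀ x, θ x - algebraMap F (Rp R) (MvPowerSeries.constantCoeff x) ∈
      maximalIdeal (Rp R)) : h1 ρ ≤ h := by
  classical
  choose ψ hψ1 _ using fun φ : Z1 ρ =>
    hu.existsUnique (dualCoeff p F) (cocycleLift p ρ φ) (isLift_cocycleLift hρ φ)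
  let v : Z1 ρ → (Fin h → F) := fun φ i => epsPart (psiBar (ψ φ) (θ (MvPowerSeries.X i)))
  have hv : ∀ φ φ', v φ = v φ' → (φ : C1 ρ) - (φ' : C1 ρ) ∈ B1 ρ := by
    intro φ φ' hvv
    have h1 : ψ φ = ψ φ' := psi_ext (ψ φ) (ψ φ') (hψ1 φ).1 (hψ1 φ').1 θ hθ hθC hθcc
      (fun i => congrFun hvv i)
    have h2 := (hψ1 φ).2
    have h3 := (hψ1 φ').2
    rw [← h1] at h3
    exact sub_mem_B1 φ φ' _ h2 h3
  have hinj : Function.Injective (fun a : H1 ρ => v (Quotient.out a)) := by
    intro a b hab
    have h1 := hv _ _ hab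
    have h2 : (Submodule.Quotient.mk (Quotient.out a) : H1 ρ) =
        Submodule.Quotient.mk (Quotient.out b) := by
      rw [Submodule.Quotient.eq]
      exact h1
    have h3 : (Submodule.Quotient.mk (Quotient.out a) : H1 ρ) = a := Quotient.out_eq a
    have h4 : (Submodule.Quotient.mk (Quotient.out b) : H1 ρ) = b := Quotient.out_eq b
    rw [← h3, ← h4, h2]
  have hfin : Finite (H1 ρ) := Finite.of_injective _ hinj
  have hMfin : Module.Finite F (H1 ρ) := Module.Finite.of_finite
  have hcard : Nat.card (H1 ρ) ≤ Nat.card (Fin h → F) := Nat.card_le_card_of_injective _ hinj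
  rw [Module.natCard_eq_pow_finrank (K := F) (V := H1 ρ), Nat.card_fun, Nat.card_fin] at hcard
  have hF : 1 < Nat.card F := Finite.one_lt_card
  have hle : Module.finrank F (H1 ρ) ≤ h := (Nat.pow_le_pow_iff_right hF).1 hcard
  unfold h1
  rw [← Module.finrank_eq_rank, Cardinal.toENat_nat]
  exact_mod_cast hle

end Bound

end Pool.Agent.Helper59
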